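import Pool.Agent.Vrd.Geo

/-!
# Lines which cross a common line at right angles
-/

set_option autoImplicit false

namespace Pool.Agent.Vcp

open Vor

-- BEGIN crd
private noncomputable def crd_h (b : E) (B : OrthonormalBasis (Fin 3) ℝ E) : E ≃ₜ ℝ × ℂ where
  toFun p := ((B.repr (p - b)) 0, (((B.repr (p - b)) 1 : ℝ) : ℂ) + (((B.repr (p - b)) 2 : ℝ) : ℂ) * Complex.I)
  invFun q := b + B.repr.symm (!₂[q.1, q.2.re, q.2.im] : EuclideanSpace ℝ (Fin 3))
  left_inv p := by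
    have h1 : (!₂[(B.repr (p - b)) 0,
        ((((B.repr (p - b)) 1 : ℝ) : ℂ) + (((B.repr (p - b)) 2 : ℝ) : ℂ) * Complex.I).re,
        ((((B.repr (p - b)) 1 : ℝ) : ℂ) + (((B.repr (p - b)) 2 : ℝ) : ℂ) * Complex.I).im] :
        EuclideanSpace ℝ (Fin 3)) = B.repr (p - b) := by
      ext i
      fin_cases i
      · rfl
      · simp
      · simp
    show b + B.repr.symm _ = p
    rw [h1, LinearIsometryEquiv.symm_apply_apply]
    abel
  right_inv q := by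
    show (((B.repr (b + B.repr.symm (!₂[q.1, q.2.re, q.2.im] : EuclideanSpace ℝ (Fin 3)) - b)) 0,
      (((B.repr (b + B.repr.symm (!₂[q.1, q.2.re, q.2.im] : EuclideanSpace ℝ (Fin 3)) - b)) 1 : ℝ) : ℂ) +
      (((B.repr (b + B.repr.symm (!₂[q.1, q.2.re, q.2.im] : EuclideanSpace ℝ (Fin 3)) - b)) 2 : ℝ) : ℂ) *
        Complex.I) : ℝ × ℂ) = q
    rw [add_sub_cancel_left, LinearIsometryEquiv.apply_symm_apply]
    refine Prod.ext rfl ?_
    apply Complex.ext <;> simp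
  continuous_toFun := by
    have h : Continuous fun p : E => B.repr (p - b) :=
      B.repr.continuous.comp (continuous_id.sub continuous_const)
    have hc : ∀ i : Fin 3, Continuous fun p : E => (B.repr (p - b)) i := fun i =>
      (PiLp.continuous_apply 2 _ i).comp h
    exact (hc 0).prodMk ((Complex.continuous_ofReal.comp (hc 1)).add
      ((Complex.continuous_ofReal.comp (hc 2)).mul continuous_const))
  continuous_invFun := by
    refine continuous_const.add (B.repr.symm.continuous.comp ?_)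
    refine (PiLp.continuous_toLp 2 _).comp ?_
    refine continuous_pi fun i => ?_
    fin_cases i
    · exact continuous_fst
    · exact Complex.continuous_re.comp continuous_snd
    · exact Complex.continuous_im.comp continuous_snd

private theorem crd_sq (u z : E) (hun : ‖u‖ = 1) :
    ‖z - (inner ℝ u z) • u‖ ^ 2 = inner ℝ z z - (inner ℝ u z) ^ 2 := by
  have h1 : (inner ℝ u u : ℝ) = 1 := by rw [real_inner_self_eq_norm_sq, hun, one_pow]
  rw [← real_inner_self_eq_norm_sq]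
  simp only [inner_sub_left, inner_sub_right, real_inner_smul_left, real_inner_smul_right, h1,
    real_inner_comm u z]
  ring

/-- Extend `w` to an orthonormal basis `w, e₁, e₂` of the space; `φ p = (⟪w, p - b⟫, ⟪e₁, p - b⟫ + i ⟪e₂, p - b⟫)` is a homeomorphism (a linear isometry to `ℝ³` after a translation; the inverse is `(x, ζ) ↦ b + x w + ζ.re e₁ + ζ.im e₂`). For `v ≠ 0` orthogonal to
`w`: `u = v / ‖v‖ = c e₁ + s e₂`, `ν = c + i s`, `|ν| = 1`, and with `z = p - b - t w`: `infDist ^ 2 = ‖z‖ ^ 2 - ⟪u, z⟫ ^ 2 = (x - t) ^ 2 + |ζ| ^ 2 - re (ζ conj ν) ^ 2`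
(`Vrd.infDist_dv`, `Vrd.dv`, `Vor.dl`), `re (a) ^ 2 = (|a| ^ 2 + re (a ^ 2)) / 2`, so `κ = conj ν ^ 2 / 2`. -/
theorem crd (b w : E) (hw : ‖w‖ = 1) : ∃ φ : E ≃ₜ ℝ × ℂ, ∀ v : E, v ≠ 0 → inner ℝ v w = 0 →
    ∃ κ : ℂ, ∀ (t : ℝ) (p : E), Metric.infDist p (line (b + t • w) v) ^ 2 =
      (φ p).1 ^ 2 + ‖(φ p).2‖ ^ 2 / 2 + (t ^ 2 - 2 * t * (φ p).1 - ((φ p).2 ^ 2 * κ).re) := by
  obtain ⟨B, hB⟩ := rot_basis hw
  refine ⟨crd_h b B, fun v hv hvw => ?_⟩
  set u : E := ‖v‖⁻¹ • v with hu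
  have hv0 : ‖v‖ ≠ 0 := norm_ne_zero_iff.mpr hv
  have hun : ‖u‖ = 1 := by
    rw [hu, norm_smul, norm_inv, norm_norm, inv_mul_cancel₀ hv0]
  have hU0 : (B.repr u) 0 = 0 := by
    rw [B.repr_apply_apply, hB, hu, inner_smul_right, real_inner_comm, hvw, mul_zero]
  have hin : ∀ x y : E, inner ℝ x y = (B.repr x) 0 * (B.repr y) 0 + (B.repr x) 1 * (B.repr y) 1 +
      (B.repr x) 2 * (B.repr y) 2 := by
    intro x y
    rw [← B.repr.inner_map_map x y, PiLp.inner_apply, Fin.sum_univ_three]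
    simp only [RCLike.inner_apply, conj_trivial]
    ring
  have hU : (B.repr u) 1 ^ 2 + (B.repr u) 2 ^ 2 = 1 := by
    have h1 := hin u u
    rw [real_inner_self_eq_norm_sq, hun, hU0] at h1
    linarith
  refine ⟨⟨((B.repr u) 1 ^ 2 - (B.repr u) 2 ^ 2) / 2, -((B.repr u) 1 * (B.repr u) 2)⟩, fun t p => ?_⟩
  rw [Vrd.infDist_dv]
  unfold Vrd.dv dl
  rw [← hu]
  set z : E := p - (b + t • w) with hz
  have hZ : ∀ i, (B.repr z) i = (B.repr (p - b)) i - t * (B.repr w) i := by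
    intro i
    have : z = (p - b) - t • w := by rw [hz]; abel
    rw [this, map_sub, map_smul]
    rfl
  have hw0 : (B.repr w) 0 = 1 ∧ (B.repr w) 1 = 0 ∧ (B.repr w) 2 = 0 := by
    rw [← hB, B.repr_self]
    refine ⟨?_, ?_, ?_⟩ <;> simp
  rw [crd_sq u z hun, hin z z, hin u z, hU0, hZ 0, hZ 1, hZ 2, hw0.1, hw0.2.1, hw0.2.2]
  have hφ : (crd_h b B p) = ((B.repr (p - b)) 0,
      (((B.repr (p - b)) 1 : ℝ) : ℂ) + (((B.repr (p - b)) 2 : ℝ) : ℂ) * Complex.I) := rfl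
  rw [hφ]
  generalize (B.repr (p - b)) 0 = x
  generalize (B.repr (p - b)) 1 = y1
  generalize (B.repr (p - b)) 2 = y2
  generalize (B.repr u) 1 = c at hU ⊢
  generalize (B.repr u) 2 = s at hU ⊢
  have hn : ‖((y1 : ℂ) + (y2 : ℂ) * Complex.I)‖ ^ 2 = y1 ^ 2 + y2 ^ 2 := by
    rw [← Complex.normSq_eq_norm_sq, Complex.normSq_apply]
    simp
    ring
  have hs : s ^ 2 = 1 - c ^ 2 := by linarith
  simp only
  rw [hn]
  simp only [pow_two, Complex.mul_re, Complex.add_re, Complex.add_im, Complex.ofReal_re, Complex.ofReal_im,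
    Complex.mul_im, Complex.I_re, Complex.I_im]
  nlinarith [hs, hU, mul_comm c s, congrArg (fun r => r * y1 ^ 2) hs, congrArg (fun r => r * y2 ^ 2) hs]
-- END crd

-- BEGIN dis
/-- Different lines are in different planes orthogonal to `w`. -/
theorem dis (b w : E) (hw : ‖w‖ = 1) {t t' : ℝ} (ht : t ≠ t') {v v' : E} (hv : inner ℝ v w = 0)
    (hv' : inner ℝ v' w = 0) : Disjoint (line (b + t • w) v) (line (b + t' • w) v') := by
  rw [Set.disjoint_left]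
  rintro y ⟨s, hs⟩ ⟨s', hs'⟩
  apply ht
  have h1 : inner ℝ w w = 1 := by
    rw [real_inner_self_eq_norm_sq, hw, one_pow]
  have h2 : inner ℝ y w = inner ℝ b w + t := by
    rw [hs, inner_add_left, inner_add_left, real_inner_smul_left, real_inner_smul_left, hv, h1]
    ring
  have h3 : inner ℝ y w = inner ℝ b w + t' := by
    rw [hs', inner_add_left, inner_add_left, real_inner_smul_left, real_inner_smul_left, hv', h1]
    ring
  linarith
-- END dis

-- BEGIN dst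
/-- `Vrd.infDist_dv`: `z = p - a`, `infDist ^ 2 = ‖z‖ ^ 2 - ⟪v, z⟫ ^ 2 / ‖v‖ ^ 2` with `v = (0, 1, t)`, `‖v‖ ^ 2 = 1 + t ^ 2`, `z = (p 0 - t, p 1, p 2)`: `(p 0 - t) ^ 2 + (p 1 t - p 2) ^ 2 / (1 + t ^ 2)`. -/
theorem dst (t : ℝ) (p : E) : Metric.infDist p (line (!₂[t, 0, 0] : E) (!₂[0, 1, t] : E)) ^ 2 =
    (p 0 - t) ^ 2 + (p 1 * t - p 2) ^ 2 / (1 + t ^ 2) := by
  have hv : ‖(!₂[0, 1, t] : E)‖ ^ 2 = 1 + t ^ 2 := by
    rw [EuclideanSpace.real_norm_sq_eq, Fin.sum_univ_three]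
    simp
  have hp : (0 : ℝ) < 1 + t ^ 2 := by positivity
  have key : ∀ v z : E, ‖v‖ ≠ 0 →
      ‖z - inner ℝ (‖v‖⁻¹ • v) z • ‖v‖⁻¹ • v‖ ^ 2 = ‖z‖ ^ 2 - (inner ℝ v z) ^ 2 / ‖v‖ ^ 2 := by
    intro v z hn
    have h1 : inner ℝ (‖v‖⁻¹ • v) z = ‖v‖⁻¹ * inner ℝ v z := by
      rw [inner_smul_left]
      rfl
    rw [h1, smul_smul, norm_sub_sq_real, inner_smul_right, norm_smul, mul_pow, real_inner_comm, Real.norm_eq_abs,
      sq_abs]
    field_simp
    ring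
  have hn : ‖(!₂[0, 1, t] : E)‖ ≠ 0 := by
    intro h
    rw [h] at hv
    norm_num at hv
    exact hp.ne hv
  rw [Vrd.infDist_dv]
  show ‖(p - !₂[t, 0, 0]) - inner ℝ (‖(!₂[0, 1, t] : E)‖⁻¹ • (!₂[0, 1, t] : E)) (p - !₂[t, 0, 0]) •
    ‖(!₂[0, 1, t] : E)‖⁻¹ • (!₂[0, 1, t] : E)‖ ^ 2 = _
  rw [key _ _ hn, hv, EuclideanSpace.real_norm_sq_eq, PiLp.inner_apply, Fin.sum_univ_three, Fin.sum_univ_three]
  simp
  field_simp
  ring
-- END dst

end Pool.Agent.Vcp
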