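import Pool.Agent.Vrd.Geo

/-!
# Lines which meet three pairwise skew lines (the rulings of quadrics)
-/

set_option autoImplicit false

namespace Pool.Agent.Vcp

open Set MvPolynomial Vor

/-- the cross product -/
noncomputable def cr (x y : E) : E :=
  !₂[x 1 * y 2 - x 2 * y 1, x 2 * y 0 - x 0 * y 2, x 0 * y 1 - x 1 * y 0]

/-- the direction of the line through the point `b 0 + τ • w 0` which meets the other two lines -/
noncomputable def Vt (b w : Fin 3 → E) (τ : ℝ) : E :=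
  cr (cr (b 0 + τ • w 0 - b 1) (w 1)) (cr (b 0 + τ • w 0 - b 2) (w 2))

-- BEGIN pex
private theorem pex_cr0 (x y : E) : cr x y 0 = x 1 * y 2 - x 2 * y 1 := rfl
private theorem pex_cr1 (x y : E) : cr x y 1 = x 2 * y 0 - x 0 * y 2 := rfl
private theorem pex_cr2 (x y : E) : cr x y 2 = x 0 * y 1 - x 1 * y 0 := rfl

private theorem pex_lin (x y z : E) (τ : ℝ) (l : Fin 3) :
    cr (x + τ • y) z l = cr x z l + τ * cr y z l := by
  fin_cases l
  · show cr (x + τ • y) z 0 = cr x z 0 + τ * cr y z 0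
    simp only [pex_cr0, PiLp.add_apply, PiLp.smul_apply, smul_eq_mul]; ring
  · show cr (x + τ • y) z 1 = cr x z 1 + τ * cr y z 1
    simp only [pex_cr1, PiLp.add_apply, PiLp.smul_apply, smul_eq_mul]; ring
  · show cr (x + τ • y) z 2 = cr x z 2 + τ * cr y z 2
    simp only [pex_cr2, PiLp.add_apply, PiLp.smul_apply, smul_eq_mul]; ring

/-- the coefficients of `Vt` -/
private noncomputable def pex_V (b w : Fin 3 → E) : Fin 3 → E :=
  ![cr (cr (b 0 - b 1) (w 1)) (cr (b 0 - b 2) (w 2)),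
    cr (cr (b 0 - b 1) (w 1)) (cr (w 0) (w 2)) + cr (cr (w 0) (w 1)) (cr (b 0 - b 2) (w 2)),
    cr (cr (w 0) (w 1)) (cr (w 0) (w 2))]

private theorem pex_bil (a b c d : E) (τ : ℝ) (l : Fin 3) :
    cr (a + τ • b) (c + τ • d) l =
      cr a c l + τ * (cr a d l + cr b c l) + τ ^ 2 * cr b d l := by
  fin_cases l
  · show cr (a + τ • b) (c + τ • d) 0 = cr a c 0 + τ * (cr a d 0 + cr b c 0) + τ ^ 2 * cr b d 0
    simp only [pex_cr0, PiLp.add_apply, PiLp.smul_apply, smul_eq_mul]; ring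
  · show cr (a + τ • b) (c + τ • d) 1 = cr a c 1 + τ * (cr a d 1 + cr b c 1) + τ ^ 2 * cr b d 1
    simp only [pex_cr1, PiLp.add_apply, PiLp.smul_apply, smul_eq_mul]; ring
  · show cr (a + τ • b) (c + τ • d) 2 = cr a c 2 + τ * (cr a d 2 + cr b c 2) + τ ^ 2 * cr b d 2
    simp only [pex_cr2, PiLp.add_apply, PiLp.smul_apply, smul_eq_mul]; ring

private theorem pex_split (x y z c : E) (τ : ℝ) : cr (x + τ • y - z) c = cr (x - z) c + τ • cr y c := by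
  have e : x + τ • y - z = (x - z) + τ • y := by abel
  rw [e]
  ext l
  rw [pex_lin, PiLp.add_apply, PiLp.smul_apply, smul_eq_mul]

private theorem pex_Vt (b w : Fin 3 → E) (τ : ℝ) (l : Fin 3) :
    Vt b w τ l = pex_V b w 0 l + τ * pex_V b w 1 l + τ ^ 2 * pex_V b w 2 l := by
  unfold Vt
  rw [pex_split, pex_split, pex_bil]
  rfl

private theorem pex_top (a b c : E) (l : Fin 3) : cr a (cr (cr a b) (cr a c)) l = 0 := by
  fin_cases l
  · show cr a (cr (cr a b) (cr a c)) 0 = 0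
    simp only [pex_cr0, pex_cr1, pex_cr2]; ring
  · show cr a (cr (cr a b) (cr a c)) 1 = 0
    simp only [pex_cr0, pex_cr1, pex_cr2]; ring
  · show cr a (cr (cr a b) (cr a c)) 2 = 0
    simp only [pex_cr0, pex_cr1, pex_cr2]; ring

private theorem pex_deg (a b c : ℝ) (i j : Fin 3) :
    (C a * X i + C b * X j + C c : MvPolynomial (Fin 3) ℝ).totalDegree ≤ 1 := by
  have h : ∀ (a : ℝ) (i : Fin 3), (C a * X i : MvPolynomial (Fin 3) ℝ).totalDegree ≤ 1 := by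
    intro a i
    refine (totalDegree_mul _ _).trans ?_
    rw [totalDegree_C, totalDegree_X, zero_add]
  refine (totalDegree_add _ _).trans (max_le ((totalDegree_add _ _).trans (max_le (h a i) (h b j))) ?_)
  rw [totalDegree_C]
  exact Nat.zero_le _

/-- the polynomial of `cr (p - u) U l - e` -/
private noncomputable def pex_P (u U : E) (e : Fin 3 → ℝ) : Fin 3 → MvPolynomial (Fin 3) ℝ :=
  ![C (U 2) * X 1 + C (-U 1) * X 2 + C (-(u 1 * U 2) + u 2 * U 1 - e 0),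
    C (U 0) * X 2 + C (-U 2) * X 0 + C (-(u 2 * U 0) + u 0 * U 2 - e 1),
    C (U 1) * X 0 + C (-U 0) * X 1 + C (-(u 0 * U 1) + u 1 * U 0 - e 2)]

private theorem pex_P_deg (u U : E) (e : Fin 3 → ℝ) (l : Fin 3) : (pex_P u U e l).totalDegree ≤ 1 := by
  fin_cases l
  · exact pex_deg _ _ _ _ _
  · exact pex_deg _ _ _ _ _
  · exact pex_deg _ _ _ _ _

private theorem pex_P_eval (u U p : E) (e : Fin 3 → ℝ) (l : Fin 3) :
    eval (fun c => p c) (pex_P u U e l) = cr (p - u) U l - e l := by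
  fin_cases l
  · show eval (fun c => p c) (C (U 2) * X 1 + C (-U 1) * X 2 + C (-(u 1 * U 2) + u 2 * U 1 - e 0)) =
      cr (p - u) U 0 - e 0
    simp only [map_add, map_mul, eval_C, eval_X, pex_cr0, PiLp.sub_apply]; ring
  · show eval (fun c => p c) (C (U 0) * X 2 + C (-U 2) * X 0 + C (-(u 2 * U 0) + u 0 * U 2 - e 1)) =
      cr (p - u) U 1 - e 1
    simp only [map_add, map_mul, eval_C, eval_X, pex_cr1, PiLp.sub_apply]; ring
  · show eval (fun c => p c) (C (U 1) * X 0 + C (-U 0) * X 1 + C (-(u 0 * U 1) + u 1 * U 0 - e 2)) =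
      cr (p - u) U 2 - e 2
    simp only [map_add, map_mul, eval_C, eval_X, pex_cr2, PiLp.sub_apply]; ring

private theorem pex_exp (z y : E) (V : Fin 3 → E) (U : E) (τ : ℝ)
    (hU : ∀ l, U l = V 0 l + τ * V 1 l + τ ^ 2 * V 2 l) (h0 : ∀ l, cr y (V 2) l = 0) (l : Fin 3) :
    cr (z - τ • y) U l = cr z (V 0) l + τ * (cr z (V 1) l - cr y (V 0) l) +
      τ ^ 2 * (cr z (V 2) l - cr y (V 1) l) := by
  have h3 := h0 l
  fin_cases l
  · replace h3 : cr y (V 2) 0 = 0 := h3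
    show cr (z - τ • y) U 0 = cr z (V 0) 0 + τ * (cr z (V 1) 0 - cr y (V 0) 0) +
      τ ^ 2 * (cr z (V 2) 0 - cr y (V 1) 0)
    simp only [pex_cr0, PiLp.sub_apply, PiLp.smul_apply, smul_eq_mul, hU] at h3 ⊢
    linear_combination (-τ ^ 3) * h3
  · replace h3 : cr y (V 2) 1 = 0 := h3
    show cr (z - τ • y) U 1 = cr z (V 0) 1 + τ * (cr z (V 1) 1 - cr y (V 0) 1) +
      τ ^ 2 * (cr z (V 2) 1 - cr y (V 1) 1)
    simp only [pex_cr1, PiLp.sub_apply, PiLp.smul_apply, smul_eq_mul, hU] at h3 ⊢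
    linear_combination (-τ ^ 3) * h3
  · replace h3 : cr y (V 2) 2 = 0 := h3
    show cr (z - τ • y) U 2 = cr z (V 0) 2 + τ * (cr z (V 1) 2 - cr y (V 0) 2) +
      τ ^ 2 * (cr z (V 2) 2 - cr y (V 1) 2)
    simp only [pex_cr2, PiLp.sub_apply, PiLp.smul_apply, smul_eq_mul, hU] at h3 ⊢
    linear_combination (-τ ^ 3) * h3

/-- `Vt τ = V0 + τ V1 + τ ^ 2 V2` with `V2 = cr (cr w0 w1) (cr w0 w2)`, a multiple of `w0`, so `cr w0 V2 = 0`. `A 0 = cr (X - b0) V0`, `A 1 = cr (X - b0) V1 - cr w0 V0`, `A 2 = cr (X - b0) V2 - cr w0 V1` (coordinates: polynomials of degree `≤ 1` in the coordinates of `p`); the coefficient of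
`τ ^ 3` is `- cr w0 V2 = 0`. Explicit coordinates and `ring`. -/
theorem pex (b w : Fin 3 → E) : ∃ A : Fin 3 → Fin 3 → MvPolynomial (Fin 3) ℝ,
    (∀ k l, (A k l).totalDegree ≤ 1) ∧ ∀ (p : E) (τ : ℝ) (l : Fin 3),
      cr (p - (b 0 + τ • w 0)) (Vt b w τ) l =
        eval (fun c => p c) (A 0 l) + τ * eval (fun c => p c) (A 1 l) + τ ^ 2 * eval (fun c => p c) (A 2 l) := by
  refine ⟨fun k => pex_P (b 0) (pex_V b w k) ((![fun _ => 0, fun l => cr (w 0) (pex_V b w 0) l,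
    fun l => cr (w 0) (pex_V b w 1) l] : Fin 3 → Fin 3 → ℝ) k), fun k l => pex_P_deg _ _ _ l, ?_⟩
  intro p τ l
  have h0 : ∀ l, cr (w 0) (pex_V b w 2) l = 0 := fun l => pex_top (w 0) (w 1) (w 2) l
  have h1 := pex_exp (p - b 0) (w 0) (pex_V b w) (Vt b w τ) τ (pex_Vt b w τ) h0 l
  have e : p - (b 0 + τ • w 0) = p - b 0 - τ • w 0 := by abel
  rw [e, h1, pex_P_eval, pex_P_eval, pex_P_eval]
  have e0 : (![fun _ => 0, fun l => cr (w 0) (pex_V b w 0) l,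
    fun l => cr (w 0) (pex_V b w 1) l] : Fin 3 → Fin 3 → ℝ) 0 l = 0 := rfl
  have e1 : (![fun _ => 0, fun l => cr (w 0) (pex_V b w 0) l,
    fun l => cr (w 0) (pex_V b w 1) l] : Fin 3 → Fin 3 → ℝ) 1 l = cr (w 0) (pex_V b w 0) l := rfl
  have e2 : (![fun _ => 0, fun l => cr (w 0) (pex_V b w 0) l,
    fun l => cr (w 0) (pex_V b w 1) l] : Fin 3 → Fin 3 → ℝ) 2 l = cr (w 0) (pex_V b w 1) l := rfl
  rw [e0, e1, e2, sub_zero]
-- END pex

-- BEGIN nex
/-- From `pex`: the squared norm is the sum over `l` of the squares; the coefficients of `τ ^ 0, .., τ ^ 4` are `∑ l, A 0 l ^ 2`, `∑ l, 2 A 0 l A 1 l`, `∑ l, (A 1 l ^ 2 + 2 A 0 l A 2 l)`, `∑ l, 2 A 1 l A 2 l`, `∑ l, A 2 l ^ 2`. -/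
theorem nex (b w : Fin 3 → E) : ∃ P : Fin 5 → MvPolynomial (Fin 3) ℝ,
    (∀ k, (P k).totalDegree ≤ 2) ∧ ∀ (p : E) (τ : ℝ),
      ‖cr (p - (b 0 + τ • w 0)) (Vt b w τ)‖ ^ 2 = ∑ k : Fin 5, τ ^ (k : ℕ) * eval (fun c => p c) (P k) := by
  obtain ⟨A, hA, h⟩ := pex b w
  have m : ∀ i j l, (A i l * A j l).totalDegree ≤ 2 := fun i j l =>
    (totalDegree_mul _ _).trans (by have h1 := hA i l; have h2 := hA j l; omega)
  have c : ∀ i j l, (C (2 : ℝ) * (A i l * A j l)).totalDegree ≤ 2 := fun i j l =>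
    (totalDegree_mul _ _).trans (by rw [totalDegree_C, zero_add]; exact m i j l)
  refine ⟨![∑ l : Fin 3, A 0 l * A 0 l, ∑ l : Fin 3, C (2 : ℝ) * (A 0 l * A 1 l),
    ∑ l : Fin 3, (A 1 l * A 1 l + C (2 : ℝ) * (A 0 l * A 2 l)), ∑ l : Fin 3, C (2 : ℝ) * (A 1 l * A 2 l),
    ∑ l : Fin 3, A 2 l * A 2 l], ?_, ?_⟩
  · intro k
    fin_cases k
    · change (∑ l : Fin 3, A 0 l * A 0 l).totalDegree ≤ 2
      exact totalDegree_finsetSum_le fun l _ => m 0 0 l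
    · change (∑ l : Fin 3, C (2 : ℝ) * (A 0 l * A 1 l)).totalDegree ≤ 2
      exact totalDegree_finsetSum_le fun l _ => c 0 1 l
    · change (∑ l : Fin 3, (A 1 l * A 1 l + C (2 : ℝ) * (A 0 l * A 2 l))).totalDegree ≤ 2
      exact totalDegree_finsetSum_le fun l _ => (totalDegree_add _ _).trans (max_le (m 1 1 l) (c 0 2 l))
    · change (∑ l : Fin 3, C (2 : ℝ) * (A 1 l * A 2 l)).totalDegree ≤ 2
      exact totalDegree_finsetSum_le fun l _ => c 1 2 l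
    · change (∑ l : Fin 3, A 2 l * A 2 l).totalDegree ≤ 2
      exact totalDegree_finsetSum_le fun l _ => m 2 2 l
  · intro p τ
    rw [EuclideanSpace.real_norm_sq_eq]
    simp only [h, Fin.sum_univ_five, Fin.sum_univ_three, Matrix.cons_val_zero, Matrix.cons_val_one, Matrix.cons_val,
      map_add, map_mul, eval_C]
    norm_num
    ring
-- END nex

-- BEGIN vex
private noncomputable def vex_V (b w : Fin 3 → E) : Fin 3 → E :=
  ![cr (cr (b 0 - b 1) (w 1)) (cr (b 0 - b 2) (w 2)),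
    cr (cr (b 0 - b 1) (w 1)) (cr (w 0) (w 2)) + cr (cr (w 0) (w 1)) (cr (b 0 - b 2) (w 2)),
    cr (cr (w 0) (w 1)) (cr (w 0) (w 2))]

private theorem vex_bil (a b c d : E) (τ : ℝ) (l : Fin 3) :
    cr (a + τ • b) (c + τ • d) l =
      cr a c l + τ * (cr a d l + cr b c l) + τ ^ 2 * cr b d l := by
  fin_cases l
  · show (a + τ • b) 1 * (c + τ • d) 2 - (a + τ • b) 2 * (c + τ • d) 1 =
      (a 1 * c 2 - a 2 * c 1) + τ * ((a 1 * d 2 - a 2 * d 1) + (b 1 * c 2 - b 2 * c 1)) + τ ^ 2 * (b 1 * d 2 - b 2 * d 1)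
    simp only [PiLp.add_apply, PiLp.smul_apply, smul_eq_mul]; ring
  · show (a + τ • b) 2 * (c + τ • d) 0 - (a + τ • b) 0 * (c + τ • d) 2 =
      (a 2 * c 0 - a 0 * c 2) + τ * ((a 2 * d 0 - a 0 * d 2) + (b 2 * c 0 - b 0 * c 2)) + τ ^ 2 * (b 2 * d 0 - b 0 * d 2)
    simp only [PiLp.add_apply, PiLp.smul_apply, smul_eq_mul]; ring
  · show (a + τ • b) 0 * (c + τ • d) 1 - (a + τ • b) 1 * (c + τ • d) 0 =
      (a 0 * c 1 - a 1 * c 0) + τ * ((a 0 * d 1 - a 1 * d 0) + (b 0 * c 1 - b 1 * c 0)) + τ ^ 2 * (b 0 * d 1 - b 1 * d 0)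
    simp only [PiLp.add_apply, PiLp.smul_apply, smul_eq_mul]; ring

private theorem vex_split (x y z c : E) (τ : ℝ) : cr (x + τ • y - z) c = cr (x - z) c + τ • cr y c := by
  ext l
  fin_cases l
  · show (x + τ • y - z) 1 * c 2 - (x + τ • y - z) 2 * c 1 = (cr (x - z) c + τ • cr y c) 0
    rw [PiLp.add_apply, PiLp.smul_apply]
    show (x + τ • y - z) 1 * c 2 - (x + τ • y - z) 2 * c 1 =
      ((x - z) 1 * c 2 - (x - z) 2 * c 1) + τ • (y 1 * c 2 - y 2 * c 1)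
    simp only [PiLp.add_apply, PiLp.sub_apply, PiLp.smul_apply, smul_eq_mul]; ring
  · show (x + τ • y - z) 2 * c 0 - (x + τ • y - z) 0 * c 2 = (cr (x - z) c + τ • cr y c) 1
    rw [PiLp.add_apply, PiLp.smul_apply]
    show (x + τ • y - z) 2 * c 0 - (x + τ • y - z) 0 * c 2 =
      ((x - z) 2 * c 0 - (x - z) 0 * c 2) + τ • (y 2 * c 0 - y 0 * c 2)
    simp only [PiLp.add_apply, PiLp.sub_apply, PiLp.smul_apply, smul_eq_mul]; ring
  · show (x + τ • y - z) 0 * c 1 - (x + τ • y - z) 1 * c 0 = (cr (x - z) c + τ • cr y c) 2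
    rw [PiLp.add_apply, PiLp.smul_apply]
    show (x + τ • y - z) 0 * c 1 - (x + τ • y - z) 1 * c 0 =
      ((x - z) 0 * c 1 - (x - z) 1 * c 0) + τ • (y 0 * c 1 - y 1 * c 0)
    simp only [PiLp.add_apply, PiLp.sub_apply, PiLp.smul_apply, smul_eq_mul]; ring

/-- `Vt` has degree 2 in `τ`, its squared norm degree 4. -/
theorem vex (b w : Fin 3 → E) : ∃ d : Fin 5 → ℝ, ∀ τ : ℝ,
    ‖Vt b w τ‖ ^ 2 = ∑ k : Fin 5, τ ^ (k : ℕ) * d k := by
  have hV : ∀ (τ : ℝ) (l : Fin 3), Vt b w τ l = vex_V b w 0 l + τ * vex_V b w 1 l + τ ^ 2 * vex_V b w 2 l := by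
    intro τ l
    unfold Vt
    rw [vex_split, vex_split, vex_bil]
    rfl
  refine ⟨![∑ l, vex_V b w 0 l ^ 2, ∑ l, 2 * vex_V b w 0 l * vex_V b w 1 l,
    ∑ l, (vex_V b w 1 l ^ 2 + 2 * vex_V b w 0 l * vex_V b w 2 l), ∑ l, 2 * vex_V b w 1 l * vex_V b w 2 l,
    ∑ l, vex_V b w 2 l ^ 2], fun τ => ?_⟩
  rw [EuclideanSpace.real_norm_sq_eq, Fin.sum_univ_five]
  show _ = τ ^ 0 * (∑ l, vex_V b w 0 l ^ 2) + τ ^ 1 * (∑ l, 2 * vex_V b w 0 l * vex_V b w 1 l) +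
    τ ^ 2 * (∑ l, (vex_V b w 1 l ^ 2 + 2 * vex_V b w 0 l * vex_V b w 2 l)) +
    τ ^ 3 * (∑ l, 2 * vex_V b w 1 l * vex_V b w 2 l) + τ ^ 4 * (∑ l, vex_V b w 2 l ^ 2)
  simp only [hV, Fin.sum_univ_three]
  ring
-- END vex

-- BEGIN vne
private theorem vne_ext {x y : E} (h0 : x 0 = y 0) (h1 : x 1 = y 1) (h2 : x 2 = y 2) : x = y := by
  ext i
  fin_cases i
  · exact h0
  · exact h1
  · exact h2

private theorem vne_skew {b c u v : E} (hw : LinearIndependent ℝ ![u, v])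
    (hd : Disjoint (line b u) (line c v)) :
    (u 1 * v 2 - u 2 * v 1) * (c 0 - b 0) + (u 2 * v 0 - u 0 * v 2) * (c 1 - b 1) +
      (u 0 * v 1 - u 1 * v 0) * (c 2 - b 2) ≠ 0 := by
  intro h
  set n0 := u 1 * v 2 - u 2 * v 1 with hn0
  set n1 := u 2 * v 0 - u 0 * v 2 with hn1
  set n2 := u 0 * v 1 - u 1 * v 0 with hn2
  have hpi := LinearIndependent.pair_iff.1 hw
  have hs : n0 ^ 2 + n1 ^ 2 + n2 ^ 2 ≠ 0 := by
    intro hs
    have e0 : n0 = 0 := pow_eq_zero_iff (two_ne_zero) |>.1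
      (by linarith [sq_nonneg n0, sq_nonneg n1, sq_nonneg n2] : n0 ^ 2 = 0)
    have e1 : n1 = 0 := pow_eq_zero_iff (two_ne_zero) |>.1
      (by linarith [sq_nonneg n0, sq_nonneg n1, sq_nonneg n2] : n1 ^ 2 = 0)
    have e2 : n2 = 0 := pow_eq_zero_iff (two_ne_zero) |>.1
      (by linarith [sq_nonneg n0, sq_nonneg n1, sq_nonneg n2] : n2 ^ 2 = 0)
    rw [hn0] at e0
    rw [hn1] at e1
    rw [hn2] at e2
    have h3 := hpi (v 0 ^ 2 + v 1 ^ 2 + v 2 ^ 2) (-(u 0 * v 0 + u 1 * v 1 + u 2 * v 2)) (by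
      refine vne_ext ?_ ?_ ?_
      · simp only [PiLp.add_apply, PiLp.smul_apply, PiLp.zero_apply, smul_eq_mul]
        linear_combination (v 1) * e2 - (v 2) * e1
      · simp only [PiLp.add_apply, PiLp.smul_apply, PiLp.zero_apply, smul_eq_mul]
        linear_combination (v 2) * e0 - (v 0) * e2
      · simp only [PiLp.add_apply, PiLp.smul_apply, PiLp.zero_apply, smul_eq_mul]
        linear_combination (v 0) * e1 - (v 1) * e0)
    have h4 : v = 0 := by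
      have h5 := h3.1
      refine vne_ext ?_ ?_ ?_
      · exact pow_eq_zero_iff (two_ne_zero) |>.1
          (by linarith [sq_nonneg (v 0), sq_nonneg (v 1), sq_nonneg (v 2)] : (v 0) ^ 2 = 0)
      · exact pow_eq_zero_iff (two_ne_zero) |>.1
          (by linarith [sq_nonneg (v 0), sq_nonneg (v 1), sq_nonneg (v 2)] : (v 1) ^ 2 = 0)
      · exact pow_eq_zero_iff (two_ne_zero) |>.1
          (by linarith [sq_nonneg (v 0), sq_nonneg (v 1), sq_nonneg (v 2)] : (v 2) ^ 2 = 0)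
    have h6 := (hpi 0 1 (by rw [h4]; simp)).2
    exact one_ne_zero h6
  set α := ((c 0 - b 0) * u 0 + (c 1 - b 1) * u 1 + (c 2 - b 2) * u 2) *
      (v 0 ^ 2 + v 1 ^ 2 + v 2 ^ 2) - ((c 0 - b 0) * v 0 + (c 1 - b 1) * v 1 + (c 2 - b 2) * v 2) *
      (u 0 * v 0 + u 1 * v 1 + u 2 * v 2) with hα
  set β := ((c 0 - b 0) * v 0 + (c 1 - b 1) * v 1 + (c 2 - b 2) * v 2) *
      (u 0 ^ 2 + u 1 ^ 2 + u 2 ^ 2) - ((c 0 - b 0) * u 0 + (c 1 - b 1) * u 1 + (c 2 - b 2) * u 2) *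
      (u 0 * v 0 + u 1 * v 1 + u 2 * v 2) with hβ
  refine Set.disjoint_left.1 hd (show b + (α / (n0 ^ 2 + n1 ^ 2 + n2 ^ 2)) • u ∈ line b u from
    ⟨_, rfl⟩) ⟨-(β / (n0 ^ 2 + n1 ^ 2 + n2 ^ 2)), ?_⟩
  have e : ∀ i, (n0 ^ 2 + n1 ^ 2 + n2 ^ 2) * (c i - b i) = α * u i + β * v i →
      (b + (α / (n0 ^ 2 + n1 ^ 2 + n2 ^ 2)) • u) i =
        (c + (-(β / (n0 ^ 2 + n1 ^ 2 + n2 ^ 2))) • v) i := by
    intro i hi
    simp only [PiLp.add_apply, PiLp.smul_apply, smul_eq_mul]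
    have : c i - b i = α / (n0 ^ 2 + n1 ^ 2 + n2 ^ 2) * u i +
        β / (n0 ^ 2 + n1 ^ 2 + n2 ^ 2) * v i := by
      field_simp
      linear_combination hi
    linear_combination -this
  refine vne_ext (e 0 ?_) (e 1 ?_) (e 2 ?_)
  · rw [hα, hβ]
    linear_combination n0 * h
  · rw [hα, hβ]
    linear_combination n1 * h
  · rw [hα, hβ]
    linear_combination n2 * h

/-- `x = b 0 + τ • w 0` is not on the lines 1 and 2, so `n1 = cr (x - b 1) (w 1) ≠ 0` and `n2 = cr (x - b 2) (w 2) ≠ 0` (`w 1`, `w 2` are not zero). If `cr n1 n2 = 0` then `n2 = μ n1`: the lines 1 and 2 are both in the plane through `x` orthogonal to `n1`, and their directions are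
independent, so they meet (solve `b 1 + s • w 1 = b 2 + t • w 2` in the plane): contradiction to `h12`. -/
theorem vne (b w : Fin 3 → E) (h01 : Disjoint (line (b 0) (w 0)) (line (b 1) (w 1)))
    (h02 : Disjoint (line (b 0) (w 0)) (line (b 2) (w 2))) (h12 : Disjoint (line (b 1) (w 1)) (line (b 2) (w 2)))
    (hw : LinearIndependent ℝ ![w 1, w 2]) (τ : ℝ) : Vt b w τ ≠ 0 := by
  intro hV
  have hsk := vne_skew hw h12
  have hp : ∀ κ : ℝ, b 0 + τ • w 0 - b 1 ≠ κ • w 1 := by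
    intro κ h
    refine Set.disjoint_left.1 h01 (show b 0 + τ • w 0 ∈ line (b 0) (w 0) from ⟨τ, rfl⟩) ⟨κ, ?_⟩
    rw [← h]
    abel
  have hq : ∀ κ : ℝ, b 0 + τ • w 0 - b 2 ≠ κ • w 2 := by
    intro κ h
    refine Set.disjoint_left.1 h02 (show b 0 + τ • w 0 ∈ line (b 0) (w 0) from ⟨τ, rfl⟩) ⟨κ, ?_⟩
    rw [← h]
    abel
  unfold Vt at hV
  have hd : ∀ i, (b 2) i - (b 1) i = (b 0 + τ • w 0 - b 1) i - (b 0 + τ • w 0 - b 2) i := by
    intro i
    simp only [PiLp.add_apply, PiLp.sub_apply]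
    ring
  rw [hd 0, hd 1, hd 2] at hsk
  generalize b 0 + τ • w 0 - b 1 = p at hp hV hsk
  generalize b 0 + τ • w 0 - b 2 = q at hq hV hsk
  generalize w 1 = u at hp hV hsk
  generalize w 2 = v at hq hV hsk
  have c0 := congrArg (fun y : E => y 0) hV
  have c1 := congrArg (fun y : E => y 1) hV
  have c2 := congrArg (fun y : E => y 2) hV
  simp only [cr, PiLp.zero_apply, Matrix.cons_val_zero, Matrix.cons_val_one, Matrix.cons_val] at c0 c1 c2
  have hT1 : (p 1 * u 2 - p 2 * u 1) * v 0 + (p 2 * u 0 - p 0 * u 2) * v 1 +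
      (p 0 * u 1 - p 1 * u 0) * v 2 = 0 := by
    by_contra hT
    set T := (p 1 * u 2 - p 2 * u 1) * v 0 + (p 2 * u 0 - p 0 * u 2) * v 1 +
      (p 0 * u 1 - p 1 * u 0) * v 2 with hTd
    refine hq (((p 1 * u 2 - p 2 * u 1) * q 0 + (p 2 * u 0 - p 0 * u 2) * q 1 +
      (p 0 * u 1 - p 1 * u 0) * q 2) / T) (vne_ext ?_ ?_ ?_)
    · simp only [PiLp.smul_apply, smul_eq_mul]
      field_simp
      rw [hTd]
      linear_combination c0
    · simp only [PiLp.smul_apply, smul_eq_mul]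
      field_simp
      rw [hTd]
      linear_combination c1
    · simp only [PiLp.smul_apply, smul_eq_mul]
      field_simp
      rw [hTd]
      linear_combination c2
  have hT3 : (q 1 * v 2 - q 2 * v 1) * u 0 + (q 2 * v 0 - q 0 * v 2) * u 1 +
      (q 0 * v 1 - q 1 * v 0) * u 2 = 0 := by
    by_contra hT
    set T := (q 1 * v 2 - q 2 * v 1) * u 0 + (q 2 * v 0 - q 0 * v 2) * u 1 +
      (q 0 * v 1 - q 1 * v 0) * u 2 with hTd
    refine hp (((q 1 * v 2 - q 2 * v 1) * p 0 + (q 2 * v 0 - q 0 * v 2) * p 1 +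
      (q 0 * v 1 - q 1 * v 0) * p 2) / T) (vne_ext ?_ ?_ ?_)
    · simp only [PiLp.smul_apply, smul_eq_mul]
      field_simp
      rw [hTd]
      linear_combination -c0
    · simp only [PiLp.smul_apply, smul_eq_mul]
      field_simp
      rw [hTd]
      linear_combination -c1
    · simp only [PiLp.smul_apply, smul_eq_mul]
      field_simp
      rw [hTd]
      linear_combination -c2
  apply hsk
  linear_combination hT1 + hT3
-- END vne

-- BEGIN par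
private theorem par_cr (v x y : E) (s t κ l : ℝ) :
    cr (cr (s • x + κ • v) x) (cr (t • y + l • v) y) =
      (κ * l * (v 0 * (x 1 * y 2 - x 2 * y 1) + v 1 * (x 2 * y 0 - x 0 * y 2) + v 2 * (x 0 * y 1 - x 1 * y 0))) • v := by
  ext i
  fin_cases i <;>
  · simp [cr]
    ring

/-- `x = b 0 + τ • w 0`. A point `y = b 1 + s • w 1` of the line `a, v` is different from `x` (`h01`), so `y - x = κ • v` with `κ ≠ 0`, and `inner (cr (x - b 1) (w 1)) (y - x) = 0`; so `v` is orthogonal to `n1 = cr (x - b 1) (w 1)`, in the same way to `n2 = cr (x - b 2) (w 2)`.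
As `cr n1 n2 ≠ 0` (`hV`), `v` is a multiple of `cr n1 n2` (`cr v (cr n1 n2) = inner v n2 • n1 - inner v n1 • n2 = 0`). -/
theorem par (b w : Fin 3 → E) (h01 : Disjoint (line (b 0) (w 0)) (line (b 1) (w 1)))
    (h02 : Disjoint (line (b 0) (w 0)) (line (b 2) (w 2))) {τ : ℝ} (hV : Vt b w τ ≠ 0) {a v : E}
    (h0 : b 0 + τ • w 0 ∈ line a v) (h1 : ¬ Disjoint (line a v) (line (b 1) (w 1)))
    (h2 : ¬ Disjoint (line a v) (line (b 2) (w 2))) : ∃ μ : ℝ, v = μ • Vt b w τ := by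
  obtain ⟨t0, h0⟩ := h0
  rw [Set.not_disjoint_iff] at h1 h2
  obtain ⟨y1, ⟨t1, hy1⟩, ⟨s1, hy1'⟩⟩ := h1
  obtain ⟨y2, ⟨t2, hy2⟩, ⟨s2, hy2'⟩⟩ := h2
  have e1 : b 0 + τ • w 0 - b 1 = s1 • w 1 + (t0 - t1) • v := by
    have : b 1 + s1 • w 1 = a + t1 • v := by rw [← hy1', hy1]
    rw [h0, sub_smul, sub_eq_iff_eq_add]
    have e : s1 • w 1 + (t0 • v - t1 • v) + b 1 = (b 1 + s1 • w 1) + (t0 • v - t1 • v) := by abel
    rw [e, this]
    abel
  have e2 : b 0 + τ • w 0 - b 2 = s2 • w 2 + (t0 - t2) • v := by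
    have : b 2 + s2 • w 2 = a + t2 • v := by rw [← hy2', hy2]
    rw [h0, sub_smul, sub_eq_iff_eq_add]
    have e : s2 • w 2 + (t0 • v - t2 • v) + b 2 = (b 2 + s2 • w 2) + (t0 • v - t2 • v) := by abel
    rw [e, this]
    abel
  have e3 : Vt b w τ = ((t0 - t1) * (t0 - t2) * (v 0 * (w 1 1 * w 2 2 - w 1 2 * w 2 1) +
      v 1 * (w 1 2 * w 2 0 - w 1 0 * w 2 2) + v 2 * (w 1 0 * w 2 1 - w 1 1 * w 2 0))) • v := by
    rw [Vt, e1, e2, par_cr]
  have hc : ((t0 - t1) * (t0 - t2) * (v 0 * (w 1 1 * w 2 2 - w 1 2 * w 2 1) +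
      v 1 * (w 1 2 * w 2 0 - w 1 0 * w 2 2) + v 2 * (w 1 0 * w 2 1 - w 1 1 * w 2 0))) ≠ 0 := by
    intro h
    rw [h, zero_smul] at e3
    exact hV e3
  refine ⟨((t0 - t1) * (t0 - t2) * (v 0 * (w 1 1 * w 2 2 - w 1 2 * w 2 1) +
      v 1 * (w 1 2 * w 2 0 - w 1 0 * w 2 2) + v 2 * (w 1 0 * w 2 1 - w 1 1 * w 2 0)))⁻¹, ?_⟩
  rw [e3, smul_smul, inv_mul_cancel₀ hc, one_smul]
-- END par

-- BEGIN dcr
private theorem dcr_lag (z V : E) : ‖cr z V‖ ^ 2 = ‖z‖ ^ 2 * ‖V‖ ^ 2 - (inner ℝ V z) ^ 2 := by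
  simp only [EuclideanSpace.norm_sq_eq, Fin.sum_univ_three, PiLp.inner_apply, Real.norm_eq_abs, sq_abs]
  simp [cr]
  ring

private theorem dcr_dv (V z : E) (hV : V ≠ 0) : Vrd.dv V z ^ 2 = ‖cr z V‖ ^ 2 / ‖V‖ ^ 2 := by
  have hn : ‖V‖ ≠ 0 := norm_ne_zero_iff.2 hV
  rw [dcr_lag]
  unfold Vrd.dv dl
  have h1 : inner ℝ (‖V‖⁻¹ • V) z = ‖V‖⁻¹ * inner ℝ V z := by
    rw [real_inner_smul_left]
  rw [@norm_sub_sq_real, real_inner_smul_right, norm_smul, norm_smul, norm_inv, norm_norm,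
    inv_mul_cancel₀ hn, mul_one, real_inner_comm (‖V‖⁻¹ • V) z, h1, Real.norm_eq_abs, sq_abs]
  field_simp
  ring

/-- `Vrd.infDist_dv` for the line `line x V` (which is `line a v`: same point `x`, `v = μ • V`, `μ ≠ 0`): `‖z‖ ^ 2 - ⟪V, z⟫ ^ 2 / ‖V‖ ^ 2 = ‖cr z V‖ ^ 2 / ‖V‖ ^ 2` with `z = p - x` (Lagrange's identity). -/
theorem dcr {a v x V : E} (hx : x ∈ line a v) {μ : ℝ} (hv : v = μ • V) (hv0 : v ≠ 0) (p : E) :
    Metric.infDist p (line a v) ^ 2 = ‖cr (p - x) V‖ ^ 2 / ‖V‖ ^ 2 := by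
  have hμ : μ ≠ 0 := by
    rintro rfl
    exact hv0 (by rw [hv, zero_smul])
  have hV : V ≠ 0 := by
    rintro rfl
    exact hv0 (by rw [hv, smul_zero])
  obtain ⟨t, ht⟩ := hx
  have h1 : line a v = line x V := by
    ext y
    constructor
    · rintro ⟨s, hs⟩
      refine ⟨(s - t) * μ, ?_⟩
      rw [hs, ht, hv, mul_smul, sub_smul]
      abel
    · rintro ⟨s, hs⟩
      refine ⟨t + s * μ⁻¹, ?_⟩
      have h2 : V = μ⁻¹ • v := by
        rw [hv, smul_smul, inv_mul_cancel₀ hμ, one_smul]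
      rw [hs, ht, add_smul, mul_smul, ← h2]
      abel
  rw [h1, Vrd.infDist_dv, dcr_dv V _ hV]
-- END dcr

end Pool.Agent.Vcp
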