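import Pool.Agent.Vcp.Gen
import Pool.Agent.Vcp.Geo
import Pool.Agent.Vcp.Reg

/-!
# Two families of lines whose squared distances span a space of dimension at most five
-/

set_option autoImplicit false

namespace Pool.Agent.Vcp

open Set MvPolynomial Vor Vrl

-- BEGIN fma
/-- `crd`: the squared distance is `(x ^ 2 + |ζ| ^ 2 / 2) * 1 + 1 * t ^ 2 + x * (- 2 t) + re (ζ ^ 2) * (- re κ) + im (ζ ^ 2) * im κ` with `x = (φ p).1`, `ζ = (φ p).2`; `gfi`. For general `w ≠ 0`: `t i • w = (t i * ‖w‖) • (‖w‖⁻¹ • w)`. -/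
theorem fma {n : ℕ} (b : E) {w : E} (hw : w ≠ 0) (t : Fin n → ℝ) (v : Fin n → E)
    (hv : ∀ i, v i ≠ 0 ∧ inner ℝ (v i) w = 0) :
    Module.finrank ℝ (Submodule.span ℝ (Set.range fun i => sqd (b + t i • w) (v i))) ≤ 5 := by
  have hw0 : ‖w‖ ≠ 0 := norm_ne_zero_iff.2 hw
  have hw1 : ‖(‖w‖⁻¹ • w : E)‖ = 1 := by
    rw [norm_smul, norm_inv, norm_norm, inv_mul_cancel₀ hw0]
  obtain ⟨φ, hφ⟩ := crd b (‖w‖⁻¹ • w) hw1
  have hex : ∀ i, ∃ κ : ℂ, ∀ (s : ℝ) (p : E), Metric.infDist p (line (b + s • (‖w‖⁻¹ • w)) (v i)) ^ 2 =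
      (φ p).1 ^ 2 + ‖(φ p).2‖ ^ 2 / 2 + (s ^ 2 - 2 * s * (φ p).1 - ((φ p).2 ^ 2 * κ).re) := fun i =>
    hφ (v i) (hv i).1 (by rw [real_inner_smul_right, (hv i).2, mul_zero])
  choose κ hκ using hex
  refine gfi _ (fun k p => (![(φ p).1 ^ 2 + ‖(φ p).2‖ ^ 2 / 2, 1, (φ p).1, ((φ p).2 ^ 2).re, ((φ p).2 ^ 2).im] : Fin 5 → ℝ) k)
    (fun i => ![1, (t i * ‖w‖) ^ 2, -2 * (t i * ‖w‖), -(κ i).re, (κ i).im]) ?_
  intro i p
  have h1 : t i • w = (t i * ‖w‖) • (‖w‖⁻¹ • w) := by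
    rw [smul_smul, mul_assoc, mul_inv_cancel₀ hw0, mul_one]
  show Metric.infDist p (line (b + t i • w) (v i)) ^ 2 = _
  rw [h1, hκ i, Complex.mul_re]
  simp only [Fin.sum_univ_succ, Finset.univ_eq_empty, Finset.sum_empty, Matrix.cons_val_zero, Matrix.cons_val_succ]
  ring
-- END fma

-- BEGIN fmb
/-- As the proof of `reg` (row reg of Reg.lean): `dcr`, `nex`: the squared distance to the line through `b 0 + τ • w 0` is `∑ k, ((‖Vt b w τ‖ ^ 2)⁻¹ * τ ^ k) * eval p (P k)`; `gfi`. -/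
theorem fmb {n : ℕ} (b w : Fin 3 → E)
    (hb : ∀ k l, k ≠ l → Disjoint (line (b k) (w k)) (line (b l) (w l)))
    (hw : ∀ k l, k ≠ l → LinearIndependent ℝ ![w k, w l]) (v a : Fin n → E) (hv : ∀ i, v i ≠ 0)
    (hm : ∀ i k, ¬ Disjoint (line (a i) (v i)) (line (b k) (w k))) :
    Module.finrank ℝ (Submodule.span ℝ (Set.range fun i => sqd (a i) (v i))) ≤ 5 := by
  have h01 := hb 0 1 (by decide)
  have h02 := hb 0 2 (by decide)
  have h12 := hb 1 2 (by decide)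
  have hw12 := hw 1 2 (by decide)
  have hτ : ∀ i, ∃ τ : ℝ, b 0 + τ • w 0 ∈ line (a i) (v i) := by
    intro i
    obtain ⟨y, hy1, τ, hy2⟩ := Set.not_disjoint_iff.1 (hm i 0)
    exact ⟨τ, hy2 ▸ hy1⟩
  choose τ hτ using hτ
  have hV : ∀ i, Vt b w (τ i) ≠ 0 := fun i => vne b w h01 h02 h12 hw12 (τ i)
  have hμ := fun i => par b w h01 h02 (hV i) (hτ i) (hm i 1) (hm i 2)
  choose μ hμ using hμ
  obtain ⟨P, _, hP2⟩ := nex b w
  refine gfi _ (fun k p => eval (fun l => p l) (P k)) (fun i k => (‖Vt b w (τ i)‖ ^ 2)⁻¹ * τ i ^ (k : ℕ)) ?_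
  intro i p
  show Metric.infDist p (line (a i) (v i)) ^ 2 = _
  rw [dcr (hτ i) (hμ i) (hv i) p, hP2, div_eq_inv_mul, Finset.mul_sum]
  exact Finset.sum_congr rfl fun k _ => by ring
-- END fmb

end Pool.Agent.Vcp
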