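import Mathlib

/-!
# The double cover
-/

set_option autoImplicit false

namespace Pool.Agent.Vcp

/-- the affine function which belongs to the line with parameters `t`, `κ` -/
def Lf (t : ℝ) (κ : ℂ) (q : ℝ × ℂ) : ℝ := t ^ 2 - 2 * t * q.1 - (q.2 * κ).re

/-- the set of the minimal functions -/
def Mn {n : ℕ} (t : Fin n → ℝ) (κ : Fin n → ℂ) (q : ℝ × ℂ) : Set (Fin n) :=
  {i | ∀ j, Lf (t i) (κ i) q ≤ Lf (t j) (κ j) q}

-- BEGIN cov1
/-- First case: `K` contains a point `(x0, 0)`. Every `(x, ζ)` in the preimage is joined to `(x0, 0)` inside the preimage by `s ↦ ((1 - s) x + s x0, √(1 - s) ζ)`, `s ∈ [0, 1]`: the image in `K` is the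
point `(1 - s) (x, ζ ^ 2) + s (x0, 0)`. So the preimage is (path) connected. -/
theorem cov1 {K : Set (ℝ × ℂ)} (hK : Convex ℝ K) {x0 : ℝ} (h0 : (x0, (0 : ℂ)) ∈ K) :
    IsPreconnected {q : ℝ × ℂ | (q.1, q.2 ^ 2) ∈ K} := by
  apply isPreconnected_of_forall (x0, (0 : ℂ))
  rintro ⟨x, ζ⟩ hq
  have hq' : (x, ζ ^ 2) ∈ K := hq
  let γ : ℝ → ℝ × ℂ := fun s => ((1 - s) * x + s * x0, ((Real.sqrt (1 - s) : ℝ) : ℂ) * ζ)
  have hγ : Continuous γ := by
    refine Continuous.prodMk (by fun_prop) ?_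
    exact (Complex.continuous_ofReal.comp (Real.continuous_sqrt.comp (by fun_prop))).mul continuous_const
  refine ⟨γ '' Set.Icc 0 1, ?_, ⟨1, ⟨zero_le_one, le_refl 1⟩, ?_⟩, ⟨0, ⟨le_refl 0, zero_le_one⟩, ?_⟩,
    isPreconnected_Icc.image _ hγ.continuousOn⟩
  · rintro _ ⟨s, hs, rfl⟩
    have hs1 : 0 ≤ 1 - s := by linarith [hs.2]
    have h1 : ((Real.sqrt (1 - s) : ℝ) : ℂ) ^ 2 = ((1 - s : ℝ) : ℂ) := by
      rw [← Complex.ofReal_pow, Real.sq_sqrt hs1]
    have h2 := hK hq' h0 hs1 hs.1 (by ring)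
    show ((1 - s) * x + s * x0, (((Real.sqrt (1 - s) : ℝ) : ℂ) * ζ) ^ 2) ∈ K
    rw [mul_pow, h1]
    have h3 : ((1 - s) * x + s * x0, ((1 - s : ℝ) : ℂ) * ζ ^ 2) =
        (1 - s) • (x, ζ ^ 2) + s • (x0, (0 : ℂ)) := by
      refine Prod.ext ?_ ?_
      · simp [smul_eq_mul]
      · simp
    rw [h3]
    exact h2
  · simp [γ]
  · simp [γ]
-- END cov1

-- BEGIN hlf
/-- A convex set `A` of complex numbers which does not contain `0` lies, after a rotation, in the slit plane. (Mathlib: `geometric_hahn_banach` needs open sets or compactness; here: if `A` is empty trivial; otherwise take the closed convex cone or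
the following: `A` convex, `0 ∉ A`, finite dimension: there is `u ≠ 0` with `0 ≤ re (conj u * a)` for all `a ∈ A` (`Convex.exists_nonneg..`, or apply `geometric_hahn_banach_point_open`-type theorems to `interior A` if it is not empty, whose closure contains `A`; if the interior is empty
`A` lies in a line). With `v = conj u / |u|`: `0 ≤ re (v a)`. If `re (v a) = 0` then `im (v a) ≠ 0`. So `v a` is in `Complex.slitPlane`.) -/
theorem hlf {A : Set ℂ} (hA : Convex ℝ A) (h0 : (0 : ℂ) ∉ A) :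
    ∃ v : ℂ, v ≠ 0 ∧ ∀ a ∈ A, v * a ∈ Complex.slitPlane := by
  by_cases h : ∃ s : ℝ, 0 < s ∧ (s : ℂ) ∈ A
  · obtain ⟨s, hs, hsA⟩ := h
    refine ⟨1, one_ne_zero, fun a ha => ?_⟩
    rw [one_mul, Complex.mem_slitPlane_iff]
    by_contra hc
    rw [not_or, not_lt, not_not] at hc
    obtain ⟨h1, h2⟩ := hc
    apply h0
    have h3 : 0 < s - a.re := by linarith
    have h4 := hA hsA ha (a := -a.re / (s - a.re)) (b := s / (s - a.re))
      (div_nonneg (by linarith) h3.le) (div_nonneg hs.le h3.le) (by field_simp; ring)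
    have h5 : (-a.re / (s - a.re)) • (s : ℂ) + (s / (s - a.re)) • a = 0 := by
      apply Complex.ext
      · simp only [Complex.add_re, Complex.real_smul, Complex.mul_re, Complex.ofReal_re, Complex.ofReal_im, Complex.zero_re]
        field_simp
        ring
      · simp only [Complex.add_im, Complex.real_smul, Complex.mul_im, Complex.ofReal_re, Complex.ofReal_im, Complex.zero_im, h2]
        ring
    rwa [h5] at h4
  · refine ⟨-1, neg_ne_zero.2 one_ne_zero, fun a ha => ?_⟩
    rw [neg_one_mul, Complex.mem_slitPlane_iff]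
    by_contra hc
    rw [not_or, not_lt, not_not, Complex.neg_re, Complex.neg_im, neg_eq_zero] at hc
    obtain ⟨h1, h2⟩ := hc
    have h3 : ((a.re : ℝ) : ℂ) = a := by
      apply Complex.ext
      · rw [Complex.ofReal_re]
      · rw [Complex.ofReal_im, h2]
    rcases lt_or_eq_of_le (show 0 ≤ a.re by linarith) with h4 | h4
    · exact h ⟨a.re, h4, by rw [h3]; exact ha⟩
    · apply h0
      rw [← h3, ← h4, Complex.ofReal_zero] at ha
      exact ha
-- END hlf

-- BEGIN cvx
theorem cvx_comb (t : ℝ) (κ : ℂ) (q q' : ℝ × ℂ) (a b : ℝ) (hab : a + b = 1) :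
    Lf t κ (a • q + b • q') = a * Lf t κ q + b * Lf t κ q' := by
  have hb : b = 1 - a := by linarith
  subst hb
  simp only [Lf, Prod.fst_add, Prod.snd_add, Prod.smul_fst, Prod.smul_snd, smul_eq_mul, Complex.mul_re,
    Complex.add_re, Complex.add_im, Complex.smul_re, Complex.smul_im]
  ring

/-- The functions `Lf` are affine in `q`. If `Mn t κ q = Mn t κ q' = S` then at a convex combination the elements of `S` are minimal, and for `k ∉ S` and `s ∈ S` (`S` is not empty, `0 < n`) the strict inequality holds at both ends, so in between. -/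
theorem cvx {n : ℕ} (hn : 0 < n) (t : Fin n → ℝ) (κ : Fin n → ℂ) (S : Set (Fin n)) :
    Convex ℝ {q : ℝ × ℂ | Mn t κ q = S} := by
  intro q hq q' hq' a b ha hb hab
  rw [Set.mem_setOf_eq] at hq hq' ⊢
  have hne : Nonempty (Fin n) := ⟨⟨0, hn⟩⟩
  obtain ⟨s, hs⟩ : ∃ s, s ∈ Mn t κ q := by
    obtain ⟨s, hs⟩ := Finite.exists_min (fun i : Fin n => Lf (t i) (κ i) q)
    exact ⟨s, hs⟩
  have hsS : s ∈ S := hq ▸ hs
  have hs' : s ∈ Mn t κ q' := hq'.symm ▸ hsS
  ext i
  constructor
  · intro hi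
    by_contra hiS
    have h1 : ¬ i ∈ Mn t κ q := fun h => hiS (hq ▸ h)
    have h2 : ¬ i ∈ Mn t κ q' := fun h => hiS (hq' ▸ h)
    have h3 : Lf (t s) (κ s) q < Lf (t i) (κ i) q := by
      by_contra hcon
      exact h1 fun j => (not_lt.1 hcon).trans (hs j)
    have h4 : Lf (t s) (κ s) q' < Lf (t i) (κ i) q' := by
      by_contra hcon
      exact h2 fun j => (not_lt.1 hcon).trans (hs' j)
    have h5 := hi s
    rw [cvx_comb _ _ _ _ _ _ hab, cvx_comb _ _ _ _ _ _ hab] at h5
    rcases ha.eq_or_lt with h0 | h0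
    · have hb1 : b = 1 := by linarith
      rw [← h0, hb1] at h5
      linarith
    · have h6 := mul_lt_mul_of_pos_left h3 h0
      have h7 := mul_le_mul_of_nonneg_left h4.le hb
      linarith
  · intro hi j
    have h1 : i ∈ Mn t κ q := hq.symm ▸ hi
    have h2 : i ∈ Mn t κ q' := hq'.symm ▸ hi
    rw [cvx_comb _ _ _ _ _ _ hab, cvx_comb _ _ _ _ _ _ hab]
    have h6 := mul_le_mul_of_nonneg_left (h1 j) ha
    have h7 := mul_le_mul_of_nonneg_left (h2 j) hb
    linarith
-- END cvx

end Pool.Agent.Vcp
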