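import Pool.Agent.Vcp.Cov
import Pool.Agent.Vcp.Geo

/-!
# The exact number of faces for the rulings of `z = x y`
-/

set_option autoImplicit false

namespace Pool.Agent.Vcp

open Vor

-- BEGIN cov3
private theorem cov3_re {z : ℂ} (hz : z ∈ Complex.slitPlane) : 0 < (Complex.exp (Complex.log z / 2)).re := by
  rw [Complex.exp_re]
  refine mul_pos (Real.exp_pos _) (Real.cos_pos_of_mem_Ioo ?_)
  have h1 : (Complex.log z / 2).im = z.arg / 2 := by
    rw [show Complex.log z / 2 = Complex.log z / ((2 : ℝ) : ℂ) by norm_num, Complex.div_ofReal_im,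
      Complex.log_im]
  rw [h1]
  have h2 := Complex.neg_pi_lt_arg z
  have h3 := (Complex.mem_slitPlane_iff_arg.1 hz).1
  have h4 := lt_of_le_of_ne (Complex.arg_le_pi z) h3
  exact ⟨by linarith, by linarith⟩

private theorem cov3_sq {z : ℂ} (hz : z ∈ Complex.slitPlane) : Complex.exp (Complex.log z / 2) ^ 2 = z := by
  rw [← Complex.exp_nat_mul]
  have h1 : ((2 : ℕ) : ℂ) * (Complex.log z / 2) = Complex.log z := by
    push_cast
    ring
  rw [h1, Complex.exp_log (Complex.slitPlane_ne_zero hz)]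

/-- `hlf` for the projection of `K` to `ℂ` gives `v`; `w` a square root of `v` (`w ^ 2 = v`, `w ≠ 0`). `ρ b = Complex.exp (Complex.log (v * b) / 2) / w` is continuous on the projection (`v * b` in the slit plane), `ρ b ^ 2 = b` and `0 < re (w * ρ b)` (the argument of
`exp (log (v b) / 2)` is in `(-π/2, π/2)`). If `ζ ^ 2 = b` then `ζ = ρ b` or `ζ = - ρ b`. So the first set is the image of `K` (convex, preconnected) under `(x, b) ↦ (x, ρ b)`, the second under `(x, b) ↦ (x, - ρ b)`. -/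
theorem cov3 {K : Set (ℝ × ℂ)} (hK : Convex ℝ K) (hne : K.Nonempty) (h0 : ∀ x : ℝ, (x, (0 : ℂ)) ∉ K) :
    ∃ w : ℂ, (∀ q : ℝ × ℂ, (q.1, q.2 ^ 2) ∈ K → (w * q.2).re ≠ 0) ∧
      IsPreconnected {q : ℝ × ℂ | (q.1, q.2 ^ 2) ∈ K ∧ 0 < (w * q.2).re} ∧
      IsPreconnected {q : ℝ × ℂ | (q.1, q.2 ^ 2) ∈ K ∧ (w * q.2).re < 0} ∧
      (∃ q : ℝ × ℂ, (q.1, q.2 ^ 2) ∈ K ∧ 0 < (w * q.2).re) ∧
      ∃ q : ℝ × ℂ, (q.1, q.2 ^ 2) ∈ K ∧ (w * q.2).re < 0 := by
  obtain ⟨v, hv0, hv⟩ := hlf (A := Prod.snd '' K) (hK.linear_image (LinearMap.snd ℝ ℝ ℂ)) (by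
    rintro ⟨⟨x, b⟩, hb, hb0⟩
    have hb1 : b = 0 := hb0
    rw [hb1] at hb
    exact h0 x hb)
  obtain ⟨w, hw⟩ := IsAlgClosed.exists_pow_nat_eq v (n := 2) two_pos
  have hw0 : w ≠ 0 := by
    rintro rfl
    apply hv0
    rw [← hw]
    norm_num
  have hvK : ∀ x b, (x, b) ∈ K → v * b ∈ Complex.slitPlane := fun x b h => hv b ⟨(x, b), h, rfl⟩
  have hwr : ∀ b, w * (Complex.exp (Complex.log (v * b) / 2) / w) = Complex.exp (Complex.log (v * b) / 2) :=
    fun b => mul_div_cancel₀ _ hw0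
  have hr2 : ∀ b, v * b ∈ Complex.slitPlane → (Complex.exp (Complex.log (v * b) / 2) / w) ^ 2 = b := by
    intro b hb
    rw [div_pow, cov3_sq hb, hw]
    exact mul_div_cancel_left₀ b hv0
  have hpos : {q : ℝ × ℂ | (q.1, q.2 ^ 2) ∈ K ∧ 0 < (w * q.2).re} =
      (fun q : ℝ × ℂ => ((q.1, Complex.exp (Complex.log (v * q.2) / 2) / w) : ℝ × ℂ)) '' K := by
    ext ⟨x, ζ⟩
    constructor
    · rintro ⟨h1, h2⟩
      refine ⟨(x, ζ ^ 2), h1, ?_⟩
      have h3 := hvK x (ζ ^ 2) h1
      have h4 : (w * ζ) ^ 2 = Complex.exp (Complex.log (v * ζ ^ 2) / 2) ^ 2 := by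
        rw [cov3_sq h3, mul_pow, hw]
      have h5 := cov3_re h3
      rcases sq_eq_sq_iff_eq_or_eq_neg.1 h4 with h6 | h6
      · have h7 : Complex.exp (Complex.log (v * ζ ^ 2) / 2) / w = ζ := by
          rw [← h6]
          exact mul_div_cancel_left₀ ζ hw0
        exact Prod.ext rfl h7
      · exfalso
        have h7 : (w * ζ).re = - (Complex.exp (Complex.log (v * ζ ^ 2) / 2)).re := by
          rw [h6, Complex.neg_re]
        have h8 : 0 < (w * ζ).re := h2
        linarith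
    · rintro ⟨⟨y, b⟩, h1, h2⟩
      have h3 := hvK y b h1
      have h4 : x = y ∧ ζ = Complex.exp (Complex.log (v * b) / 2) / w :=
        ⟨(congrArg Prod.fst h2).symm, (congrArg Prod.snd h2).symm⟩
      obtain ⟨rfl, rfl⟩ := h4
      refine ⟨?_, ?_⟩
      · change (x, (Complex.exp (Complex.log (v * b) / 2) / w) ^ 2) ∈ K
        rw [hr2 b h3]
        exact h1
      · change 0 < (w * (Complex.exp (Complex.log (v * b) / 2) / w)).re
        rw [hwr]
        exact cov3_re h3
  have hpre : IsPreconnected {q : ℝ × ℂ | (q.1, q.2 ^ 2) ∈ K ∧ 0 < (w * q.2).re} := by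
    rw [hpos]
    refine hK.isPreconnected.image _ (ContinuousOn.prodMk continuous_fst.continuousOn ?_)
    refine ContinuousOn.div_const (ContinuousOn.cexp (ContinuousOn.div_const ?_ 2)) w
    exact ContinuousOn.clog (continuousOn_const.mul continuous_snd.continuousOn)
      fun q hq => hvK q.1 q.2 hq
  have hneg : {q : ℝ × ℂ | (q.1, q.2 ^ 2) ∈ K ∧ (w * q.2).re < 0} =
      (fun q : ℝ × ℂ => ((q.1, - q.2) : ℝ × ℂ)) '' {q : ℝ × ℂ | (q.1, q.2 ^ 2) ∈ K ∧ 0 < (w * q.2).re} := by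
    ext ⟨x, ζ⟩
    constructor
    · rintro ⟨h1, h2⟩
      refine ⟨(x, -ζ), ⟨?_, ?_⟩, ?_⟩
      · change (x, (-ζ) ^ 2) ∈ K
        rw [neg_sq]
        exact h1
      · change 0 < (w * -ζ).re
        rw [mul_neg, Complex.neg_re]
        exact neg_pos.2 h2
      · change (x, - -ζ) = (x, ζ)
        rw [neg_neg]
    · rintro ⟨⟨y, b⟩, ⟨h1, h2⟩, h3⟩
      have h4 : x = y ∧ ζ = -b := ⟨(congrArg Prod.fst h3).symm, (congrArg Prod.snd h3).symm⟩
      obtain ⟨rfl, rfl⟩ := h4
      refine ⟨?_, ?_⟩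
      · change (x, (-b) ^ 2) ∈ K
        rw [neg_sq]
        exact h1
      · change (w * -b).re < 0
        rw [mul_neg, Complex.neg_re]
        exact neg_neg_of_pos h2
  obtain ⟨⟨x, b⟩, hxb⟩ := hne
  have hmem : ((x, Complex.exp (Complex.log (v * b) / 2) / w) : ℝ × ℂ) ∈
      {q : ℝ × ℂ | (q.1, q.2 ^ 2) ∈ K ∧ 0 < (w * q.2).re} := by
    rw [hpos]
    exact ⟨(x, b), hxb, rfl⟩
  refine ⟨w, ?_, hpre, ?_, ⟨_, hmem⟩, ?_⟩
  · rintro ⟨y, ζ⟩ h1 h2
    have h3 := hvK y (ζ ^ 2) h1
    rw [← hw, ← mul_pow] at h3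
    have h4 : (w * ζ).re = 0 := h2
    rcases Complex.mem_slitPlane_iff.1 h3 with h5 | h5
    · rw [sq, Complex.mul_re, h4] at h5
      nlinarith [mul_self_nonneg (w * ζ).im]
    · rw [sq, Complex.mul_im, h4] at h5
      exact h5 (by ring)
  · rw [hneg]
    exact hpre.image _ (continuous_fst.prodMk continuous_snd.neg).continuousOn
  · have h6 : ((x, -(Complex.exp (Complex.log (v * b) / 2) / w)) : ℝ × ℂ) ∈
        {q : ℝ × ℂ | (q.1, q.2 ^ 2) ∈ K ∧ (w * q.2).re < 0} := by
      rw [hneg]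
      exact ⟨_, hmem, rfl⟩
    exact ⟨_, h6⟩
-- END cov3

-- BEGIN fce
/-- EXACT COUNT. The faces with label `S ∈ A` : exactly one (the class). With a label `S ∉ A`: exactly two, the sets `{N y = S, 0 < g y}` and `{N y = S, g y < 0}` (a preconnected subset of the class on which `g` has both signs would contain a zero of `g`: `IsPreconnected.intermediate_value`).
So the set of faces is in bijection with `A ⊕ (range N \ A) × Bool`. -/
theorem fce {X α : Type} [TopologicalSpace X] (N : X → α) (hf : (Set.range N).Finite) (A : Set α)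
    (hA : A ⊆ Set.range N) (h1 : ∀ x, N x ∈ A → IsPreconnected {y | N y = N x})
    (h2 : ∀ x, N x ∉ A → ∃ g : X → ℝ, Continuous g ∧ (∀ y, N y = N x → g y ≠ 0) ∧
      IsPreconnected {y | N y = N x ∧ 0 < g y} ∧ IsPreconnected {y | N y = N x ∧ g y < 0} ∧
      (∃ y, N y = N x ∧ 0 < g y) ∧ ∃ y, N y = N x ∧ g y < 0) :
    {f : Set X | ∃ x, f = connectedComponentIn {y | N y = N x} x}.encard + (A.ncard : ℕ∞) =
      ((2 * (Set.range N).ncard : ℕ) : ℕ∞) := by
  classical
  have h2' : ∀ S : α, ∃ g : X → ℝ, S ∈ Set.range N → S ∉ A → Continuous g ∧ (∀ y, N y = S → g y ≠ 0) ∧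
      IsPreconnected {y | N y = S ∧ 0 < g y} ∧ IsPreconnected {y | N y = S ∧ g y < 0} ∧
      (∃ y, N y = S ∧ 0 < g y) ∧ ∃ y, N y = S ∧ g y < 0 := by
    intro S
    by_cases hS : S ∈ Set.range N ∧ S ∉ A
    · obtain ⟨⟨x, rfl⟩, hS2⟩ := hS
      obtain ⟨g, hg⟩ := h2 x hS2
      exact ⟨g, fun _ _ => hg⟩
    · exact ⟨fun _ => 0, fun h3 h4 => absurd ⟨h3, h4⟩ hS⟩
  choose g hg using h2'
  let Ψ : α × Bool → Set X := fun z => {y | N y = z.1 ∧ (z.1 ∈ A ∨ (if z.2 = true then 0 < g z.1 y else g z.1 y < 0))}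
  let R' : Set (α × Bool) := (fun S => (S, true)) '' Set.range N ∪ (fun S => (S, false)) '' (Set.range N \ A)
  have hsub : ∀ x y, y ∈ connectedComponentIn {y | N y = N x} x → N y = N x := by
    intro x y hy
    have h3 := connectedComponentIn_subset {y | N y = N x} x
    exact h3 hy
  have hcA : ∀ x, N x ∈ A → connectedComponentIn {y | N y = N x} x = Ψ (N x, true) := by
    intro x hx
    rw [(h1 x hx).connectedComponentIn rfl]
    ext y
    exact ⟨fun hy => ⟨hy, Or.inl hx⟩, fun hy => hy.1⟩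
  have hcP : ∀ x, N x ∉ A → 0 < g (N x) x → connectedComponentIn {y | N y = N x} x = Ψ (N x, true) := by
    intro x hx hgx
    obtain ⟨hc, hnz, hp, hm, _, _⟩ := hg (N x) ⟨x, rfl⟩ hx
    have h3 : Ψ (N x, true) = {y | N y = N x ∧ 0 < g (N x) y} := by
      ext y
      constructor
      · rintro ⟨h4, h5⟩
        exact ⟨h4, by simpa using h5.resolve_left hx⟩
      · rintro ⟨h4, h5⟩
        exact ⟨h4, Or.inr (by simpa using h5)⟩
    rw [h3]
    apply Set.Subset.antisymm
    · intro y hy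
      have h4 : N y = N x := hsub x y hy
      refine ⟨h4, ?_⟩
      by_contra h5
      have hxm : x ∈ connectedComponentIn {y | N y = N x} x := mem_connectedComponentIn rfl
      obtain ⟨z, hz1, hz2⟩ := isPreconnected_connectedComponentIn.intermediate_value hy hxm hc.continuousOn
        (show (0 : ℝ) ∈ Set.Icc (g (N x) y) (g (N x) x) from ⟨not_lt.1 h5, hgx.le⟩)
      exact hnz z (hsub x z hz1) hz2
    · exact hp.subset_connectedComponentIn ⟨rfl, hgx⟩ fun y hy => hy.1
  have hcM : ∀ x, N x ∉ A → g (N x) x < 0 → connectedComponentIn {y | N y = N x} x = Ψ (N x, false) := by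
    intro x hx hgx
    obtain ⟨hc, hnz, hp, hm, _, _⟩ := hg (N x) ⟨x, rfl⟩ hx
    have h3 : Ψ (N x, false) = {y | N y = N x ∧ g (N x) y < 0} := by
      ext y
      constructor
      · rintro ⟨h4, h5⟩
        exact ⟨h4, by simpa using h5.resolve_left hx⟩
      · rintro ⟨h4, h5⟩
        exact ⟨h4, Or.inr (by simpa using h5)⟩
    rw [h3]
    apply Set.Subset.antisymm
    · intro y hy
      have h4 : N y = N x := hsub x y hy
      refine ⟨h4, ?_⟩
      by_contra h5
      have hxm : x ∈ connectedComponentIn {y | N y = N x} x := mem_connectedComponentIn rfl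
      obtain ⟨z, hz1, hz2⟩ := isPreconnected_connectedComponentIn.intermediate_value hxm hy hc.continuousOn
        (show (0 : ℝ) ∈ Set.Icc (g (N x) x) (g (N x) y) from ⟨hgx.le, not_lt.1 h5⟩)
      exact hnz z (hsub x z hz1) hz2
    · exact hm.subset_connectedComponentIn ⟨rfl, hgx⟩ fun y hy => hy.1
  have hF : {f : Set X | ∃ x, f = connectedComponentIn {y | N y = N x} x} = Ψ '' R' := by
    ext f
    constructor
    · rintro ⟨x, rfl⟩
      by_cases hx : N x ∈ A
      · exact ⟨(N x, true), Or.inl ⟨N x, ⟨x, rfl⟩, rfl⟩, (hcA x hx).symm⟩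
      · have hnz := (hg (N x) ⟨x, rfl⟩ hx).2.1 x rfl
        rcases lt_or_gt_of_ne hnz with h3 | h3
        · exact ⟨(N x, false), Or.inr ⟨N x, ⟨⟨x, rfl⟩, hx⟩, rfl⟩, (hcM x hx h3).symm⟩
        · exact ⟨(N x, true), Or.inl ⟨N x, ⟨x, rfl⟩, rfl⟩, (hcP x hx h3).symm⟩
    · rintro ⟨z, hz, rfl⟩
      rcases hz with ⟨S, ⟨x, rfl⟩, rfl⟩ | ⟨S, ⟨⟨x, rfl⟩, hx⟩, rfl⟩
      · by_cases hx : N x ∈ A
        · exact ⟨x, (hcA x hx).symm⟩
        · obtain ⟨_, _, _, _, ⟨y, hy1, hy2⟩, _⟩ := hg (N x) ⟨x, rfl⟩ hx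
          refine ⟨y, ?_⟩
          have h4 := hcP y (by rw [hy1]; exact hx) (by rw [hy1]; exact hy2)
          rw [h4, hy1]
      · obtain ⟨_, _, _, _, _, ⟨y, hy1, hy2⟩⟩ := hg (N x) ⟨x, rfl⟩ hx
        refine ⟨y, ?_⟩
        have h4 := hcM y (by rw [hy1]; exact hx) (by rw [hy1]; exact hy2)
        rw [h4, hy1]
  have hfn : ∀ S, (S, false) ∈ R' → S ∉ A := by
    rintro S (⟨T, _, hT⟩ | ⟨T, hT1, hT2⟩)
    · exact absurd (congrArg Prod.snd hT) (by simp)
    · have h3 : T = S := congrArg Prod.fst hT2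
      rw [← h3]
      exact hT1.2
  have hne : ∀ z ∈ R', (Ψ z).Nonempty := by
    intro z hz
    have h3 : Ψ z ∈ {f : Set X | ∃ x, f = connectedComponentIn {y | N y = N x} x} := by
      rw [hF]
      exact ⟨z, hz, rfl⟩
    obtain ⟨x, hx⟩ := h3
    rw [hx]
    exact ⟨x, mem_connectedComponentIn rfl⟩
  have hinj : Set.InjOn Ψ R' := by
    rintro ⟨S, b⟩ hz ⟨T, c⟩ hw hzw
    obtain ⟨y, hy⟩ := hne _ hz
    have hy' : y ∈ Ψ (T, c) := by
      rw [← hzw]
      exact hy
    have hST : S = T := hy.1.symm.trans hy'.1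
    subst hST
    cases b <;> cases c
    · rfl
    · exfalso
      have hS := hfn S hz
      have h5 := hy.2.resolve_left hS
      have h6 := hy'.2.resolve_left hS
      simp only [Bool.false_eq_true, if_false] at h5
      simp only [if_true] at h6
      exact lt_asymm h5 h6
    · exfalso
      have hS := hfn S hw
      have h5 := hy.2.resolve_left hS
      have h6 := hy'.2.resolve_left hS
      simp only [Bool.false_eq_true, if_false] at h6
      simp only [if_true] at h5
      exact lt_asymm h5 h6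
    · rfl
  rw [hF, hinj.encard_image]
  have hdis : Disjoint ((fun S : α => (S, true)) '' Set.range N) ((fun S : α => (S, false)) '' (Set.range N \ A)) := by
    rw [Set.disjoint_left]
    rintro z ⟨S, _, rfl⟩ ⟨T, _, hT⟩
    exact absurd (congrArg Prod.snd hT) (by simp)
  have he1 : ((fun S : α => (S, true)) '' Set.range N).encard = (Set.range N).encard :=
    Function.Injective.encard_image (fun a b h => congrArg Prod.fst h) _
  have he2 : ((fun S : α => (S, false)) '' (Set.range N \ A)).encard = (Set.range N \ A).encard :=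
    Function.Injective.encard_image (fun a b h => congrArg Prod.fst h) _
  show ((fun S : α => (S, true)) '' Set.range N ∪ (fun S : α => (S, false)) '' (Set.range N \ A)).encard + (A.ncard : ℕ∞) = _
  rw [Set.encard_union_eq hdis, he1, he2, (hf.subset hA).cast_ncard_eq, add_assoc, Set.encard_sdiff_add_encard_of_subset hA,
    ← hf.cast_ncard_eq]
  push_cast
  ring
-- END fce

-- BEGIN axs
private theorem axs_eq {n : ℕ} {t : Fin n → ℝ} (ht : StrictMono t) {x : ℝ} {i j : Fin n} (hij : i < j)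
    (hi : ∀ k, (x - t i) ^ 2 ≤ (x - t k) ^ 2) (hj : ∀ k, (x - t j) ^ 2 ≤ (x - t k) ^ 2) :
    (j : ℕ) = i + 1 := by
  have h1 := ht hij
  have h2 : (x - t i) ^ 2 = (x - t j) ^ 2 := le_antisymm (hi j) (hj i)
  have h3 : (t j - t i) * (2 * x - t i - t j) = 0 := by linarith [h2, sq (x - t i), sq (x - t j)]
  have h4 : 2 * x - t i - t j = 0 := by
    rcases mul_eq_zero.1 h3 with h | h
    · linarith
    · exact h
  by_contra hne
  have h5 : (i : ℕ) + 1 < j := by
    have h6 : (i : ℕ) < j := hij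
    omega
  have h7 := j.2
  have hk1 : i < (⟨(i : ℕ) + 1, by omega⟩ : Fin n) := Fin.lt_def.2 (by simp)
  have hk2 : (⟨(i : ℕ) + 1, by omega⟩ : Fin n) < j := Fin.lt_def.2 h5
  have h8 := ht hk1
  have h9 := ht hk2
  have h10 := hi ⟨(i : ℕ) + 1, by omega⟩
  nlinarith

/-- The values are exactly the sets `{i}` (for `x = t i`) and `{i, i + 1}` (for `x` = the midpoint of `t i`, `t (i + 1)`): the points `t j` nearest to `x` are at distance `r`, at most one on each side, and they are neighbours in the order. `n + (n - 1)` different sets. -/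
theorem axs {n : ℕ} (hn : 0 < n) {t : Fin n → ℝ} (ht : StrictMono t) :
    (Set.range (fun x : ℝ => {i : Fin n | ∀ j, (x - t i) ^ 2 ≤ (x - t j) ^ 2})).ncard = 2 * n - 1 := by
  have hG : Set.range (fun x : ℝ => {i : Fin n | ∀ j, (x - t i) ^ 2 ≤ (x - t j) ^ 2}) =
      Set.range (fun m : Fin (2 * n - 1) => {i : Fin n | (i : ℕ) = m / 2 ∨ (i : ℕ) = (m + 1) / 2}) := by
    ext S
    constructor
    · rintro ⟨x, rfl⟩
      have hne : Nonempty (Fin n) := ⟨⟨0, hn⟩⟩
      obtain ⟨i, hi⟩ := Finite.exists_min (fun i => (x - t i) ^ 2)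
      by_cases hex : ∃ j, j ≠ i ∧ ∀ k, (x - t j) ^ 2 ≤ (x - t k) ^ 2
      · obtain ⟨j, hji, hj⟩ := hex
        have key : ∀ a b : Fin n, a < b → (∀ k, (x - t a) ^ 2 ≤ (x - t k) ^ 2) →
            (∀ k, (x - t b) ^ 2 ≤ (x - t k) ^ 2) →
            {i : Fin n | ∀ j, (x - t i) ^ 2 ≤ (x - t j) ^ 2} ∈ Set.range
              (fun m : Fin (2 * n - 1) => {i : Fin n | (i : ℕ) = m / 2 ∨ (i : ℕ) = (m + 1) / 2}) := by
          intro a b hab ha hb
          have h1 := axs_eq ht hab ha hb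
          have h2 := b.2
          refine ⟨⟨2 * a + 1, by omega⟩, ?_⟩
          ext c
          simp only [Set.mem_ofPred_eq]
          have h3 : (2 * (a : ℕ) + 1) / 2 = a := by omega
          have h4 : (2 * (a : ℕ) + 1 + 1) / 2 = b := by omega
          rw [h3, h4]
          constructor
          · rintro (h | h)
            · rw [Fin.ext h]
              exact ha
            · rw [Fin.ext h]
              exact hb
          · intro hc
            by_contra hcon
            push Not at hcon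
            rcases lt_or_gt_of_ne hcon.1 with h5 | h5
            · have h6 := axs_eq ht (Fin.lt_def.2 (h5.trans hab)) hc hb
              omega
            · have h6 := axs_eq ht (Fin.lt_def.2 h5) ha hc
              omega
        rcases lt_or_gt_of_ne hji with h | h
        · exact key j i h hj hi
        · exact key i j h hi hj
      · push Not at hex
        have h2 := i.2
        refine ⟨⟨2 * i, by omega⟩, ?_⟩
        ext c
        simp only [Set.mem_ofPred_eq]
        have h3 : (2 * (i : ℕ)) / 2 = i := by omega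
        have h4 : (2 * (i : ℕ) + 1) / 2 = i := by omega
        rw [h3, h4, or_self]
        constructor
        · intro h
          rw [Fin.ext h]
          exact hi
        · intro hc
          by_contra hcon
          obtain ⟨k, hk⟩ := hex c (fun h => hcon (congrArg Fin.val h))
          exact absurd (hc k) (not_le.2 hk)
    · rintro ⟨⟨m, hm⟩, rfl⟩
      rcases Nat.even_or_odd' m with ⟨a, rfl | rfl⟩
      · have ha : a < n := by omega
        refine ⟨t ⟨a, ha⟩, ?_⟩
        ext c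
        simp only [Set.mem_ofPred_eq]
        have h3 : (2 * a) / 2 = a := by omega
        have h4 : (2 * a + 1) / 2 = a := by omega
        rw [h3, h4, or_self]
        constructor
        · intro h
          have h5 := h ⟨a, ha⟩
          rw [sub_self, zero_pow two_ne_zero] at h5
          have h6 : t ⟨a, ha⟩ - t c = 0 := by
            have h7 := le_antisymm h5 (sq_nonneg _)
            exact pow_eq_zero_iff two_ne_zero |>.1 h7
          have h8 := ht.injective (sub_eq_zero.1 h6)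
          rw [← h8]
        · intro h j
          have h5 : c = ⟨a, ha⟩ := Fin.ext h
          rw [h5, sub_self, zero_pow two_ne_zero]
          exact sq_nonneg _
      · have ha : a + 1 < n := by omega
        have hlt : t ⟨a, by omega⟩ < t ⟨a + 1, ha⟩ := ht (Fin.lt_def.2 (by simp))
        refine ⟨(t ⟨a, by omega⟩ + t ⟨a + 1, ha⟩) / 2, ?_⟩
        have hlow : ∀ j : Fin n, (j : ℕ) < a → t j < t ⟨a, by omega⟩ := fun j hj => ht (Fin.lt_def.2 hj)
        have hup : ∀ j : Fin n, a + 1 < (j : ℕ) → t ⟨a + 1, ha⟩ < t j := fun j hj => ht (Fin.lt_def.2 hj)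
        have hcase : ∀ j : Fin n, (j : ℕ) < a ∨ j = ⟨a, by omega⟩ ∨ j = ⟨a + 1, ha⟩ ∨ a + 1 < (j : ℕ) := by
          intro j
          rcases lt_trichotomy (j : ℕ) a with h | h | h
          · exact Or.inl h
          · exact Or.inr (Or.inl (Fin.ext h))
          · rcases Nat.lt_or_ge (a + 1) (j : ℕ) with h' | h'
            · exact Or.inr (Or.inr (Or.inr h'))
            · exact Or.inr (Or.inr (Or.inl (Fin.ext (by simp only; omega))))
        ext c
        simp only [Set.mem_ofPred_eq]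
        have h3 : (2 * a + 1) / 2 = a := by omega
        have h4 : (2 * a + 1 + 1) / 2 = a + 1 := by omega
        rw [h3, h4]
        constructor
        · intro h
          have h5 := h ⟨a, by omega⟩
          rcases hcase c with h6 | h6 | h6 | h6
          · have h7 := hlow c h6
            nlinarith
          · left
            rw [h6]
          · right
            rw [h6]
          · have h7 := hup c h6
            nlinarith
        · intro h j
          have h5 : c = ⟨a, by omega⟩ ∨ c = ⟨a + 1, ha⟩ := by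
            rcases h with h | h
            · exact Or.inl (Fin.ext h)
            · exact Or.inr (Fin.ext h)
          have h8 : ((t ⟨a, by omega⟩ + t ⟨a + 1, ha⟩) / 2 - t c) ^ 2 =
              ((t ⟨a + 1, ha⟩ - t ⟨a, by omega⟩) / 2) ^ 2 := by
            rcases h5 with h5 | h5
            · rw [h5]
              ring
            · rw [h5]
              ring
          rw [h8]
          rcases hcase j with h6 | h6 | h6 | h6
          · have h7 := hlow j h6
            nlinarith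
          · rw [h6]
            nlinarith
          · rw [h6]
            nlinarith
          · have h7 := hup j h6
            nlinarith
  rw [hG, ← Nat.card_coe_set_eq]
  have hinj : Function.Injective
      (fun m : Fin (2 * n - 1) => {i : Fin n | (i : ℕ) = m / 2 ∨ (i : ℕ) = (m + 1) / 2}) := by
    intro m m' h
    have h' : {i : Fin n | (i : ℕ) = m / 2 ∨ (i : ℕ) = (m + 1) / 2} =
        {i : Fin n | (i : ℕ) = m' / 2 ∨ (i : ℕ) = (m' + 1) / 2} := h
    have hm := m.2
    have hm' := m'.2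
    have h1 : (⟨m / 2, by omega⟩ : Fin n) ∈ {i : Fin n | (i : ℕ) = m' / 2 ∨ (i : ℕ) = (m' + 1) / 2} := by
      rw [← h']
      exact Or.inl rfl
    have h2 : (⟨(m + 1) / 2, by omega⟩ : Fin n) ∈ {i : Fin n | (i : ℕ) = m' / 2 ∨ (i : ℕ) = (m' + 1) / 2} := by
      rw [← h']
      exact Or.inr rfl
    have h3 : (⟨m' / 2, by omega⟩ : Fin n) ∈ {i : Fin n | (i : ℕ) = m / 2 ∨ (i : ℕ) = (m + 1) / 2} := by
      rw [h']
      exact Or.inl rfl
    have h4 : (⟨(m' + 1) / 2, by omega⟩ : Fin n) ∈ {i : Fin n | (i : ℕ) = m / 2 ∨ (i : ℕ) = (m + 1) / 2} := by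
      rw [h']
      exact Or.inr rfl
    simp only [Set.mem_ofPred_eq] at h1 h2 h3 h4
    exact Fin.ext (by omega)
  rw [Nat.card_range_of_injective hinj, Nat.card_fin]
-- END axs

-- BEGIN pnt
/-- With the elementary symmetric functions `e1, .., e4` of `r1, .., r4`: `x = e1 / 2`, `ζ = y + i z` a square root of `- (1 + i r1)(1 + i r2)(1 + i r3)(1 + i r4)`, whose real part is `e2 - 1 - e4` and imaginary part `e3 - e1`
(so `y ^ 2 - z ^ 2 = e2 - 1 - e4`, `2 y z = e3 - e1`; existence: `IsSquare`/`Complex.cpow`, or `IsAlgClosed.exists_pow_nat_eq`), `m = x ^ 2 + z ^ 2 - e4`. Multiply by `1 + τ ^ 2` and compare coefficients. -/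
theorem pnt (r1 r2 r3 r4 : ℝ) : ∃ (p : E) (m : ℝ), ∀ τ : ℝ,
    (p 0 - τ) ^ 2 + (p 1 * τ - p 2) ^ 2 / (1 + τ ^ 2) =
      m + (τ - r1) * (τ - r2) * (τ - r3) * (τ - r4) / (1 + τ ^ 2) := by
  obtain ⟨ζ, hζ⟩ := IsAlgClosed.exists_pow_nat_eq
    (⟨(r1 * r2 + r1 * r3 + r1 * r4 + r2 * r3 + r2 * r4 + r3 * r4) - 1 - r1 * r2 * r3 * r4,
      (r1 * r2 * r3 + r1 * r2 * r4 + r1 * r3 * r4 + r2 * r3 * r4) - (r1 + r2 + r3 + r4)⟩ : ℂ) two_pos
  rw [pow_two] at hζ
  have hre := congrArg Complex.re hζ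
  have him := congrArg Complex.im hζ
  rw [Complex.mul_re] at hre
  rw [Complex.mul_im] at him
  refine ⟨!₂[(r1 + r2 + r3 + r4) / 2, ζ.re, ζ.im],
    ((r1 + r2 + r3 + r4) / 2) ^ 2 + ζ.im ^ 2 - r1 * r2 * r3 * r4, fun τ => ?_⟩
  have h0 : (1 + τ ^ 2) ≠ 0 := by positivity
  have key : ((r1 + r2 + r3 + r4) / 2 - τ) ^ 2 * (1 + τ ^ 2) + (ζ.re * τ - ζ.im) ^ 2 =
      (((r1 + r2 + r3 + r4) / 2) ^ 2 + ζ.im ^ 2 - r1 * r2 * r3 * r4) * (1 + τ ^ 2) +
        (τ - r1) * (τ - r2) * (τ - r3) * (τ - r4) := by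
    linear_combination τ ^ 2 * hre - τ * him
  have hg : ∀ A B : ℝ, A + B / (1 + τ ^ 2) = (A * (1 + τ ^ 2) + B) / (1 + τ ^ 2) := fun A B => by
    rw [add_div, mul_div_cancel_right₀ _ h0]
  show ((r1 + r2 + r3 + r4) / 2 - τ) ^ 2 + (ζ.re * τ - ζ.im) ^ 2 / (1 + τ ^ 2) = _
  rw [hg, hg, key]
-- END pnt

-- BEGIN ddf
/-- `q τ = (1 + τ ^ 2) (x - τ) ^ 2 + (y τ - z) ^ 2 - m (1 + τ ^ 2)` is a monic polynomial of degree 4 in `τ` with zeros `α < β < γ`. Its divided difference at `α, s, β, r, γ` is `1`: `q s / ((s - α)(s - β)(s - r)(s - γ)) + q r / ((r - α)(r - s)(r - β)(r - γ)) = 1`, and both denominators are negative: contradiction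
to `q s ≥ 0`, `q r ≥ 0`. (Or: `q τ = (τ - α)(τ - β)(τ - γ)(τ - u)`; `q s ≥ 0` gives `u ≤ s`, `q r ≥ 0` gives `u ≥ r`.) -/
theorem ddf (x y z m : ℝ) {α s β r γ : ℝ} (h1 : α < s) (h2 : s < β) (h3 : β < r) (h4 : r < γ)
    (hα : (x - α) ^ 2 + (y * α - z) ^ 2 / (1 + α ^ 2) = m) (hβ : (x - β) ^ 2 + (y * β - z) ^ 2 / (1 + β ^ 2) = m)
    (hγ : (x - γ) ^ 2 + (y * γ - z) ^ 2 / (1 + γ ^ 2) = m) (hs : m ≤ (x - s) ^ 2 + (y * s - z) ^ 2 / (1 + s ^ 2))
    (hr : m ≤ (x - r) ^ 2 + (y * r - z) ^ 2 / (1 + r ^ 2)) : False := by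
  have hpos : ∀ τ : ℝ, 0 < 1 + τ ^ 2 := fun τ => by positivity
  have hq0 : ∀ τ : ℝ, (1 + τ ^ 2) * ((x - τ) ^ 2 + (y * τ - z) ^ 2 / (1 + τ ^ 2)) =
      (1 + τ ^ 2) * (x - τ) ^ 2 + (y * τ - z) ^ 2 := by
    intro τ
    rw [mul_add, mul_div_cancel₀ _ (hpos τ).ne']
  obtain ⟨q, hq⟩ : ∃ q : ℝ → ℝ, q = fun τ => (1 + τ ^ 2) * (x - τ) ^ 2 + (y * τ - z) ^ 2 - m * (1 + τ ^ 2) := ⟨_, rfl⟩
  have qz : ∀ τ : ℝ, (x - τ) ^ 2 + (y * τ - z) ^ 2 / (1 + τ ^ 2) = m → q τ = 0 := by
    intro τ h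
    rw [hq]
    show (1 + τ ^ 2) * (x - τ) ^ 2 + (y * τ - z) ^ 2 - m * (1 + τ ^ 2) = 0
    rw [← hq0 τ, h]
    ring
  have qn : ∀ τ : ℝ, m ≤ (x - τ) ^ 2 + (y * τ - z) ^ 2 / (1 + τ ^ 2) → 0 ≤ q τ := by
    intro τ h
    rw [hq]
    show 0 ≤ (1 + τ ^ 2) * (x - τ) ^ 2 + (y * τ - z) ^ 2 - m * (1 + τ ^ 2)
    rw [← hq0 τ]
    have h' := mul_le_mul_of_nonneg_left h (hpos τ).le
    linarith
  have a0 := qz α hα
  have b0 := qz β hβ
  have c0 := qz γ hγ
  have s0 := qn s hs
  have r0 := qn r hr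
  obtain ⟨u, hu⟩ : ∃ u, u = 2 * x - α - β - γ := ⟨_, rfl⟩
  obtain ⟨D2, hD2⟩ : ∃ D2, D2 = (x ^ 2 - m + 1 + y ^ 2) - ((α * β + β * γ + α * γ) + (α + β + γ) * u) := ⟨_, rfl⟩
  obtain ⟨D1, hD1⟩ : ∃ D1, D1 = -(2 * x + 2 * y * z) + (α * β * γ + (α * β + β * γ + α * γ) * u) := ⟨_, rfl⟩
  obtain ⟨D0, hD0⟩ : ∃ D0, D0 = x ^ 2 - m + z ^ 2 - α * β * γ * u := ⟨_, rfl⟩
  have key : ∀ τ, q τ = (τ - α) * (τ - β) * (τ - γ) * (τ - u) + (D2 * τ ^ 2 + D1 * τ + D0) := by
    intro τ
    rw [hq, hD2, hD1, hD0, hu]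
    show (1 + τ ^ 2) * (x - τ) ^ 2 + (y * τ - z) ^ 2 - m * (1 + τ ^ 2) = _
    ring
  have ka : D2 * α ^ 2 + D1 * α + D0 = 0 := by
    have h := key α
    rw [a0, sub_self] at h
    linarith
  have kb : D2 * β ^ 2 + D1 * β + D0 = 0 := by
    have h := key β
    rw [b0, sub_self] at h
    linarith
  have kc : D2 * γ ^ 2 + D1 * γ + D0 = 0 := by
    have h := key γ
    rw [c0, sub_self] at h
    linarith
  have hab : β - α ≠ 0 := by linarith
  have hbc : γ - β ≠ 0 := by linarith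
  have hac : γ - α ≠ 0 := by linarith
  have e1 : D2 * (α + β) + D1 = 0 := by
    apply (mul_eq_zero.1 (?_ : (β - α) * (D2 * (α + β) + D1) = 0)).resolve_left hab
    linear_combination kb - ka
  have e2 : D2 * (β + γ) + D1 = 0 := by
    apply (mul_eq_zero.1 (?_ : (γ - β) * (D2 * (β + γ) + D1) = 0)).resolve_left hbc
    linear_combination kc - kb
  have e3 : D2 = 0 := by
    apply (mul_eq_zero.1 (?_ : (γ - α) * D2 = 0)).resolve_left hac
    linear_combination e2 - e1
  have e4 : D1 = 0 := by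
    rw [e3] at e1
    linarith
  have e5 : D0 = 0 := by
    rw [e3, e4] at ka
    linarith
  have ks := key s
  have kr := key r
  rw [e3, e4, e5] at ks kr
  have p1 : 0 < (s - α) * (s - β) * (s - γ) := by
    have e : (s - α) * (s - β) * (s - γ) = (s - α) * ((β - s) * (γ - s)) := by ring
    rw [e]
    exact mul_pos (by linarith) (mul_pos (by linarith) (by linarith))
  have p2 : (r - α) * (r - β) * (r - γ) < 0 := by
    have e : (r - α) * (r - β) * (r - γ) = -((r - α) * ((r - β) * (γ - r))) := by ring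
    rw [e]
    exact neg_neg_of_pos (mul_pos (by linarith) (mul_pos (by linarith) (by linarith)))
  have us : 0 ≤ s - u := by
    by_contra hcon
    have := mul_neg_of_pos_of_neg p1 (not_le.1 hcon)
    linarith
  have ur : r - u ≤ 0 := by
    by_contra hcon
    have := mul_neg_of_neg_of_pos p2 (not_le.1 hcon)
    linarith
  linarith
-- END ddf

/-- the sets of indices in question: with smallest element `a` and largest `b` they contain besides
`a`, `b` only `a + 1` or `b - 1` -/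
def Gale (n : ℕ) : Set (Set (Fin n)) :=
  {S | ∃ a ∈ S, ∃ b ∈ S, ∀ k ∈ S, a ≤ k ∧ k ≤ b ∧ ((k : ℕ) ≤ a + 1 ∨ (b : ℕ) ≤ k + 1)}

-- BEGIN chr
/-- `dst` (squares of distances). (⊆) `a`, `b` = smallest and largest element of `S = Near p` (not empty); an element `k` with `a + 1 < k < b - 1` contradicts `ddf` with `α, s, β, r, γ = t a, t (a + 1), t k, t (b - 1), t b`. (⊇) Given `S`, `a`, `b`: `pnt` with `r1 = t a`, `r4 = t b`, `r2 = t (a + 1)` if `a + 1 ∈ S`, else
`r2 = t a`, `r3 = t (b - 1)` if `b - 1 ∈ S`, else `r3 = t b`: `(τ - r1) (τ - r2) ≥ 0` and `(τ - r3) (τ - r4) ≥ 0` for all `τ = t k`, and the product is zero exactly on `S`. -/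
theorem chr {n : ℕ} (hn : 0 < n) {t : Fin n → ℝ} (ht : StrictMono t) :
    Set.range (Near (fun k => (!₂[0, 1, t k] : E)) (fun k => (!₂[t k, 0, 0] : E))) = Gale n := by
  haveI : Nonempty (Fin n) := ⟨⟨0, hn⟩⟩
  obtain ⟨F, hF⟩ : ∃ F : E → Fin n → ℝ, F = fun p k =>
      (p 0 - t k) ^ 2 + (p 1 * t k - p 2) ^ 2 / (1 + t k ^ 2) := ⟨_, rfl⟩
  have hnear : ∀ p : E, Near (fun k => (!₂[0, 1, t k] : E)) (fun k => (!₂[t k, 0, 0] : E)) p =
      {i | ∀ j, F p i ≤ F p j} := by
    intro p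
    ext i
    rw [hF]
    refine forall_congr' fun j => ?_
    show _ ↔ (p 0 - t i) ^ 2 + (p 1 * t i - p 2) ^ 2 / (1 + t i ^ 2) ≤
      (p 0 - t j) ^ 2 + (p 1 * t j - p 2) ^ 2 / (1 + t j ^ 2)
    rw [← dst (t i) p, ← dst (t j) p]
    exact (sq_le_sq₀ Metric.infDist_nonneg Metric.infDist_nonneg).symm
  ext S
  constructor
  · rintro ⟨p, rfl⟩
    rw [hnear p]
    obtain ⟨i0, hi0⟩ := Finite.exists_min (F p)
    have hne : {i | ∀ j, F p i ≤ F p j}.Nonempty := ⟨i0, hi0⟩
    obtain ⟨a, ha, ha'⟩ := Set.exists_min_image _ id (Set.toFinite {i | ∀ j, F p i ≤ F p j}) hne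
    obtain ⟨b, hb, hb'⟩ := Set.exists_max_image _ id (Set.toFinite {i | ∀ j, F p i ≤ F p j}) hne
    refine ⟨a, ha, b, hb, fun k hk => ⟨ha' k hk, hb' k hk, ?_⟩⟩
    by_contra hcon
    rw [not_or, not_le, not_le] at hcon
    obtain ⟨h1, h2⟩ := hcon
    have hb2 := b.2
    have e : ∀ i : Fin n, (∀ j, F p i ≤ F p j) → F p i = F p i0 := fun i hi =>
      le_antisymm (hi i0) (hi0 i)
    have e1 := e a ha
    have e2 := e k hk
    have e3 := e b hb
    have e4 := hi0 ⟨a + 1, by omega⟩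
    have e5 := hi0 ⟨b - 1, by omega⟩
    rw [hF] at e1 e2 e3 e4 e5
    refine ddf (p 0) (p 1) (p 2) _ (α := t a) (s := t ⟨a + 1, by omega⟩) (β := t k)
      (r := t ⟨b - 1, by omega⟩) (γ := t b) (ht ?_) (ht ?_) (ht ?_) (ht ?_) e1 e2 e3 e4 e5
    · exact Fin.lt_def.2 (by simp)
    · exact Fin.lt_def.2 h1
    · exact Fin.lt_def.2 (by show (k : ℕ) < b - 1; omega)
    · exact Fin.lt_def.2 (by show (b : ℕ) - 1 < b; omega)
  · rintro ⟨a, ha, b, hb, hab⟩
    have h2 : ∃ c ∈ S, a ≤ c ∧ (c : ℕ) ≤ a + 1 ∧ ∀ k ∈ S, (k : ℕ) ≤ a + 1 → k = a ∨ k = c := by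
      by_cases h : ∃ c ∈ S, (c : ℕ) = a + 1
      · obtain ⟨c, hc, e⟩ := h
        refine ⟨c, hc, Fin.le_def.2 (by omega), by omega, fun k hk hk1 => ?_⟩
        have := Fin.le_def.1 (hab k hk).1
        rcases Nat.lt_or_ge (a : ℕ) k with h' | h'
        · exact Or.inr (Fin.ext (by omega))
        · exact Or.inl (Fin.ext (by omega))
      · refine ⟨a, ha, le_refl _, by omega, fun k hk hk1 => ?_⟩
        have := Fin.le_def.1 (hab k hk).1
        have h' : (k : ℕ) ≠ a + 1 := fun e => h ⟨k, hk, e⟩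
        exact Or.inl (Fin.ext (by omega))
    have h3 : ∃ d ∈ S, d ≤ b ∧ (b : ℕ) ≤ d + 1 ∧ ∀ k ∈ S, (b : ℕ) ≤ k + 1 → k = b ∨ k = d := by
      by_cases h : ∃ d ∈ S, (d : ℕ) + 1 = b
      · obtain ⟨d, hd, e⟩ := h
        refine ⟨d, hd, Fin.le_def.2 (by omega), by omega, fun k hk hk1 => ?_⟩
        have := Fin.le_def.1 (hab k hk).2.1
        rcases Nat.lt_or_ge (k : ℕ) b with h' | h'
        · exact Or.inr (Fin.ext (by omega))
        · exact Or.inl (Fin.ext (by omega))
      · refine ⟨b, hb, le_refl _, by omega, fun k hk hk1 => ?_⟩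
        have := Fin.le_def.1 (hab k hk).2.1
        have h' : (k : ℕ) + 1 ≠ b := fun e => h ⟨k, hk, e⟩
        exact Or.inl (Fin.ext (by omega))
    obtain ⟨c, hc, hc1, hc2, hc3⟩ := h2
    obtain ⟨d, hd, hd1, hd2, hd3⟩ := h3
    obtain ⟨p, m, hp⟩ := pnt (t a) (t c) (t d) (t b)
    refine ⟨p, ?_⟩
    rw [hnear p]
    have hFk : ∀ k, F p k = m + (t k - t a) * (t k - t c) * (t k - t d) * (t k - t b) / (1 + t k ^ 2) := by
      intro k
      rw [hF]
      exact hp (t k)
    have hpos : ∀ k, (0 : ℝ) < 1 + t k ^ 2 := fun k => by positivity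
    have hnn : ∀ k, 0 ≤ (t k - t a) * (t k - t c) * (t k - t d) * (t k - t b) := by
      intro k
      have g1 : 0 ≤ (t k - t a) * (t k - t c) := by
        rcases Nat.lt_or_ge (k : ℕ) (a + 1) with h | h
        · have i1 : t k ≤ t a := ht.monotone (Fin.le_def.2 (by omega))
          have i2 : t a ≤ t c := ht.monotone hc1
          exact mul_nonneg_of_nonpos_of_nonpos (by linarith) (by linarith)
        · have i1 : t c ≤ t k := ht.monotone (Fin.le_def.2 (by omega))
          have i2 : t a ≤ t c := ht.monotone hc1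
          exact mul_nonneg (by linarith) (by linarith)
      have g2 : 0 ≤ (t k - t d) * (t k - t b) := by
        rcases Nat.lt_or_ge (k : ℕ) b with h | h
        · have i1 : t k ≤ t d := ht.monotone (Fin.le_def.2 (by omega))
          have i2 : t d ≤ t b := ht.monotone hd1
          exact mul_nonneg_of_nonpos_of_nonpos (by linarith) (by linarith)
        · have i1 : t b ≤ t k := ht.monotone (Fin.le_def.2 (by omega))
          have i2 : t d ≤ t b := ht.monotone hd1
          exact mul_nonneg (by linarith) (by linarith)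
      have := mul_nonneg g1 g2
      calc (0 : ℝ) ≤ _ := this
        _ = _ := by ring
    have hm : ∀ k, m ≤ F p k := by
      intro k
      rw [hFk k]
      have := div_nonneg (hnn k) (hpos k).le
      linarith
    have hma : F p a = m := by
      rw [hFk a, sub_self]
      simp
    ext k
    constructor
    · intro hk
      have h1 : F p k = m := le_antisymm ((hk a).trans hma.le) (hm k)
      rw [hFk k] at h1
      have h2 : (t k - t a) * (t k - t c) * (t k - t d) * (t k - t b) / (1 + t k ^ 2) = 0 := by linarith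
      rw [div_eq_zero_iff] at h2
      rcases h2 with h2 | h2
      · have e : ∀ i, t k - t i = 0 → k = i := fun i h => ht.injective (by linarith)
        rcases mul_eq_zero.1 h2 with h2 | h2
        · rcases mul_eq_zero.1 h2 with h2 | h2
          · rcases mul_eq_zero.1 h2 with h2 | h2
            · rw [e a h2]; exact ha
            · rw [e c h2]; exact hc
          · rw [e d h2]; exact hd
        · rw [e b h2]; exact hb
      · exact absurd h2 (hpos k).ne'
    · intro hk j
      have h0 : F p k = m := by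
        rw [hFk k]
        have h1 : (t k - t a) * (t k - t c) * (t k - t d) * (t k - t b) = 0 := by
          rcases (hab k hk).2.2 with h | h
          · rcases hc3 k hk h with rfl | rfl
            · ring
            · ring
          · rcases hd3 k hk h with rfl | rfl
            · ring
            · ring
        rw [h1, zero_div, add_zero]
      rw [h0]
      exact hm j
-- END chr

-- BEGIN cnl
/-- the number of the pairs of signs for the smallest element `a` and the largest element `b` -/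
private def cnl_g (a b : ℕ) : ℕ :=
  if a ≤ b then (if a + 2 ≤ b then 2 else 1) * (if a + 3 ≤ b then 2 else 1) else 0

private theorem cnl_g_succ (a b : ℕ) : cnl_g (a + 1) (b + 1) = cnl_g a b := by
  unfold cnl_g
  have e1 : (a + 1 ≤ b + 1) ↔ a ≤ b := by omega
  have e2 : (a + 1 + 2 ≤ b + 1) ↔ a + 2 ≤ b := by omega
  have e3 : (a + 1 + 3 ≤ b + 1) ↔ a + 3 ≤ b := by omega
  simp only [e1, e2, e3]

private theorem cnl_inner (b : ℕ) : ∑ a ∈ Finset.range (b + 3), cnl_g a (b + 2) = 4 * (b + 1) := by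
  induction b with
  | zero => decide
  | succ b ih =>
    rw [Finset.sum_range_succ']
    have h1 : ∀ a ∈ Finset.range (b + 3), cnl_g (a + 1) (b + 1 + 2) = cnl_g a (b + 2) := by
      intro a _
      exact cnl_g_succ a (b + 2)
    rw [Finset.sum_congr rfl h1, ih]
    have h2 : cnl_g 0 (b + 1 + 2) = 4 := by
      unfold cnl_g
      rw [if_pos (by omega), if_pos (by omega), if_pos (by omega)]
    rw [h2]
    ring

private theorem cnl_sum (n : ℕ) : ∑ b ∈ Finset.range (n + 2), ∑ a ∈ Finset.range (b + 1), cnl_g a b =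
    2 * (n + 2) ^ 2 + 7 - 6 * (n + 2) := by
  induction n with
  | zero => decide
  | succ n ih =>
    rw [Finset.sum_range_succ, ih]
    have h := cnl_inner n
    have e : n + 2 + 1 = n + 3 := rfl
    rw [e, h]
    have h1 : 6 * (n + 2) ≤ 2 * (n + 2) ^ 2 + 7 := by nlinarith
    have h2 : 6 * (n + 1 + 2) ≤ 2 * (n + 1 + 2) ^ 2 + 7 := by nlinarith
    zify [h1, h2]
    ring

/-- parameters: smallest element, largest element, two signs -/
private def cnl_T (n : ℕ) : Finset ((ℕ × ℕ) × (Bool × Bool)) :=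
  ((Finset.range n ×ˢ Finset.range n) ×ˢ Finset.univ).filter (fun x => x.1.2 ≤ x.1.1 ∧
    (x.2.1 = true → x.1.2 + 2 ≤ x.1.1) ∧ (x.2.2 = true → x.1.2 + 3 ≤ x.1.1))

private theorem cnl_mem {n : ℕ} {x : (ℕ × ℕ) × (Bool × Bool)} : x ∈ cnl_T n ↔
    (x.1.1 < n ∧ x.1.2 < n) ∧ x.1.2 ≤ x.1.1 ∧ (x.2.1 = true → x.1.2 + 2 ≤ x.1.1) ∧
      (x.2.2 = true → x.1.2 + 3 ≤ x.1.1) := by
  unfold cnl_T
  simp only [Finset.mem_filter, Finset.mem_product, Finset.mem_range, Finset.mem_univ, and_true]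

private theorem cnl_card (n : ℕ) : (cnl_T (n + 2)).card = 2 * (n + 2) ^ 2 + 7 - 6 * (n + 2) := by
  rw [← cnl_sum]
  unfold cnl_T
  rw [Finset.card_filter, Finset.sum_product, Finset.sum_product]
  refine Finset.sum_congr rfl fun b hb => ?_
  rw [Finset.mem_range] at hb
  have h1 : ∀ a : ℕ, ∑ e : Bool × Bool, (if ((b, a), e).1.2 ≤ ((b, a), e).1.1 ∧
      (((b, a), e).2.1 = true → ((b, a), e).1.2 + 2 ≤ ((b, a), e).1.1) ∧
      (((b, a), e).2.2 = true → ((b, a), e).1.2 + 3 ≤ ((b, a), e).1.1) then 1 else 0) = cnl_g a b := by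
    intro a
    rw [Fintype.sum_prod_type, Fintype.sum_bool, Fintype.sum_bool, Fintype.sum_bool]
    unfold cnl_g
    by_cases k1 : a ≤ b <;> by_cases k2 : a + 2 ≤ b <;> by_cases k3 : a + 3 ≤ b <;>
      simp [k1, k2, k3]
  rw [Finset.sum_congr rfl fun a _ => h1 a]
  symm
  apply Finset.sum_subset
  · intro a ha
    rw [Finset.mem_range] at ha ⊢
    omega
  · intro a _ ha
    rw [Finset.mem_range] at ha
    unfold cnl_g
    rw [if_neg (by omega)]

/-- the set with the parameters `x` -/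
private def cnl_F {n : ℕ} (x : (ℕ × ℕ) × (Bool × Bool)) : Set (Fin n) :=
  {k | (k : ℕ) = x.1.2 ∨ (k : ℕ) = x.1.1 ∨ (x.2.1 = true ∧ (k : ℕ) = x.1.2 + 1) ∨
    (x.2.2 = true ∧ (k : ℕ) + 1 = x.1.1)}

private theorem cnl_inj {n : ℕ} : Set.InjOn (cnl_F (n := n)) (cnl_T n) := by
  rintro ⟨⟨b, a⟩, e1, e2⟩ hx ⟨⟨b', a'⟩, e1', e2'⟩ hy h
  rw [Finset.mem_coe, cnl_mem] at hx hy
  simp only at hx hy
  obtain ⟨⟨x1, x2⟩, x3, x4, x5⟩ := hx
  obtain ⟨⟨y1, y2⟩, y3, y4, y5⟩ := hy
  have key : ∀ k : Fin n, ((k : ℕ) = a ∨ (k : ℕ) = b ∨ (e1 = true ∧ (k : ℕ) = a + 1) ∨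
      (e2 = true ∧ (k : ℕ) + 1 = b)) ↔ ((k : ℕ) = a' ∨ (k : ℕ) = b' ∨
      (e1' = true ∧ (k : ℕ) = a' + 1) ∨ (e2' = true ∧ (k : ℕ) + 1 = b')) := by
    intro k
    exact (Set.ext_iff.1 h k)
  have ka : a' ≤ a := by
    rcases (key ⟨a, x2⟩).1 (Or.inl rfl) with q | q | ⟨_, q⟩ | ⟨q', q⟩
    · simp only at q; omega
    · simp only at q; omega
    · simp only at q; omega
    · have := y5 q'; simp only at q; omega
  have ka' : a ≤ a' := by
    rcases (key ⟨a', y2⟩).2 (Or.inl rfl) with q | q | ⟨_, q⟩ | ⟨q', q⟩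
    · simp only at q; omega
    · simp only at q; omega
    · simp only at q; omega
    · have := x5 q'; simp only at q; omega
  have kb : b ≤ b' := by
    rcases (key ⟨b, x1⟩).1 (Or.inr (Or.inl rfl)) with q | q | ⟨q', q⟩ | ⟨q', q⟩
    · simp only at q; omega
    · simp only at q; omega
    · have := y4 q'; simp only at q; omega
    · simp only at q; omega
  have kb' : b' ≤ b := by
    rcases (key ⟨b', y1⟩).2 (Or.inr (Or.inl rfl)) with q | q | ⟨q', q⟩ | ⟨q', q⟩
    · simp only at q; omega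
    · simp only at q; omega
    · have := x4 q'; simp only at q; omega
    · simp only at q; omega
  obtain rfl : a = a' := le_antisymm ka' ka
  obtain rfl : b = b' := le_antisymm kb kb'
  have s1 : e1 = true → e1' = true := by
    intro q0
    have q1 := x4 q0
    rcases (key ⟨a + 1, by omega⟩).1 (Or.inr (Or.inr (Or.inl ⟨q0, rfl⟩))) with
      q | q | ⟨q', _⟩ | ⟨q', q⟩
    · simp only at q; omega
    · simp only at q; omega
    · exact q'
    · have := y5 q'; simp only at q; omega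
  have s1' : e1' = true → e1 = true := by
    intro q0
    have q1 := y4 q0
    rcases (key ⟨a + 1, by omega⟩).2 (Or.inr (Or.inr (Or.inl ⟨q0, rfl⟩))) with
      q | q | ⟨q', _⟩ | ⟨q', q⟩
    · simp only at q; omega
    · simp only at q; omega
    · exact q'
    · have := x5 q'; simp only at q; omega
  have s2 : e2 = true → e2' = true := by
    intro q0
    have q1 := x5 q0
    rcases (key ⟨b - 1, by omega⟩).1 (Or.inr (Or.inr (Or.inr ⟨q0, by simp only; omega⟩))) with
      q | q | ⟨_, q⟩ | ⟨q', _⟩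
    · simp only at q; omega
    · simp only at q; omega
    · simp only at q; omega
    · exact q'
  have s2' : e2' = true → e2 = true := by
    intro q0
    have q1 := y5 q0
    rcases (key ⟨b - 1, by omega⟩).2 (Or.inr (Or.inr (Or.inr ⟨q0, by simp only; omega⟩))) with
      q | q | ⟨_, q⟩ | ⟨q', _⟩
    · simp only at q; omega
    · simp only at q; omega
    · simp only at q; omega
    · exact q'
  rw [Bool.eq_iff_iff.2 ⟨s1, s1'⟩, Bool.eq_iff_iff.2 ⟨s2, s2'⟩]

/-- The elements of `Gale n` are, without repetition: `{a}` (`n`), `{a, b}` with `a < b` (`n.choose 2`), `{a, a + 1, b}` with `a + 1 < b` (`(n - 1).choose 2`), `{a, b - 1, b}` with `a + 2 < b` (`(n - 2).choose 2`), `{a, a + 1, b - 1, b}` with `a + 2 < b` (`(n - 2).choose 2`). Or: for `a ≤ b` there are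
`1, 1, 2, 4, 4, ..` sets for `b - a = 0, 1, 2, 3, ..`. -/
theorem cnl {n : ℕ} (hn : 2 ≤ n) : (Gale n).ncard = 2 * n ^ 2 + 7 - 6 * n := by
  classical
  obtain ⟨m, rfl⟩ : ∃ m, n = m + 2 := ⟨n - 2, by omega⟩
  have h : Gale (m + 2) = cnl_F '' (cnl_T (m + 2) : Set ((ℕ × ℕ) × (Bool × Bool))) := by
    ext S
    constructor
    · rintro ⟨a, ha, b, hb, hk⟩
      refine ⟨((b, a), (decide ((a : ℕ) + 2 ≤ b ∧ ∃ k ∈ S, (k : ℕ) = a + 1),
        decide ((a : ℕ) + 3 ≤ b ∧ ∃ k ∈ S, (k : ℕ) + 1 = b))), ?_, ?_⟩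
      · rw [Finset.mem_coe, cnl_mem]
        refine ⟨⟨b.2, a.2⟩, (hk a ha).2.1, ?_, ?_⟩
        · intro h
          exact (of_decide_eq_true h).1
        · intro h
          exact (of_decide_eq_true h).1
      · ext k
        constructor
        · rintro (h | h | ⟨h, h'⟩ | ⟨h, h'⟩)
          · rwa [show k = a from Fin.ext h]
          · rwa [show k = b from Fin.ext h]
          · obtain ⟨-, l, hl, hl'⟩ := of_decide_eq_true h
            have h'' : (k : ℕ) = a + 1 := h'
            rwa [show k = l from Fin.ext (by omega)]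
          · obtain ⟨-, l, hl, hl'⟩ := of_decide_eq_true h
            have h'' : (k : ℕ) + 1 = b := h'
            rwa [show k = l from Fin.ext (by omega)]
        · intro hkS
          obtain ⟨q1, q2, q3⟩ := hk k hkS
          have q1' : (a : ℕ) ≤ k := q1
          have q2' : (k : ℕ) ≤ b := q2
          by_cases r1 : (k : ℕ) = a
          · exact Or.inl r1
          by_cases r2 : (k : ℕ) = b
          · exact Or.inr (Or.inl r2)
          by_cases r3 : (k : ℕ) = a + 1
          · exact Or.inr (Or.inr (Or.inl ⟨decide_eq_true ⟨by omega, k, hkS, r3⟩, r3⟩))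
          · have r4 : (k : ℕ) + 1 = b := by omega
            exact Or.inr (Or.inr (Or.inr ⟨decide_eq_true ⟨by omega, k, hkS, r4⟩, r4⟩))
    · rintro ⟨⟨⟨b, a⟩, e1, e2⟩, hx, rfl⟩
      rw [Finset.mem_coe, cnl_mem] at hx
      simp only at hx
      obtain ⟨⟨x1, x2⟩, x3, x4, x5⟩ := hx
      refine ⟨⟨a, x2⟩, Or.inl rfl, ⟨b, x1⟩, Or.inr (Or.inl rfl), ?_⟩
      rintro k (h | h | ⟨h, h'⟩ | ⟨h, h'⟩)
      · simp only at h
        refine ⟨?_, ?_, Or.inl ?_⟩
        · rw [Fin.le_def]; simp only; omega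
        · rw [Fin.le_def]; simp only; omega
        · simp only; omega
      · simp only at h
        refine ⟨?_, ?_, Or.inr ?_⟩
        · rw [Fin.le_def]; simp only; omega
        · rw [Fin.le_def]; simp only; omega
        · simp only; omega
      · have := x4 h
        simp only at h'
        refine ⟨?_, ?_, Or.inl ?_⟩
        · rw [Fin.le_def]; simp only; omega
        · rw [Fin.le_def]; simp only; omega
        · simp only; omega
      · have := x5 h
        simp only at h'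
        refine ⟨?_, ?_, Or.inr ?_⟩
        · rw [Fin.le_def]; simp only; omega
        · rw [Fin.le_def]; simp only; omega
        · simp only; omega
  rw [h, cnl_inj.ncard_image, Set.ncard_coe_finset, cnl_card]
-- END cnl

-- BEGIN prm
/-- Reindexing does not change the faces: `Near (u ∘ σ) (p ∘ σ) x = σ ⁻¹' Near u p x`, so the conditions `Near y = Near x` are the same. -/
theorem prm {n : ℕ} (u p : Fin n → E) (σ : Equiv.Perm (Fin n)) : Faces (u ∘ σ) (p ∘ σ) = Faces u p := by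
  have h : ∀ x, Near (u ∘ σ) (p ∘ σ) x = σ ⁻¹' Near u p x := by
    intro x
    ext i
    constructor
    · intro hi j
      have h1 := hi (σ.symm j)
      simpa using h1
    · intro hi j
      exact hi (σ j)
  have h2 : ∀ x y, Near (u ∘ σ) (p ∘ σ) y = Near (u ∘ σ) (p ∘ σ) x ↔ Near u p y = Near u p x := by
    intro x y
    rw [h, h]
    exact σ.surjective.preimage_injective.eq_iff
  unfold Faces
  ext f
  show (∃ x, f = connectedComponentIn {y | Near (u ∘ σ) (p ∘ σ) y = Near (u ∘ σ) (p ∘ σ) x} x) ↔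
    ∃ x, f = connectedComponentIn {y | Near u p y = Near u p x} x
  simp only [h2]
-- END prm

-- BEGIN exa
/-- As `mai`, with `fce`: `A` = the labels of the points of the axis, `2 n - 1` by `axs`. -/
theorem exa {n : ℕ} (hn : 0 < n) (b w : E) (hw : ‖w‖ = 1) {t : Fin n → ℝ} (ht : StrictMono t) (v : Fin n → E)
    (hv : ∀ i, v i ≠ 0 ∧ inner ℝ (v i) w = 0) :
    (Faces v (fun i => b + t i • w)).encard + ((2 * n - 1 : ℕ) : ℕ∞) =
      ((2 * (Set.range (Near v (fun i => b + t i • w))).ncard : ℕ) : ℕ∞) := by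
  classical
  obtain ⟨φ, hφ⟩ := crd b w hw
  choose κ hκ using fun i => hφ (v i) (hv i).1 (hv i).2
  have hnear : ∀ p, Near v (fun i => b + t i • w) p = Mn t κ ((φ p).1, (φ p).2 ^ 2) := by
    intro p
    ext i
    constructor
    · intro h j
      have h1 := pow_le_pow_left₀ Metric.infDist_nonneg (h j) 2
      simp only [hκ] at h1
      unfold Lf
      linarith
    · intro h j
      have h1 := h j
      unfold Lf at h1
      have h2 : Metric.infDist p (line (b + t i • w) (v i)) ^ 2 ≤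
          Metric.infDist p (line (b + t j • w) (v j)) ^ 2 := by
        rw [hκ, hκ]
        linarith
      exact (pow_le_pow_iff_left₀ Metric.infDist_nonneg Metric.infDist_nonneg (by norm_num)).1 h2
  have hfin : (Set.range (Near v (fun i => b + t i • w))).Finite := Set.toFinite _
  set A : Set (Set (Fin n)) := Set.range (fun x : ℝ => Mn t κ (x, 0)) with hA
  have hax : ∀ x : ℝ, Mn t κ (x, 0) = {i : Fin n | ∀ j, (x - t i) ^ 2 ≤ (x - t j) ^ 2} := by
    intro x
    ext i
    constructor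
    · intro h j
      have h1 := h j
      simp only [Lf, zero_mul, Complex.zero_re] at h1
      nlinarith
    · intro h j
      have h1 : (x - t i) ^ 2 ≤ (x - t j) ^ 2 := h j
      simp only [Lf, zero_mul, Complex.zero_re]
      nlinarith
  have hAc : A.ncard = 2 * n - 1 := by
    rw [hA, ← axs hn ht]
    congr 1
    congr 1
    exact funext hax
  have hAs : A ⊆ Set.range (Near v (fun i => b + t i • w)) := by
    rintro _ ⟨x, rfl⟩
    refine ⟨φ.symm (x, 0), ?_⟩
    rw [hnear, Homeomorph.apply_symm_apply]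
    simp
  have hset : ∀ S : Set (Fin n), {y | Near v (fun i => b + t i • w) y = S} =
      φ ⁻¹' {q : ℝ × ℂ | (q.1, q.2 ^ 2) ∈ {q : ℝ × ℂ | Mn t κ q = S}} := by
    intro S
    ext y
    simp only [Set.mem_ofPred_eq, Set.mem_preimage]
    rw [hnear y]
  have key := fce (Near v (fun i => b + t i • w)) hfin A hAs (fun x hx => by
      obtain ⟨x0, hx0⟩ := hx
      have h1 := cov1 (cvx hn t κ (Near v (fun i => b + t i • w) x)) (x0 := x0) hx0
      rw [hset, ← Homeomorph.image_symm]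
      exact h1.image _ φ.symm.continuous.continuousOn) (fun x hx => by
      set S := Near v (fun i => b + t i • w) x with hS
      have hne : ({q : ℝ × ℂ | Mn t κ q = S}).Nonempty := ⟨_, (hnear x).symm.trans hS.symm⟩
      obtain ⟨w', h1, h2, h3, ⟨q, hq1, hq2⟩, ⟨q', hq1', hq2'⟩⟩ :=
        cov3 (cvx hn t κ S) hne (fun x0 hx0 => hx ⟨x0, hx0⟩)
      have hmem : ∀ y, Near v (fun i => b + t i • w) y = S ↔
          ((φ y).1, (φ y).2 ^ 2) ∈ {q : ℝ × ℂ | Mn t κ q = S} := by
        intro y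
        simp only [Set.mem_ofPred_eq]
        rw [hnear y]
      refine ⟨fun y => (w' * (φ y).2).re, ?_, ?_, ?_, ?_, ?_, ?_⟩
      · exact Complex.continuous_re.comp (continuous_const.mul (continuous_snd.comp φ.continuous))
      · intro y hy
        exact h1 (φ y) ((hmem y).1 hy)
      · have h4 : {y | Near v (fun i => b + t i • w) y = S ∧ 0 < (w' * (φ y).2).re} = φ.symm ''
            {q : ℝ × ℂ | (q.1, q.2 ^ 2) ∈ {q : ℝ × ℂ | Mn t κ q = S} ∧ 0 < (w' * q.2).re} := by
          rw [Homeomorph.image_symm]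
          ext y
          exact and_congr_left fun _ => hmem y
        rw [h4]
        exact h2.image _ φ.symm.continuous.continuousOn
      · have h4 : {y | Near v (fun i => b + t i • w) y = S ∧ (w' * (φ y).2).re < 0} = φ.symm ''
            {q : ℝ × ℂ | (q.1, q.2 ^ 2) ∈ {q : ℝ × ℂ | Mn t κ q = S} ∧ (w' * q.2).re < 0} := by
          rw [Homeomorph.image_symm]
          ext y
          exact and_congr_left fun _ => hmem y
        rw [h4]
        exact h3.image _ φ.symm.continuous.continuousOn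
      · refine ⟨φ.symm q, (hmem _).2 ?_, ?_⟩
        · rw [Homeomorph.apply_symm_apply]
          exact hq1
        · change 0 < (w' * (φ (φ.symm q)).2).re
          rw [Homeomorph.apply_symm_apply]
          exact hq2
      · refine ⟨φ.symm q', (hmem _).2 ?_, ?_⟩
        · rw [Homeomorph.apply_symm_apply]
          exact hq1'
        · change (w' * (φ (φ.symm q')).2).re < 0
          rw [Homeomorph.apply_symm_apply]
          exact hq2')
  rw [hAc] at key
  exact key
-- END exa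

-- BEGIN fin
/-- `exa`, `chr`, `cnl`; `prm` with `Tuple.sort`. -/
theorem fin {n : ℕ} (hn : 2 ≤ n) {t : Fin n → ℝ} (ht : Function.Injective t) :
    (Faces (fun k => (!₂[0, 1, t k] : E)) (fun k => (!₂[t k, 0, 0] : E))).encard =
      ((4 * n ^ 2 + 15 - 14 * n : ℕ) : ℕ∞) := by
  classical
  set σ : Equiv.Perm (Fin n) := Tuple.sort t with hσ
  have hm : StrictMono (t ∘ σ) :=
    (Tuple.monotone_sort t).strictMono_of_injective (ht.comp σ.injective)
  have hp := prm (fun k => (!₂[0, 1, t k] : E)) (fun k => (!₂[t k, 0, 0] : E)) σ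
  rw [← hp]
  have e1 : (fun k => (!₂[0, 1, t k] : E)) ∘ σ = fun k => (!₂[0, 1, (t ∘ σ) k] : E) := rfl
  have e2 : (fun k => (!₂[t k, 0, 0] : E)) ∘ σ = fun k => (!₂[(t ∘ σ) k, 0, 0] : E) := rfl
  rw [e1, e2]
  generalize hs : t ∘ σ = s at hm
  have e3 : (fun k => (!₂[s k, 0, 0] : E)) = fun k => (0 : E) + s k • (!₂[1, 0, 0] : E) := by
    funext k
    ext c
    fin_cases c <;> simp
  have hw : ‖(!₂[1, 0, 0] : E)‖ = 1 := by
    rw [EuclideanSpace.norm_eq]
    simp [Fin.sum_univ_three]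
  have hv : ∀ i, (!₂[0, 1, s i] : E) ≠ 0 ∧ inner ℝ (!₂[0, 1, s i] : E) (!₂[1, 0, 0] : E) = 0 := by
    intro i
    constructor
    · intro h
      have h1 := congrArg (fun z : E => z 1) h
      simp at h1
    · simp [PiLp.inner_apply, Fin.sum_univ_three]
  have h1 := exa (by omega : 0 < n) 0 (!₂[1, 0, 0] : E) hw hm (fun i => (!₂[0, 1, s i] : E)) hv
  rw [← e3, chr (by omega) hm, cnl hn] at h1
  have h2 : (Faces (fun k => (!₂[0, 1, s k] : E)) (fun k => (!₂[s k, 0, 0] : E))).encard ≠ ⊤ := by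
    intro htop
    rw [htop] at h1
    exact absurd h1 (by
      rw [top_add]
      exact (ENat.natCast_ne_top _).symm)
  obtain ⟨N, hN⟩ := ENat.ne_top_iff_exists.1 h2
  rw [← hN] at h1 ⊢
  have h3 : N + (2 * n - 1) = 2 * (2 * n ^ 2 + 7 - 6 * n) := by exact_mod_cast h1
  have h4 : 6 * n ≤ 2 * n ^ 2 + 7 := by nlinarith [sq_nonneg ((n : ℤ) - 2)]
  have h5 : N = 4 * n ^ 2 + 15 - 14 * n := by omega
  rw [h5]
-- END fin

end Pool.Agent.Vcp
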