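import Pool.Agent.Vcp.Poly5
import Pool.Agent.Vrl.Det

/-!
# Minimisation diagrams of quadratic polynomials which span a space of dimension at most five

In arbitrary position the diagram of `n` such polynomials in three variables has at most a constant
times `n ^ 2` faces.
-/

set_option autoImplicit false

namespace Pool.Agent.Vcp

open Set MvPolynomial Vor Vrl

-- BEGIN gth
/-- `Vcp5.tht` with `c = 0`, `ε = ε₀ / 2`; the new `θ i` is `0 + ε * θ i`. -/
theorem gth {ι : Type} [Fintype ι] (R : ι → Vcp5.W) : ∃ θ : ι → ℝ, (∀ i, 0 < θ i) ∧ Vcp5.Gen R θ := by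
  obtain ⟨θ, h1, h2⟩ := Vcp5.tht R
  obtain ⟨ε₀, h3, h4⟩ := h2 (fun _ => 0)
  refine ⟨fun i => 0 + ε₀ / 2 * θ i, fun i => ?_, h4 (ε₀ / 2) (half_pos h3) (half_lt_self h3)⟩
  have h5 := mul_pos (half_pos h3) (h1 i)
  show 0 < 0 + ε₀ / 2 * θ i
  linarith
-- END gth

-- BEGIN glo
/-- As in the proof of `Vcp5.loc` (row loc of Poly5): `Vcp5.ext` for the subtype `S = {s | inner (R s) Z0 = 0}` with the functions `R`, `θ` and the point `0` gives `Y0` with `0 ≤ inner (R s) Y0 + θ s` on `S`, and `T = {s ∈ S | inner (R s) Y0 + θ s = 0}` spans. Then `Y = Y0 - r • Z0`,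
which has the same values on `S`, and `r` so large that the values for the finitely many `s ∉ S` are negative (`0 < inner (R s) Z0`). -/
theorem glo {ι : Type} [Fintype ι] {R : ι → Vcp5.W} {θ : ι → ℝ} (hθ : ∀ i, 0 < θ i) {Z0 : Vcp5.W}
    (hZ : ∀ i, 0 ≤ inner ℝ (R i) Z0) :
    ∃ (T : Set ι) (Y : Vcp5.W), (∀ s ∈ T, inner ℝ (R s) Z0 = 0) ∧
      (∀ s, inner ℝ (R s) Z0 = 0 → R s ∈ Submodule.span ℝ (R '' T)) ∧
      (∀ s ∈ T, inner ℝ (R s) Y + θ s = 0) ∧
      (∀ s, inner ℝ (R s) Z0 = 0 → 0 ≤ inner ℝ (R s) Y + θ s) ∧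
      ∀ s, inner ℝ (R s) Z0 ≠ 0 → inner ℝ (R s) Y + θ s < 0 := by
  classical
  obtain ⟨Y0, hY0, _, hsp⟩ := Vcp5.ext (ι := {s : ι // inner ℝ (R s) Z0 = 0}) (R := fun s => R s)
    (c := fun s => θ s) (Z := 0) (fun s => by rw [inner_zero_right, zero_add]; exact (hθ s).le)
  have hval : ∀ (r : ℝ) (s : ι), inner ℝ (R s) (Y0 - r • Z0) + θ s =
      inner ℝ (R s) Y0 + θ s - r * inner ℝ (R s) Z0 := by
    intro r s
    rw [inner_sub_right, inner_smul_right]
    ring
  obtain ⟨r, hr⟩ : ∃ r : ℝ, ∀ s, inner ℝ (R s) Z0 ≠ 0 →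
      inner ℝ (R s) Y0 + θ s - r * inner ℝ (R s) Z0 < 0 := by
    have hev : ∀ᶠ r : ℝ in Filter.atTop, ∀ s, inner ℝ (R s) Z0 ≠ 0 →
        inner ℝ (R s) Y0 + θ s - r * inner ℝ (R s) Z0 < 0 := by
      rw [Filter.eventually_all]
      intro s
      by_cases hs : inner ℝ (R s) Z0 = 0
      · exact Filter.Eventually.of_forall fun r h => absurd hs h
      · have hpos : 0 < inner ℝ (R s) Z0 := lt_of_le_of_ne (hZ s) (Ne.symm hs)
        filter_upwards [Filter.eventually_gt_atTop ((inner ℝ (R s) Y0 + θ s) / inner ℝ (R s) Z0)] with r h _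
        rw [div_lt_iff₀ hpos] at h
        linarith
    exact hev.exists
  refine ⟨Subtype.val '' Vcp5.Act (fun s : {s : ι // inner ℝ (R s) Z0 = 0} => R s) (fun s => θ s) Y0,
    Y0 - r • Z0, ?_, ?_, ?_, ?_, ?_⟩
  · rintro _ ⟨s, _, rfl⟩
    exact s.2
  · intro s hs
    have h1 := hsp ⟨s, hs⟩
    rw [Set.image_image]
    exact h1
  · rintro _ ⟨s, hs, rfl⟩
    have h1 : inner ℝ (R s) Y0 + θ s = 0 := hs
    rw [hval, h1, s.2]
    ring
  · intro s hs
    have h1 : 0 ≤ inner ℝ (R s) Y0 + θ s := hY0 ⟨s, hs⟩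
    rw [hval, hs]
    linarith
  · intro s hs
    rw [hval]
    exact hr s hs
-- END glo

-- BEGIN gco
private theorem gco_one {n : ℕ} (Q : Fin n → MvPolynomial (Fin 3) ℝ) (S T : Set (Fin n)) (i : Fin n)
    (b : Fin n → ℝ) (B : Set (Fin 3 → ℝ)) (hB : IsCompact B) (M : Finset (Fin n)) :
    ∃ η : ℝ, 0 < η ∧ ∀ z : Fin 3 → ℝ, z ∈ B →
      (∀ t ∈ T, |eval z (Q t) - eval z (Q i)| ≤ η) → (∀ k, k ∉ S → b k - η ≤ eval z (Q k) - eval z (Q i)) →
      (∀ k ∈ M, k ∈ T ∨ (k ∉ S ∧ |eval z (Q k) - eval z (Q i) - b k| ≤ η)) →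
      ∃ z' : Fin 3 → ℝ, (∀ t ∈ T, eval z' (Q t) - eval z' (Q i) = 0) ∧
        (∀ k, k ∉ S → b k ≤ eval z' (Q k) - eval z' (Q i)) ∧
        ∀ k ∈ M, k ∈ T ∨ (k ∉ S ∧ eval z' (Q k) - eval z' (Q i) = b k) := by
  classical
  by_cases hex : ∃ z' : Fin 3 → ℝ, (∀ t ∈ T, eval z' (Q t) - eval z' (Q i) = 0) ∧
        (∀ k, k ∉ S → b k ≤ eval z' (Q k) - eval z' (Q i)) ∧
        ∀ k ∈ M, k ∈ T ∨ (k ∉ S ∧ eval z' (Q k) - eval z' (Q i) = b k)
  · exact ⟨1, one_pos, fun _ _ _ _ _ => hex⟩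
  by_cases hM : ∀ k ∈ M, k ∈ T ∨ k ∉ S
  swap
  · rw [not_forall] at hM
    obtain ⟨k, hk⟩ := hM
    rw [Classical.not_imp, not_or] at hk
    refine ⟨1, one_pos, fun z _ _ _ h => ?_⟩
    rcases h k hk.1 with h | h
    · exact absurd h hk.2.1
    · exact absurd h.1 hk.2.2
  rcases B.eq_empty_or_nonempty with rfl | hne
  · exact ⟨1, one_pos, fun z hz => absurd hz (Set.notMem_empty z)⟩
  -- the sum of all defects
  let g1 : Fin n → (Fin 3 → ℝ) → ℝ := fun k z => if k ∈ T then |eval z (Q k) - eval z (Q i)| else 0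
  let g2 : Fin n → (Fin 3 → ℝ) → ℝ := fun k z =>
    if k ∉ S then max 0 (b k - (eval z (Q k) - eval z (Q i))) else 0
  let g3 : Fin n → (Fin 3 → ℝ) → ℝ := fun k z =>
    if k ∈ M ∧ k ∉ T then |eval z (Q k) - eval z (Q i) - b k| else 0
  have hev : ∀ k, Continuous fun z : Fin 3 → ℝ => eval z (Q k) := fun k =>
    MvPolynomial.continuous_eval (Q k)
  have hc1 : ∀ k, Continuous (g1 k) := by
    intro k
    by_cases h : k ∈ T
    · simp only [g1, if_pos h]
      exact ((hev k).sub (hev i)).abs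
    · simp only [g1, if_neg h]
      exact continuous_const
  have hc2 : ∀ k, Continuous (g2 k) := by
    intro k
    by_cases h : k ∉ S
    · simp only [g2, if_pos h]
      exact continuous_const.max (continuous_const.sub ((hev k).sub (hev i)))
    · simp only [g2, if_neg h]
      exact continuous_const
  have hc3 : ∀ k, Continuous (g3 k) := by
    intro k
    by_cases h : k ∈ M ∧ k ∉ T
    · simp only [g3, if_pos h]
      exact (((hev k).sub (hev i)).sub continuous_const).abs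
    · simp only [g3, if_neg h]
      exact continuous_const
  have h01 : ∀ k z, 0 ≤ g1 k z := by
    intro k z
    simp only [g1]
    split_ifs
    · exact abs_nonneg _
    · exact le_rfl
  have h02 : ∀ k z, 0 ≤ g2 k z := by
    intro k z
    by_cases h : k ∉ S
    · simp only [g2, if_pos h]
      exact le_max_left _ _
    · simp only [g2, if_neg h]
      exact le_rfl
  have h03 : ∀ k z, 0 ≤ g3 k z := by
    intro k z
    simp only [g3]
    split_ifs
    · exact abs_nonneg _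
    · exact le_rfl
  let f : (Fin 3 → ℝ) → ℝ := fun z => ∑ k, (g1 k z + g2 k z + g3 k z)
  have hf : Continuous f := continuous_finsetSum _ fun k _ => ((hc1 k).add (hc2 k)).add (hc3 k)
  have hpos : ∀ z, 0 < f z := by
    intro z
    have hnn : ∀ k ∈ (Finset.univ : Finset (Fin n)), 0 ≤ g1 k z + g2 k z + g3 k z := fun k _ =>
      add_nonneg (add_nonneg (h01 k z) (h02 k z)) (h03 k z)
    refine lt_of_le_of_ne (Finset.sum_nonneg hnn) fun h0 => hex ⟨z, ?_⟩
    have hz : ∀ k, g1 k z + g2 k z + g3 k z = 0 := fun k =>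
      (Finset.sum_eq_zero_iff_of_nonneg hnn).1 h0.symm k (Finset.mem_univ k)
    have hT : ∀ t ∈ T, eval z (Q t) - eval z (Q i) = 0 := by
      intro t ht
      have h1 : g1 t z = 0 := by
        have := hz t; have := h01 t z; have := h02 t z; have := h03 t z
        linarith
      simp only [g1, if_pos ht] at h1
      exact abs_eq_zero.1 h1
    refine ⟨hT, ?_, ?_⟩
    · intro k hk
      have h1 : g2 k z = 0 := by
        have := hz k; have := h01 k z; have := h02 k z; have := h03 k z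
        linarith
      simp only [g2, if_pos hk] at h1
      have h2 := le_max_right 0 (b k - (eval z (Q k) - eval z (Q i)))
      linarith
    · intro k hk
      by_cases hkT : k ∈ T
      · exact Or.inl hkT
      · right
        refine ⟨(hM k hk).resolve_left hkT, ?_⟩
        have h1 : g3 k z = 0 := by
          have := hz k; have := h01 k z; have := h02 k z; have := h03 k z
          linarith
        simp only [g3, if_pos (⟨hk, hkT⟩ : k ∈ M ∧ k ∉ T)] at h1
        have h2 := abs_eq_zero.1 h1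
        linarith
  obtain ⟨y, hy, hmin⟩ := hB.exists_isMinOn hne hf.continuousOn
  have hc : (0 : ℝ) < 3 * n + 1 := by positivity
  refine ⟨f y / (3 * n + 1), div_pos (hpos y) hc, fun z hz h1 h2 h3 => ?_⟩
  exfalso
  have hη : 0 < f y / (3 * n + 1) := div_pos (hpos y) hc
  have h4 : f y ≤ f z := hmin hz
  have h5 : f z ≤ ∑ _k : Fin n, 3 * (f y / (3 * n + 1)) := by
    refine Finset.sum_le_sum fun k _ => ?_
    have e1 : g1 k z ≤ f y / (3 * n + 1) := by
      simp only [g1]
      split_ifs with h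
      · exact h1 k h
      · exact hη.le
    have e2 : g2 k z ≤ f y / (3 * n + 1) := by
      by_cases h : k ∉ S
      · simp only [g2, if_pos h]
        have h6 := h2 k h
        exact max_le hη.le (by linarith)
      · simp only [g2, if_neg h]
        exact hη.le
    have e3 : g3 k z ≤ f y / (3 * n + 1) := by
      simp only [g3]
      split_ifs with h
      · rcases h3 k h.1 with h6 | h6
        · exact absurd h6 h.2
        · exact h6.2
      · exact hη.le
    linarith
  rw [Finset.sum_const, Finset.card_univ, Fintype.card_fin, nsmul_eq_mul] at h5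
  have h7 : (3 * n + 1) * (f y / (3 * n + 1)) = f y := mul_div_cancel₀ _ hc.ne'
  nlinarith

/-- As `Vrl.exists_theta` with `the_one` (row the of Vrl/Det.lean). For one `M` with no such `z'`: the continuous function `∑ t ∈ T, |P t| + ∑ k ∉ S, max 0 (b k - P k) + ∑ k ∈ M \ T, |P k - b k|` (`P k z = eval z (Q k) - eval z (Q i)`) is positive on the compact set `B`; `η` = its minimum divided
by `3 n + 1` (if some `k ∈ M` is neither in `T` nor outside `S`, any `η` will do: the hypothesis is false). Then the minimum over the finitely many `M`. -/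
theorem gco {n : ℕ} (Q : Fin n → MvPolynomial (Fin 3) ℝ) (S T : Set (Fin n)) (i : Fin n) (b : Fin n → ℝ)
    (B : Set (Fin 3 → ℝ)) (hB : IsCompact B) :
    ∃ η : ℝ, 0 < η ∧ ∀ (M : Finset (Fin n)) (z : Fin 3 → ℝ), z ∈ B →
      (∀ t ∈ T, |eval z (Q t) - eval z (Q i)| ≤ η) → (∀ k, k ∉ S → b k - η ≤ eval z (Q k) - eval z (Q i)) →
      (∀ k ∈ M, k ∈ T ∨ (k ∉ S ∧ |eval z (Q k) - eval z (Q i) - b k| ≤ η)) →
      ∃ z' : Fin 3 → ℝ, (∀ t ∈ T, eval z' (Q t) - eval z' (Q i) = 0) ∧
        (∀ k, k ∉ S → b k ≤ eval z' (Q k) - eval z' (Q i)) ∧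
        ∀ k ∈ M, k ∈ T ∨ (k ∉ S ∧ eval z' (Q k) - eval z' (Q i) = b k) := by
  choose η hη using gco_one Q S T i b B hB
  have hne : (Finset.univ : Finset (Finset (Fin n))).Nonempty := ⟨∅, Finset.mem_univ _⟩
  refine ⟨Finset.univ.inf' hne η, (Finset.lt_inf'_iff hne).2 fun M _ => (hη M).1, ?_⟩
  intro M z hz h1 h2 h3
  have h4 : Finset.univ.inf' hne η ≤ η M := Finset.inf'_le η (Finset.mem_univ M)
  refine (hη M).2 z hz (fun t ht => (h1 t ht).trans h4) (fun k hk => ?_) fun k hk => ?_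
  · have := h2 k hk
    linarith
  · rcases h3 k hk with h | h
    · exact Or.inl h
    · exact Or.inr ⟨h.1, h.2.trans h4⟩
-- END gco

-- BEGIN gbc
private abbrev gbc_W (n : ℕ) : Type := (Fin n × Fin 3) ⊕ (Fin 3 × Bool)

/-- the wall functions: `-P_k`, `P_k`, `P_k` and the coordinates -/
private noncomputable def gbc_H {n : ℕ} (Q : Fin n → MvPolynomial (Fin 3) ℝ) (i : Fin n) :
    gbc_W n → MvPolynomial (Fin 3) ℝ
  | Sum.inl (k, t) => if t = 0 then Q i - Q k else Q k - Q i
  | Sum.inr (c, s) => if s = true then -X c else X c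

/-- the walls of the label `S` with the basis `T` -/
private def gbc_w {n : ℕ} (S T : Set (Fin n)) : gbc_W n → Prop
  | Sum.inl (k, t) => (k ∈ T ∧ t ≠ 2) ∨ (k ∉ S ∧ t = 2)
  | Sum.inr _ => True

private theorem gbc_contDiff (P : MvPolynomial (Fin 3) ℝ) :
    ContDiff ℝ 1 (fun z : Fin 3 → ℝ => eval z P) := by
  induction P using MvPolynomial.induction_on with
  | C a =>
    simp only [eval_C]
    exact contDiff_const
  | add p q hp hq =>
    simp only [map_add]
    exact hp.add hq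
  | mul_X p c hp =>
    simp only [map_mul, eval_X]
    exact hp.mul (contDiff_apply ℝ ℝ c)

private theorem gbc_deg {n : ℕ} {Q : Fin n → MvPolynomial (Fin 3) ℝ}
    (hQ : ∀ m, (Q m).totalDegree ≤ 2) (i : Fin n) (w : gbc_W n) : (gbc_H Q i w).totalDegree ≤ 2 := by
  rcases w with ⟨k, t⟩ | ⟨c, s⟩
  · simp only [gbc_H]
    split_ifs
    · exact (totalDegree_sub _ _).trans (max_le (hQ _) (hQ _))
    · exact (totalDegree_sub _ _).trans (max_le (hQ _) (hQ _))
  · simp only [gbc_H]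
    split_ifs
    · rw [totalDegree_neg, totalDegree_X]
      norm_num
    · rw [totalDegree_X]
      norm_num

/-- Adaptation of `Vrl.base_count` (row bas of Vrl/Det.lean) for one label `S`. -/
theorem gbc {n : ℕ} (Q : Fin n → MvPolynomial (Fin 3) ℝ) (hQ : ∀ m, (Q m).totalDegree ≤ 2)
    (S T : Set (Fin n)) (i : Fin n) (hi : i ∈ T) (hTS : T ⊆ S) (K : ℝ)
    (hK : ∀ (z : Fin 3 → ℝ) (η : ℝ), (∀ t ∈ T, |eval z (Q t) - eval z (Q i)| ≤ η) →
      ∀ k ∈ S, |eval z (Q k) - eval z (Q i)| ≤ K * η) (β : Fin n → ℝ) (hβ : ∀ k, k ∉ S → 0 < β k)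
    (F : Finset (Fin 3 → ℝ)) (hF : ∀ x ∈ F, Arg Q x = S)
    (hsep : ∀ x ∈ F, ∀ y ∈ F, x ≠ y → y ∉ connectedComponentIn {z | Arg Q z = S} x)
    (G : Finset (Finset (Fin n)))
    (hG : ∀ (M : Finset (Fin n)) (ε : ℝ) (z : Fin 3 → ℝ), M.card ≤ 3 → 0 < ε →
      (∀ t ∈ T, eval z (Q t) - eval z (Q i) = 0) → (∀ k, k ∉ S → ε * β k ≤ eval z (Q k) - eval z (Q i)) →
      (∀ k ∈ M, k ∈ T ∨ (k ∉ S ∧ eval z (Q k) - eval z (Q i) = ε * β k)) → M ∈ G) :
    F.card ≤ 157 ^ 3 * 2 ^ 15 * G.card := by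
  classical
  have hiS : i ∈ S := hTS hi
  set P : Fin n → (Fin 3 → ℝ) → ℝ := fun k z => eval z (Q k) - eval z (Q i) with hPd
  have hiA : ∀ x ∈ F, i ∈ Arg Q x := fun x hx => by
    rw [hF x hx]
    exact hiS
  have hP0 : ∀ x ∈ F, ∀ k, 0 ≤ P k x := fun x hx k => sub_nonneg.2 (hiA x hx k)
  have hPA : ∀ x ∈ F, ∀ k, k ∈ S ↔ P k x = 0 := by
    intro x hx k
    rw [← hF x hx]
    constructor
    · intro hk
      exact sub_eq_zero.2 (le_antisymm (hk i) (hiA x hx k))
    · intro hk j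
      have : eval x (Q k) = eval x (Q i) := sub_eq_zero.1 hk
      rw [this]
      exact hiA x hx j
  obtain ⟨K', hK'1, hK'⟩ : ∃ K' : ℝ, 1 ≤ K' ∧ ∀ (z : Fin 3 → ℝ) (η : ℝ), 0 ≤ η →
      (∀ t ∈ T, |P t z| ≤ η) → ∀ k ∈ S, |P k z| ≤ K' * η :=
    ⟨max K 1, le_max_right _ _, fun z η hη h k hk =>
      (hK z η h k hk).trans (mul_le_mul_of_nonneg_right (le_max_left _ _) hη)⟩
  obtain ⟨ρ, hρ⟩ : ∃ ρ : ℝ, ∀ x ∈ F, ∀ c, |x c| ≤ ρ := by
    refine ⟨∑ x ∈ F, ∑ c, |x c|, fun x hx c => ?_⟩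
    calc |x c| ≤ ∑ c, |x c| :=
          Finset.single_le_sum (f := fun c => |x c|) (fun c _ => abs_nonneg _) (Finset.mem_univ c)
      _ ≤ ∑ x ∈ F, ∑ c, |x c| :=
          Finset.single_le_sum (f := fun x : Fin 3 → ℝ => ∑ c, |x c|)
            (fun x _ => Finset.sum_nonneg fun c _ => abs_nonneg _) hx
  set B : Set (Fin 3 → ℝ) := Set.Icc (fun _ => -(ρ + 1)) (fun _ => ρ + 1) with hBd
  have hB : IsCompact B := isCompact_Icc
  obtain ⟨δ1, hδ1, hFδ1⟩ : ∃ δ1 : ℝ, 0 < δ1 ∧ ∀ x ∈ F, ∀ k, k ∉ S → δ1 ≤ P k x := by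
    have e1 : ∀ᶠ δ : ℝ in nhdsWithin 0 (Set.Ioi 0), ∀ x ∈ F, ∀ k, k ∉ S → δ ≤ P k x := by
      rw [Filter.eventually_all_finset]
      intro x hx
      rw [Filter.eventually_all]
      intro k
      by_cases hk : k ∈ S
      · exact Filter.Eventually.of_forall fun δ h => absurd hk h
      · have hpos : 0 < P k x := lt_of_le_of_ne (hP0 x hx k) (fun h => hk ((hPA x hx k).2 h.symm))
        have : ∀ᶠ δ : ℝ in nhdsWithin 0 (Set.Ioi 0), δ < P k x :=
          (eventually_lt_nhds hpos).filter_mono nhdsWithin_le_nhds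
        filter_upwards [this] with δ hδ _
        exact hδ.le
    obtain ⟨δ, h1, h2⟩ := (e1.and self_mem_nhdsWithin).exists
    exact ⟨δ, h2, h1⟩
  obtain ⟨ε, hε, hεβ⟩ : ∃ ε : ℝ, 0 < ε ∧ ∀ k, k ∉ S → ε * β k ≤ δ1 / 2 := by
    have hs : 0 ≤ ∑ k, |β k| := Finset.sum_nonneg fun k _ => abs_nonneg _
    have hs1 : 0 < 1 + ∑ k, |β k| := by linarith
    refine ⟨δ1 / 2 / (1 + ∑ k, |β k|), by positivity, fun k _ => ?_⟩
    have h1 : β k ≤ 1 + ∑ k, |β k| := by
      have h2 : |β k| ≤ ∑ k, |β k| := Finset.single_le_sum (f := fun k => |β k|)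
        (fun k _ => abs_nonneg _) (Finset.mem_univ k)
      have h3 := le_abs_self (β k)
      linarith
    rw [div_mul_eq_mul_div, div_le_iff₀ hs1]
    exact mul_le_mul_of_nonneg_left h1 (by linarith)
  obtain ⟨bm, hbm, hbmβ⟩ : ∃ bm : ℝ, 0 < bm ∧ ∀ k, k ∉ S → bm ≤ ε * β k := by
    have e1 : ∀ᶠ δ : ℝ in nhdsWithin 0 (Set.Ioi 0), ∀ k, k ∉ S → δ ≤ ε * β k := by
      rw [Filter.eventually_all]
      intro k
      by_cases hk : k ∈ S
      · exact Filter.Eventually.of_forall fun δ h => absurd hk h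
      · have hpos : 0 < ε * β k := mul_pos hε (hβ k hk)
        have : ∀ᶠ δ : ℝ in nhdsWithin 0 (Set.Ioi 0), δ < ε * β k :=
          (eventually_lt_nhds hpos).filter_mono nhdsWithin_le_nhds
        filter_upwards [this] with δ hδ _
        exact hδ.le
    obtain ⟨δ, h1, h2⟩ := (e1.and self_mem_nhdsWithin).exists
    exact ⟨δ, h2, h1⟩
  obtain ⟨η, hη, hlab⟩ := gco Q S T i (fun k => ε * β k) B hB
  obtain ⟨ε0, hε0, heps⟩ := exists_eps Q i F hiA (ρ := ρ + 1) (δ := bm) hbm
    (fun x hx c => (hρ x hx c).trans (by linarith))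
    (fun x hx k hk => by
      rw [hF x hx] at hk
      have h1 := hbmβ k hk
      have h2 := hεβ k hk
      have h3 : δ1 ≤ eval x (Q k) - eval x (Q i) := hFδ1 x hx k hk
      linarith)
    (fun x hx y hy hxy _ => by
      rw [hF x hx]
      exact hsep x hx y hy hxy)
  have hK'0 : 0 < K' := by linarith
  obtain ⟨σ, hσ, hσ1, hσ2⟩ : ∃ σ : ℝ, 0 < σ ∧ K' * σ ≤ ε0 ∧ σ ≤ η := by
    refine ⟨min (ε0 / K') η, lt_min (div_pos hε0 hK'0) hη, ?_, min_le_right _ _⟩
    calc K' * min (ε0 / K') η ≤ K' * (ε0 / K') := mul_le_mul_of_nonneg_left (min_le_left _ _) hK'0.le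
      _ = ε0 := mul_div_cancel₀ _ hK'0.ne'
  obtain ⟨σ', hσ', hσ'1, hσ'2⟩ : ∃ σ' : ℝ, 0 < σ' ∧ σ' ≤ δ1 / 2 ∧ σ' ≤ η :=
    ⟨min (δ1 / 2) η, lt_min (by linarith) hη, min_le_left _ _, min_le_right _ _⟩
  set lo : gbc_W n → ℝ := fun w => Sum.elim (fun p => if p.2 = (2 : Fin 3) then ε * β p.1 else -σ)
    (fun _ => -(ρ + 1)) w with hlo
  set hi' : gbc_W n → ℝ := fun w => Sum.elim (fun p => if p.2 = (2 : Fin 3) then ε * β p.1 + σ' else 0)
    (fun _ => -ρ) w with hhi
  have hlohi : ∀ w, lo w < hi' w := by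
    rintro (⟨k, t⟩ | ⟨c, s⟩)
    · simp only [hlo, hhi, Sum.elim_inl]
      split_ifs <;> linarith
    · simp only [hlo, hhi, Sum.elim_inr]
      linarith
  obtain ⟨t, htO, hgen⟩ := exists_generic (fun (w : gbc_W n) z => eval z (gbc_H Q i w))
    (fun w => gbc_contDiff _) B hB (Set.univ.pi fun w => Set.Ioo (lo w) (hi' w))
    (isOpen_set_pi Set.finite_univ fun w _ => isOpen_Ioo)
    ⟨fun w => (lo w + hi' w) / 2, fun w _ => ⟨by have := hlohi w; linarith,
      by have := hlohi w; linarith⟩⟩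
  have ht : ∀ w, lo w < t w ∧ t w < hi' w := fun w => htO w (Set.mem_univ w)
  have ht01 : ∀ k (r : Fin 3), r ≠ 2 → -σ < t (Sum.inl (k, r)) ∧ t (Sum.inl (k, r)) < 0 := by
    intro k r hr
    have := ht (Sum.inl (k, r))
    simp only [hlo, hhi, Sum.elim_inl, if_neg hr] at this
    exact this
  have ht2 : ∀ k, ε * β k < t (Sum.inl (k, 2)) ∧ t (Sum.inl (k, 2)) < ε * β k + σ' := by
    intro k
    have := ht (Sum.inl (k, 2))
    simp only [hlo, hhi, Sum.elim_inl, if_true] at this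
    exact this
  have htb : ∀ p, -(ρ + 1) < t (Sum.inr p) ∧ t (Sum.inr p) < -ρ := by
    intro p
    have := ht (Sum.inr p)
    simp only [hlo, hhi, Sum.elim_inr] at this
    exact this
  set A : Finset (gbc_W n) := Finset.univ.map Function.Embedding.inr with hA
  have hAm : ∀ p, (Sum.inr p : gbc_W n) ∈ A := fun p =>
    Finset.mem_map.2 ⟨p, Finset.mem_univ p, rfl⟩
  have hAc : A.card ≤ 6 := by
    rw [hA, Finset.card_map]
    simp
  set Bt : Set (Fin 3 → ℝ) := {y | ∀ w ∈ A, t w ≤ eval y (gbc_H Q i w)} with hBt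
  have hBtc : ∀ y ∈ Bt, ∀ c, |y c| ≤ ρ + 1 := by
    intro y hy c
    have h1 := hy (Sum.inr (c, false)) (hAm _)
    have h2 := hy (Sum.inr (c, true)) (hAm _)
    simp only [gbc_H, if_true, eval_X, map_neg] at h1 h2
    rw [if_neg (by decide), eval_X] at h1
    have h3 := (htb (c, false)).1
    have h4 := (htb (c, true)).1
    exact abs_le.2 ⟨by linarith, by linarith⟩
  have hBtB : Bt ⊆ B := fun y hy =>
    ⟨fun c => (abs_le.1 (hBtc y hy c)).1, fun c => (abs_le.1 (hBtc y hy c)).2⟩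
  have hBtC : IsCompact Bt := by
    refine hB.of_isClosed_subset ?_ hBtB
    have : Bt = ⋂ w ∈ A, {y | t w ≤ eval y (gbc_H Q i w)} := by
      ext y
      simp [hBt]
    rw [this]
    exact isClosed_biInter fun w _ => isClosed_le continuous_const (continuous_eval _)
  have hFBt : ∀ x ∈ F, x ∈ Bt := by
    intro x hx w hw
    obtain ⟨⟨c, s⟩, _, rfl⟩ := Finset.mem_map.1 hw
    have h1 := abs_le.1 (hρ x hx c)
    have h2 := (htb (c, s)).2
    change t (Sum.inr (c, s)) ≤ eval x (gbc_H Q i (Sum.inr (c, s)))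
    simp only [gbc_H]
    split_ifs
    · rw [map_neg, eval_X]
      linarith [h1.2]
    · rw [eval_X]
      linarith [h1.1]
  have hFw : ∀ x ∈ F, ∀ w : {w // gbc_w S T w}, t w ≤ eval x (gbc_H Q i w) := by
    rintro x hx ⟨w, hw⟩
    rcases w with ⟨k, r⟩ | p
    · change t (Sum.inl (k, r)) ≤ eval x (gbc_H Q i (Sum.inl (k, r)))
      rcases hw with ⟨hk, hr⟩ | ⟨hk, hr⟩
      · have h1 := (ht01 k r hr).2
        have h2 : eval x (Q k) = eval x (Q i) := sub_eq_zero.1 ((hPA x hx k).1 (hTS hk))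
        simp only [gbc_H]
        split_ifs
        · rw [map_sub, h2, sub_self]
          exact h1.le
        · rw [map_sub, h2, sub_self]
          exact h1.le
      · subst hr
        have h1 := (ht2 k).2
        have h2 := hFδ1 x hx k hk
        have h3 := hεβ k hk
        simp only [gbc_H]
        rw [if_neg (by decide), map_sub]
        simp only [hPd] at h2
        linarith
    · exact hFBt x hx _ (hAm p)
  set Rg : Set (Fin 3 → ℝ) := {y | y ∈ Bt ∧ ∀ w : {w // gbc_w S T w}, t w ≤ eval y (gbc_H Q i w)} with hRg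
  have hFR : ∀ x ∈ F, x ∈ Rg := fun x hx => ⟨hFBt x hx, hFw x hx⟩
  have hmax : ∀ x : Fin 3 → ℝ, ∃ z : Fin 3 → ℝ, x ∈ F →
      z ∈ connectedComponentIn Rg x ∧
      connectedComponentIn {y | y ∈ Bt ∧ ∀ w : {w // gbc_w S T w},
        eval z (gbc_H Q i w) = t w → eval y (gbc_H Q i w) = t w} z ⊆ connectedComponentIn Rg x := by
    intro x
    by_cases hx : x ∈ F
    · obtain ⟨z, h1, h2⟩ := exists_max (W := {w // gbc_w S T w})
        (fun w z => eval z (gbc_H Q i w)) (fun w => continuous_eval _) (fun w => t w) Bt hBtC x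
        (hFBt x hx) (hFw x hx)
      exact ⟨z, fun _ => ⟨h1, h2⟩⟩
    · exact ⟨x, fun h => absurd h hx⟩
  choose z hz using hmax
  have hzR : ∀ x ∈ F, z x ∈ Rg := fun x hx => connectedComponentIn_subset _ _ (hz x hx).1
  have hinT : ∀ y ∈ Rg, ∀ k ∈ T, |P k y| ≤ σ := by
    intro y hy k hk
    have h0 := hy.2 ⟨Sum.inl (k, 0), Or.inl ⟨hk, by decide⟩⟩
    have h1 := hy.2 ⟨Sum.inl (k, 1), Or.inl ⟨hk, by decide⟩⟩
    simp only [gbc_H, if_true, map_sub] at h0
    simp only [gbc_H] at h1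
    rw [if_neg (by decide), map_sub] at h1
    have h2 := (ht01 k 0 (by decide)).1
    have h3 := (ht01 k 1 (by decide)).1
    simp only [hPd]
    exact abs_le.2 ⟨by linarith, by linarith⟩
  have hin : ∀ y ∈ Rg, ∀ k ∈ S, |P k y| ≤ ε0 := fun y hy k hk =>
    (hK' y σ hσ.le (hinT y hy) k hk).trans hσ1
  have hout : ∀ y ∈ Rg, ∀ k, k ∉ S → ε * β k < P k y := by
    intro y hy k hk
    have h0 := hy.2 ⟨Sum.inl (k, 2), Or.inr ⟨hk, rfl⟩⟩
    simp only [gbc_H] at h0
    rw [if_neg (by decide), map_sub] at h0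
    exact (ht2 k).1.trans_le h0
  have hdis : ∀ x ∈ F, ∀ y ∈ F, ∀ u, u ∈ connectedComponentIn Rg x →
      u ∈ connectedComponentIn Rg y → x = y := by
    intro x hx y hy u hux huy
    by_contra hne
    have e1 := connectedComponentIn_eq hux
    have e2 := connectedComponentIn_eq huy
    have hyC : y ∈ connectedComponentIn Rg x := by
      rw [e1, ← e2]
      exact mem_connectedComponentIn (hFR y hy)
    refine heps x hx y hy hne ((hF y hy).trans (hF x hx).symm) (connectedComponentIn Rg x)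
      isPreconnected_connectedComponentIn (mem_connectedComponentIn (hFR x hx)) hyC ?_
    intro w hw
    have hwR : w ∈ Rg := connectedComponentIn_subset _ _ hw
    rw [hF x hx]
    exact ⟨hBtc w hwR.1, fun k hk => hin w hwR k hk,
      fun k hk => (hbmβ k hk).trans (hout w hwR k hk).le⟩
  set J : (Fin 3 → ℝ) → Finset (gbc_W n) := fun x =>
    Finset.univ.filter fun w => gbc_w S T w ∧ eval (z x) (gbc_H Q i w) = t w with hJ
  have hJ3 : ∀ x ∈ F, (J x).card ≤ 3 := by
    intro x hx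
    have h1 := hgen (z x) (hBtB (hzR x hx).1)
    refine le_trans ?_ h1
    rw [← Set.ncard_coe_finset]
    refine Set.ncard_le_ncard ?_ (Set.toFinite _)
    intro w hw
    exact (Finset.mem_filter.1 (Finset.mem_coe.1 hw)).2.2
  have hzinj : Set.InjOn z F := by
    intro x hx y hy hxy
    refine hdis x hx y hy (z x) (hz x hx).1 ?_
    rw [hxy]
    exact (hz y hy).1
  have step1 : F.card ≤ 157 ^ 3 * (F.image J).card := by
    refine Finset.card_le_mul_card_image F _ fun J0 hJ0 => ?_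
    obtain ⟨x0, hx0, rfl⟩ := Finset.mem_image.1 hJ0
    set FJ := F.filter (fun x => J x = J x0) with hFJ
    have hFJF : ∀ x ∈ FJ, x ∈ F ∧ J x = J x0 := fun x hx => Finset.mem_filter.1 hx
    have hc : FJ.card = (FJ.image z).card := by
      rw [Finset.card_image_of_injOn]
      exact hzinj.mono fun x hx => (hFJF x hx).1
    rw [hc]
    refine fiber_count (gbc_H Q i) (gbc_deg hQ i) t A (J x0) hAc (hJ3 x0 hx0) Bt rfl hBtc
      (FJ.image z) ?_ ?_ ?_
    · intro u hu
      obtain ⟨x, hx, rfl⟩ := Finset.mem_image.1 hu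
      exact (hzR x (hFJF x hx).1).1
    · intro u hu w hw
      obtain ⟨x, hx, rfl⟩ := Finset.mem_image.1 hu
      rw [← (hFJF x hx).2] at hw
      exact (Finset.mem_filter.1 hw).2.2
    · intro u hu u' hu' hne hmem
      obtain ⟨x, hx, rfl⟩ := Finset.mem_image.1 hu
      obtain ⟨y, hy, rfl⟩ := Finset.mem_image.1 hu'
      have hxF := (hFJF x hx).1
      have hyF := (hFJF y hy).1
      have hset : {u | u ∈ Bt ∧ ∀ w ∈ J x0, eval u (gbc_H Q i w) = t w} =
          {y | y ∈ Bt ∧ ∀ w : {w // gbc_w S T w},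
            eval (z x) (gbc_H Q i w) = t w → eval y (gbc_H Q i w) = t w} := by
        rw [← (hFJF x hx).2]
        ext u
        constructor
        · rintro ⟨h1, h2⟩
          exact ⟨h1, fun w hw => h2 w (Finset.mem_filter.2 ⟨Finset.mem_univ _, w.2, hw⟩)⟩
        · rintro ⟨h1, h2⟩
          exact ⟨h1, fun w hw =>
            h2 ⟨w, (Finset.mem_filter.1 hw).2.1⟩ (Finset.mem_filter.1 hw).2.2⟩
      rw [hset] at hmem
      have h1 := (hz x hxF).2 hmem
      apply hne
      rw [hdis x hxF y hyF (z y) h1 (hz y hyF).1]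
  set lines : Finset (gbc_W n) → Finset (Fin n) := fun J => (J.toLeft).image Prod.fst with hlines
  have step2 : (F.image J).card ≤ 2 ^ 15 * ((F.image J).image lines).card := by
    refine Finset.card_le_mul_card_image (F.image J) _ fun M hM => ?_
    have hMc : M.card ≤ 3 := by
      obtain ⟨J0, hJ0, rfl⟩ := Finset.mem_image.1 hM
      obtain ⟨x, hx, rfl⟩ := Finset.mem_image.1 hJ0
      exact Finset.card_image_le.trans ((Finset.card_toLeft_le).trans (hJ3 x hx))
    have hsub : (F.image J).filter (fun J0 => lines J0 = M) ⊆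
        ((M ×ˢ (Finset.univ : Finset (Fin 3))).disjSum
          (Finset.univ : Finset (Fin 3 × Bool))).powerset := by
      intro J0 hJ0
      rw [Finset.mem_powerset]
      have h1 := (Finset.mem_filter.1 hJ0).2
      intro w hw
      rcases w with ⟨k, r⟩ | p
      · rw [Finset.inl_mem_disjSum, Finset.mem_product]
        refine ⟨?_, Finset.mem_univ _⟩
        rw [← h1]
        exact Finset.mem_image.2 ⟨(k, r), Finset.mem_toLeft.2 hw, rfl⟩
      · rw [Finset.inr_mem_disjSum]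
        exact Finset.mem_univ _
    refine (Finset.card_le_card hsub).trans ?_
    rw [Finset.card_powerset, Finset.card_disjSum, Finset.card_product]
    apply Nat.pow_le_pow_right (by norm_num)
    simp only [Finset.card_univ, Fintype.card_fin, Fintype.card_prod, Fintype.card_bool]
    omega
  have step3 : ((F.image J).image lines).card ≤ G.card := by
    refine Finset.card_le_card fun M hM => ?_
    obtain ⟨J0, hJ0, rfl⟩ := Finset.mem_image.1 hM
    obtain ⟨x, hx, rfl⟩ := Finset.mem_image.1 hJ0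
    obtain ⟨z', h1, h2, h3⟩ := hlab (lines (J x)) (z x) (hBtB (hzR x hx).1)
      (fun t' ht' => (hinT (z x) (hzR x hx) t' ht').trans hσ2)
      (fun k hk => by
        have h4 := hout (z x) (hzR x hx) k hk
        simp only [hPd] at h4
        linarith)
      (fun m hm => by
        obtain ⟨⟨k, r⟩, hkr, rfl⟩ := Finset.mem_image.1 hm
        have hw := (Finset.mem_filter.1 (Finset.mem_toLeft.1 hkr)).2
        rcases hw.1 with ⟨hk, _⟩ | ⟨hk, hr⟩
        · exact Or.inl hk
        · right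
          have hr' : r = 2 := hr
          subst hr'
          refine ⟨hk, ?_⟩
          have h4 := hw.2
          simp only [gbc_H] at h4
          rw [if_neg (by decide), map_sub] at h4
          have h5 := ht2 k
          show |eval (z x) (Q k) - eval (z x) (Q i) - ε * β k| ≤ η
          rw [h4]
          exact abs_le.2 ⟨by linarith [h5.1], by linarith [h5.2]⟩)
    exact hG _ ε z' (Finset.card_image_le.trans ((Finset.card_toLeft_le).trans (hJ3 x hx))) hε h1 h2 h3
  calc F.card ≤ 157 ^ 3 * (F.image J).card := step1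
    _ ≤ 157 ^ 3 * (2 ^ 15 * G.card) := Nat.mul_le_mul_left _ (step2.trans
        (Nat.mul_le_mul_left _ step3))
    _ = 157 ^ 3 * 2 ^ 15 * G.card := by ring
-- END gbc

-- BEGIN gsp
/-- For `k ∈ S`: `u k = ∑ t, μ t • u t` with `μ` supported in `T` (`Submodule.mem_span_image_iff_exists_fun` or `Finsupp.mem_span_image_iff_linearCombination`), `∑ μ t = 1` by `hd`, so `Q k - Q i = ∑ μ t (Q t - Q i)` at every point: `|..| ≤ (∑ |μ t|) η` (`0 ≤ η` as `T` is not empty: `i ∈ T` gives `|0| ≤ η`; if `η < 0`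
the hypothesis is false). `K` = the sum over the `k ∈ S` of these constants (finitely many). -/
theorem gsp {n : ℕ} (Q : Fin n → MvPolynomial (Fin 3) ℝ) (u : Fin n → Vcp5.W) (d : Vcp5.W)
    (c : (Fin 3 → ℝ) → Vcp5.W) (hd : ∀ i, inner ℝ (u i) d = 1) (hc : ∀ i z, eval z (Q i) = inner ℝ (u i) (c z))
    (S T : Set (Fin n)) (i : Fin n) (hi : i ∈ T) (hS : ∀ s ∈ S, u s ∈ Submodule.span ℝ (u '' T)) :
    ∃ K : ℝ, ∀ (z : Fin 3 → ℝ) (η : ℝ), (∀ t ∈ T, |eval z (Q t) - eval z (Q i)| ≤ η) →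
      ∀ k ∈ S, |eval z (Q k) - eval z (Q i)| ≤ K * η := by
  classical
  -- for a vector `w` of the span: `|inner w (c z) - (inner w d) * Q i z| ≤ K * η`
  have key : ∀ w ∈ Submodule.span ℝ (u '' T), ∃ K : ℝ, 0 ≤ K ∧ ∀ (z : Fin 3 → ℝ) (η : ℝ),
      (∀ t ∈ T, |eval z (Q t) - eval z (Q i)| ≤ η) →
      |inner ℝ w (c z) - inner ℝ w d * eval z (Q i)| ≤ K * η := by
    intro w hw
    induction hw using Submodule.span_induction with
    | mem x hx =>
      obtain ⟨t, ht, rfl⟩ := hx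
      refine ⟨1, zero_le_one, fun z η h => ?_⟩
      rw [hd, one_mul, one_mul, ← hc]
      exact h t ht
    | zero =>
      refine ⟨0, le_rfl, fun z η h => ?_⟩
      simp
    | add x y _ _ hx hy =>
      obtain ⟨K1, h1, h1'⟩ := hx
      obtain ⟨K2, h2, h2'⟩ := hy
      refine ⟨K1 + K2, add_nonneg h1 h2, fun z η h => ?_⟩
      have e : inner ℝ (x + y) (c z) - inner ℝ (x + y) d * eval z (Q i) =
          (inner ℝ x (c z) - inner ℝ x d * eval z (Q i)) +
          (inner ℝ y (c z) - inner ℝ y d * eval z (Q i)) := by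
        rw [inner_add_left, inner_add_left]
        ring
      rw [e, add_mul]
      exact (abs_add_le _ _).trans (add_le_add (h1' z η h) (h2' z η h))
    | smul r x _ hx =>
      obtain ⟨K1, h1, h1'⟩ := hx
      refine ⟨|r| * K1, mul_nonneg (abs_nonneg _) h1, fun z η h => ?_⟩
      have e : inner ℝ (r • x) (c z) - inner ℝ (r • x) d * eval z (Q i) =
          r * (inner ℝ x (c z) - inner ℝ x d * eval z (Q i)) := by
        rw [real_inner_smul_left, real_inner_smul_left]
        ring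
      rw [e, abs_mul, mul_assoc]
      exact mul_le_mul_of_nonneg_left (h1' z η h) (abs_nonneg _)
  have key2 : ∀ k : Fin n, ∃ K : ℝ, 0 ≤ K ∧ (k ∈ S → ∀ (z : Fin 3 → ℝ) (η : ℝ),
      (∀ t ∈ T, |eval z (Q t) - eval z (Q i)| ≤ η) → |eval z (Q k) - eval z (Q i)| ≤ K * η) := by
    intro k
    by_cases hk : k ∈ S
    · obtain ⟨K, h1, h2⟩ := key _ (hS k hk)
      refine ⟨K, h1, fun _ z η h => ?_⟩
      have h3 := h2 z η h
      rw [hd, one_mul, ← hc] at h3
      exact h3
    · exact ⟨0, le_rfl, fun h => absurd h hk⟩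
  choose κ hκ0 hκ using key2
  refine ⟨∑ k, κ k, fun z η h k hk => (hκ k hk z η h).trans ?_⟩
  have hη : 0 ≤ η := (abs_nonneg _).trans (h i hi)
  exact mul_le_mul_of_nonneg_right (Finset.single_le_sum (f := κ) (fun k _ => hκ0 k)
    (Finset.mem_univ k)) hη
-- END gsp

open Classical in
/-- the pairs of sets of lines with a common label in the generic system -/
noncomputable def gP {n : ℕ} (u : Fin n → Vcp5.W) (θ : Fin n → ℝ) : Finset (Set (Fin n) × Finset (Fin n)) :=
  Finset.univ.filter fun x => ∃ Z, Vcp5.Feas u θ Z ∧ x.1 ⊆ Vcp5.Act u θ Z ∧ (x.2 : Set (Fin n)) ⊆ Vcp5.Act u θ Z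

-- BEGIN gpc
private theorem gpc_card {n : ℕ} {u : Fin n → Vcp5.W} {θ : Fin n → ℝ} (hg : Vcp5.Gen u θ)
    (L : Set (Fin n)) (hL : L ∈ Vcp5.Labs u θ) [Fintype L] : L.toFinset.card ≤ 5 := by
  obtain ⟨Z, hZ, rfl⟩ := hL
  have h1 := (hg Z hZ).fintype_card_le_finrank
  rw [finrank_euclideanSpace_fin] at h1
  rw [Set.toFinset_card]
  exact h1

/-- Every `L ∈ Vcp5.Labs u θ` is linearly independent (`Gen`), so it has at most `5` elements and at most `2 ^ 5 * 2 ^ 5` pairs of subsets; at most `64 (n + 5) ^ 2` sets `L` by `Vcp5.pol`. (`Finset.card_le_mul_card_image` or `Finset.card_biUnion_le_card_mul`.) -/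
theorem gpc {n : ℕ} {u : Fin n → Vcp5.W} {θ : Fin n → ℝ} (hg : Vcp5.Gen u θ) :
    (gP u θ).card ≤ 1024 * (64 * (n + 5) ^ 2) := by
  classical
  have hfin : (Vcp5.Labs u θ).Finite := Set.toFinite _
  have hcard : hfin.toFinset.card ≤ 64 * (n + 5) ^ 2 := by
    rw [← Set.ncard_eq_toFinset_card _ hfin]
    have h := Vcp5.pol u θ
    rwa [Fintype.card_fin] at h
  have hsub : gP u θ ⊆ hfin.toFinset.biUnion fun L =>
      Finset.univ.filter fun x : Set (Fin n) × Finset (Fin n) => x.1 ⊆ L ∧ (x.2 : Set (Fin n)) ⊆ L := by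
    intro x hx
    unfold gP at hx
    obtain ⟨Z, hZ, h1, h2⟩ := (Finset.mem_filter.1 hx).2
    refine Finset.mem_biUnion.2 ⟨Vcp5.Act u θ Z, hfin.mem_toFinset.2 ⟨Z, hZ, rfl⟩, ?_⟩
    exact Finset.mem_filter.2 ⟨Finset.mem_univ _, h1, h2⟩
  have hone : ∀ L ∈ hfin.toFinset, (Finset.univ.filter fun x : Set (Fin n) × Finset (Fin n) =>
      x.1 ⊆ L ∧ (x.2 : Set (Fin n)) ⊆ L).card ≤ 1024 := by
    intro L hL
    have h5 := gpc_card hg L (hfin.mem_toFinset.1 hL)
    have hle : (Finset.univ.filter fun x : Set (Fin n) × Finset (Fin n) =>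
        x.1 ⊆ L ∧ (x.2 : Set (Fin n)) ⊆ L).card ≤ (L.toFinset.powerset ×ˢ L.toFinset.powerset).card := by
      refine Finset.card_le_card_of_injOn (fun x => (x.1.toFinset, x.2)) ?_ ?_
      · intro x hx
        obtain ⟨h1, h2⟩ := (Finset.mem_filter.1 (Finset.mem_coe.1 hx)).2
        refine Finset.mem_coe.2 (Finset.mem_product.2 ⟨?_, ?_⟩)
        · exact Finset.mem_powerset.2 (Set.toFinset_subset_toFinset.2 h1)
        · refine Finset.mem_powerset.2 fun a ha => ?_
          exact Set.mem_toFinset.2 (h2 (Finset.mem_coe.2 ha))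
      · intro x _ y _ h
        have h' := Prod.ext_iff.1 h
        have h1 : x.1.toFinset = y.1.toFinset := h'.1
        have h2 : x.2 = y.2 := h'.2
        exact Prod.ext (Set.toFinset_inj.1 h1) h2
    refine hle.trans ?_
    rw [Finset.card_product, Finset.card_powerset]
    have h2 : 2 ^ L.toFinset.card ≤ 2 ^ 5 := Nat.pow_le_pow_right (by norm_num) h5
    calc 2 ^ L.toFinset.card * 2 ^ L.toFinset.card ≤ 2 ^ 5 * 2 ^ 5 := Nat.mul_le_mul h2 h2
      _ = 1024 := by norm_num
  calc (gP u θ).card ≤ _ := Finset.card_le_card hsub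
    _ ≤ hfin.toFinset.card * 1024 := Finset.card_biUnion_le_card_mul _ _ _ hone
    _ ≤ (64 * (n + 5) ^ 2) * 1024 := Nat.mul_le_mul_right _ hcard
    _ = 1024 * (64 * (n + 5) ^ 2) := Nat.mul_comm _ _
-- END gpc

-- BEGIN gas
/-- assembly -/
theorem gas {n : ℕ} (hn : 0 < n) (Q : Fin n → MvPolynomial (Fin 3) ℝ) (hQ : ∀ m, (Q m).totalDegree ≤ 2)
    (u : Fin n → Vcp5.W) (d : Vcp5.W) (c : (Fin 3 → ℝ) → Vcp5.W) (hd : ∀ i, inner ℝ (u i) d = 1)
    (hc : ∀ i z, eval z (Q i) = inner ℝ (u i) (c z)) (F : Finset (Fin 3 → ℝ))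
    (hsep : ∀ x ∈ F, ∀ y ∈ F, x ≠ y → Arg Q y = Arg Q x →
      y ∉ connectedComponentIn {z | Arg Q z = Arg Q x} x) :
    F.card ≤ 157 ^ 3 * 2 ^ 15 * (1024 * (64 * (n + 5) ^ 2)) := by
  classical
  obtain ⟨θ, hθ, hg⟩ := gth u
  have hne : Nonempty (Fin n) := ⟨⟨0, hn⟩⟩
  have key : ∀ S ∈ F.image (Arg Q), ∃ T : Set (Fin n), S = {k | u k ∈ Submodule.span ℝ (u '' T)} ∧
      (F.filter fun y => Arg Q y = S).card ≤
        157 ^ 3 * 2 ^ 15 * ((gP u θ).filter fun w => w.1 = T).card := by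
    intro S hSF
    obtain ⟨x, _, hxS⟩ := Finset.mem_image.1 hSF
    obtain ⟨i0, hi0⟩ := Finite.exists_min fun i => eval x (Q i)
    obtain ⟨Z0, hZ0⟩ : ∃ Z0 : Vcp5.W, ∀ k, inner ℝ (u k) Z0 = eval x (Q k) - eval x (Q i0) := by
      refine ⟨c x - eval x (Q i0) • d, fun k => ?_⟩
      rw [inner_sub_right, real_inner_smul_right, hd, mul_one, ← hc]
    have hZ : ∀ k, 0 ≤ inner ℝ (u k) Z0 := fun k => by
      rw [hZ0]
      exact sub_nonneg.2 (hi0 k)
    have hS : ∀ k, inner ℝ (u k) Z0 = 0 ↔ k ∈ S := by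
      intro k
      rw [hZ0, ← hxS]
      constructor
      · intro h j
        rw [sub_eq_zero.1 h]
        exact hi0 j
      · intro h
        have h1 : eval x (Q k) ≤ eval x (Q i0) := h i0
        exact sub_eq_zero.2 (le_antisymm h1 (hi0 k))
    obtain ⟨T, Y, h1, h2, h3, h4, h5⟩ := glo hθ hZ
    have hTS : T ⊆ S := fun s hs => (hS s).1 (h1 s hs)
    have hspan : ∀ s ∈ S, u s ∈ Submodule.span ℝ (u '' T) := fun s hs => h2 s ((hS s).2 hs)
    have hSset : S = {k | u k ∈ Submodule.span ℝ (u '' T)} := by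
      ext k
      refine ⟨fun hk => hspan k hk, fun hk => ?_⟩
      have hk1 : u k ∈ Submodule.span ℝ (u '' T) := hk
      rw [← hS]
      have h6 : Submodule.span ℝ (u '' T) ≤ (ℝ ∙ Z0)ᗮ := by
        rw [Submodule.span_le]
        rintro _ ⟨t, ht, rfl⟩
        rw [SetLike.mem_coe, Submodule.mem_orthogonal_singleton_iff_inner_left]
        exact h1 t ht
      exact Submodule.mem_orthogonal_singleton_iff_inner_left.1 (h6 hk1)
    have hTne : T.Nonempty := by
      rw [Set.nonempty_iff_ne_empty]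
      intro hT
      have hi0S : i0 ∈ S := (hS i0).1 (by rw [hZ0, sub_self])
      have h6 := hspan i0 hi0S
      rw [hT, Set.image_empty, Submodule.span_empty, Submodule.mem_bot] at h6
      have h7 := hd i0
      rw [h6, inner_zero_left] at h7
      exact zero_ne_one h7
    obtain ⟨i, hi⟩ := hTne
    obtain ⟨K, hK⟩ := gsp Q u d c hd hc S T i hi hspan
    refine ⟨T, hSset, ?_⟩
    have hβ : ∀ k, k ∉ S → 0 < -(inner ℝ (u k) Y + θ k) := by
      intro k hk
      have := h5 k (fun h => hk ((hS k).1 h))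
      linarith
    have hbc := gbc Q hQ S T i hi hTS K hK (fun k => -(inner ℝ (u k) Y + θ k)) hβ
      (F.filter fun y => Arg Q y = S) (fun y hy => (Finset.mem_filter.1 hy).2)
      (by
        intro y hy z hz hyz
        obtain ⟨hy1, hy2⟩ := Finset.mem_filter.1 hy
        obtain ⟨hz1, hz2⟩ := Finset.mem_filter.1 hz
        have h6 := hsep y hy1 z hz1 hyz (by rw [hy2, hz2])
        rwa [hy2] at h6)
      (((gP u θ).filter fun w => w.1 = T).image Prod.snd)
      (by
        intro M ε z _ hε hzT hzS hzM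
        rw [Finset.mem_image]
        refine ⟨(T, M), ?_, rfl⟩
        rw [Finset.mem_filter]
        refine ⟨?_, rfl⟩
        have hval : ∀ k, inner ℝ (u k) (ε⁻¹ • (c z - eval z (Q i) • d) + Y) + θ k =
            ε⁻¹ * (eval z (Q k) - eval z (Q i)) + (inner ℝ (u k) Y + θ k) := by
          intro k
          rw [inner_add_right, real_inner_smul_right, inner_sub_right, real_inner_smul_right, hd, mul_one, ← hc]
          ring
        have hT0 : ∀ k ∈ T, inner ℝ (u k) (ε⁻¹ • (c z - eval z (Q i) • d) + Y) + θ k = 0 := by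
          intro k hk
          rw [hval, hzT k hk, mul_zero, zero_add, h3 k hk]
        rw [gP, Finset.mem_filter]
        refine ⟨Finset.mem_univ _, ε⁻¹ • (c z - eval z (Q i) • d) + Y, ?_, hT0, ?_⟩
        · intro k
          rw [hval]
          by_cases hk : k ∈ S
          · have h7 := hK z 0 (fun t ht => by rw [hzT t ht, abs_zero]) k hk
            rw [mul_zero] at h7
            have h8 : eval z (Q k) - eval z (Q i) = 0 := abs_eq_zero.1 (le_antisymm h7 (abs_nonneg _))
            rw [h8, mul_zero, zero_add]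
            exact h4 k ((hS k).2 hk)
          · have h7 := hzS k hk
            have h8 : -(inner ℝ (u k) Y + θ k) ≤ ε⁻¹ * (eval z (Q k) - eval z (Q i)) := by
              rw [← div_eq_inv_mul, le_div_iff₀ hε]
              linarith
            linarith
        · intro k hk
          rcases hzM k hk with h7 | ⟨_, h7⟩
          · exact hT0 k h7
          · show inner ℝ (u k) (ε⁻¹ • (c z - eval z (Q i) • d) + Y) + θ k = 0
            rw [hval, h7, ← mul_assoc, inv_mul_cancel₀ hε.ne', one_mul]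
            ring)
    refine hbc.trans (Nat.mul_le_mul_left _ Finset.card_image_le)
  choose! T hT using key
  have hinj : ∀ S ∈ F.image (Arg Q), ∀ S' ∈ F.image (Arg Q), S ≠ S' → T S ≠ T S' := by
    intro S hS S' hS' hne' h
    apply hne'
    rw [(hT S hS).1, (hT S' hS').1, h]
  have hsum : ∑ S ∈ F.image (Arg Q), ((gP u θ).filter fun w => w.1 = T S).card ≤ (gP u θ).card := by
    rw [← Finset.card_biUnion]
    · refine Finset.card_le_card ?_
      intro w hw
      obtain ⟨S, _, hS⟩ := Finset.mem_biUnion.1 hw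
      exact (Finset.mem_filter.1 hS).1
    · intro S hS S' hS' hne'
      rw [Function.onFun, Finset.disjoint_left]
      intro w hw hw'
      exact hinj S hS S' hS' hne' ((Finset.mem_filter.1 hw).2.symm.trans (Finset.mem_filter.1 hw').2)
  calc F.card = ∑ S ∈ F.image (Arg Q), (F.filter fun y => Arg Q y = S).card := Finset.card_eq_sum_card_image _ _
    _ ≤ ∑ S ∈ F.image (Arg Q), 157 ^ 3 * 2 ^ 15 * ((gP u θ).filter fun w => w.1 = T S).card :=
        Finset.sum_le_sum fun S hS => (hT S hS).2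
    _ = 157 ^ 3 * 2 ^ 15 * ∑ S ∈ F.image (Arg Q), ((gP u θ).filter fun w => w.1 = T S).card := by
        rw [Finset.mul_sum]
    _ ≤ 157 ^ 3 * 2 ^ 15 * (gP u θ).card := Nat.mul_le_mul_left _ hsum
    _ ≤ 157 ^ 3 * 2 ^ 15 * (1024 * (64 * (n + 5) ^ 2)) := Nat.mul_le_mul_left _ (gpc hg)
-- END gas

-- BEGIN gfa
private theorem gfa_face_eq {n : ℕ} {u p : Fin n → E} {f : Set E} (hf : f ∈ Faces u p) {z : E}
    (hz : z ∈ f) : f = connectedComponentIn {y | Near u p y = Near u p z} z := by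
  obtain ⟨x, rfl⟩ := hf
  have h1 : z ∈ {y | Near u p y = Near u p x} := connectedComponentIn_subset _ _ hz
  have h2 : Near u p z = Near u p x := h1
  rw [h2]
  exact connectedComponentIn_eq hz

private theorem gfa_poly (v a : E) : ∃ P : MvPolynomial (Fin 3) ℝ, P.totalDegree ≤ 2 ∧
    ∀ z : Fin 3 → ℝ, eval z P = Metric.infDist (WithLp.toLp 2 z : E) (line a v) ^ 2 := by
  obtain ⟨P, h1, h2⟩ := Vrd.exists_poly_dv v (fun z => (WithLp.toLp 2 z : E) - a) (fun c =>
    ⟨X c - C (a c), by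
      refine (totalDegree_sub _ _).trans ?_
      rw [totalDegree_X, totalDegree_C]
      exact le_of_eq (max_eq_left (Nat.zero_le 1)), fun z => by
      rw [map_sub, eval_X, eval_C]
      rfl⟩)
  exact ⟨P, h1, fun z => by rw [h2 z, Vrd.infDist_dv]⟩

/-- As `Vrl.faces_count` (row fcs of Vrl/Det.lean, its private lemmas `fcs_face_eq`, `fcs_poly` copied): `Q i` = the polynomial of the squared distance, `c z` replaced by `c (WithLp.toLp 2 z)`; `gas` instead of `det_count`; `157 ^ 3 * 2 ^ 15 * (1024 * (64 * (n + 5) ^ 2)) ≤ 10 ^ 18 * n ^ 2` as `n + 5 ≤ 6 n`. -/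
theorem gfa {n : ℕ} (hn : 0 < n) (v a : Fin n → E) (u : Fin n → Vcp5.W) (d : Vcp5.W) (c : E → Vcp5.W)
    (hd : ∀ i, inner ℝ (u i) d = 1)
    (hf : ∀ i p, Metric.infDist p (line (a i) (v i)) ^ 2 = inner ℝ (u i) (c p)) :
    (Faces v a).encard ≤ ((10 ^ 18 * n ^ 2 : ℕ) : ℕ∞) := by
  have hf0 := hf
  classical
  choose Q hQ1 hQ2 using fun m => gfa_poly (v m) (a m)
  have harg : ∀ z : Fin 3 → ℝ, Arg Q z = Near v a (WithLp.toLp 2 z : E) := by
    intro z
    ext i
    constructor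
    · intro h j
      have h1 := h j
      rw [hQ2, hQ2] at h1
      exact (pow_le_pow_iff_left₀ Metric.infDist_nonneg Metric.infDist_nonneg (by norm_num)).1 h1
    · intro h j
      rw [hQ2, hQ2]
      exact pow_le_pow_left₀ Metric.infDist_nonneg (h j) 2
  by_contra hcon
  rw [not_le] at hcon
  generalize hN : 10 ^ 18 * n ^ 2 = N at hcon
  have h1 : ((N + 1 : ℕ) : ℕ∞) ≤ (Faces v a).encard := by
    have := Order.add_one_le_of_lt hcon
    simpa using this
  obtain ⟨t, hts, htc⟩ := Set.exists_subset_encard_eq h1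
  have htf : t.Finite := Set.finite_of_encard_eq_coe htc
  have hz : ∀ f : Set E, ∃ z : E, f ∈ t → z ∈ f := by
    intro f
    by_cases hf : f ∈ t
    · obtain ⟨x, hx⟩ := hts hf
      refine ⟨x, fun _ => ?_⟩
      rw [hx]
      exact mem_connectedComponentIn rfl
    · exact ⟨0, fun h => absurd h hf⟩
  choose z hz using hz
  set F : Finset (Fin 3 → ℝ) := htf.toFinset.image (fun f c => z f c) with hF
  have hinj : Set.InjOn (fun f c => z f c) (htf.toFinset : Set (Set E)) := by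
    intro f hf f' hf' h
    rw [Finset.mem_coe, Set.Finite.mem_toFinset] at hf hf'
    have e : z f = z f' := by
      ext c
      exact congrFun h c
    have h2 := gfa_face_eq (hts hf) (hz f hf)
    have h3 := gfa_face_eq (hts hf') (hz f' hf')
    rw [e] at h2
    rw [h2]
    exact h3.symm
  have hcard : F.card = N + 1 := by
    rw [hF, Finset.card_image_of_injOn hinj]
    rw [htf.encard_eq_coe_toFinset_card] at htc
    exact_mod_cast htc
  have key := gas hn Q hQ1 u d (fun z => c (WithLp.toLp 2 z)) hd (fun i z => by rw [hQ2, hf0]) F ?_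
  · rw [hcard] at key
    have hn5 : n + 5 ≤ 6 * n := by omega
    have hsq : (n + 5) ^ 2 ≤ (6 * n) ^ 2 := Nat.pow_le_pow_left hn5 2
    have e6 : (6 * n) ^ 2 = 36 * n ^ 2 := by ring
    rw [e6] at hsq
    norm_num at key hN
    omega
  · intro x hx y hy hxy _ hmem
    rw [hF, Finset.mem_image] at hx hy
    obtain ⟨f, hf, rfl⟩ := hx
    obtain ⟨f', hf', rfl⟩ := hy
    rw [Set.Finite.mem_toFinset] at hf hf'
    have hself : (fun c => z f c) ∈ {w : Fin 3 → ℝ | Arg Q w = Arg Q (fun c => z f c)} := rfl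
    have hsub : (WithLp.toLp 2 '' connectedComponentIn {w : Fin 3 → ℝ | Arg Q w = Arg Q (fun c => z f c)}
        (fun c => z f c)) ⊆ {y : E | Near v a y = Near v a (z f)} := by
      rintro _ ⟨w, hw, rfl⟩
      have hwB : w ∈ {w : Fin 3 → ℝ | Arg Q w = Arg Q (fun c => z f c)} :=
        connectedComponentIn_subset _ _ hw
      have hwA : Arg Q w = Arg Q (fun c => z f c) := hwB
      rw [harg, harg] at hwA
      exact hwA
    have hpre : IsPreconnected (WithLp.toLp 2 '' connectedComponentIn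
        {w : Fin 3 → ℝ | Arg Q w = Arg Q (fun c => z f c)} (fun c => z f c) : Set E) :=
      isPreconnected_connectedComponentIn.image _ (PiLp.continuous_toLp 2 _).continuousOn
    have hzf : z f ∈ (WithLp.toLp 2 '' connectedComponentIn
        {w : Fin 3 → ℝ | Arg Q w = Arg Q (fun c => z f c)} (fun c => z f c) : Set E) :=
      ⟨_, mem_connectedComponentIn hself, rfl⟩
    have hzf' : z f' ∈ (WithLp.toLp 2 '' connectedComponentIn
        {w : Fin 3 → ℝ | Arg Q w = Arg Q (fun c => z f c)} (fun c => z f c) : Set E) :=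
      ⟨_, hmem, rfl⟩
    have hin := hpre.subset_connectedComponentIn hzf hsub hzf'
    rw [← gfa_face_eq (hts hf) (hz f hf)] at hin
    have e1 := gfa_face_eq (hts hf) hin
    have e2 := gfa_face_eq (hts hf') (hz f' hf')
    apply hxy
    rw [e1.trans e2.symm]
-- END gfa

/-- the square of the distance to the line through `a` with direction `v`, as a function -/
noncomputable def sqd (a v : E) : E → ℝ := fun p => Metric.infDist p (line a v) ^ 2

/-- a linear functional which is `1` on all squared distances to lines: the sum of the second differences at `0` -/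
noncomputable def phi (f : E → ℝ) : ℝ :=
  (1 / 4) * ∑ k : Fin 3, (f (EuclideanSpace.single k 1) + f (-EuclideanSpace.single k 1) - 2 * f 0)

-- BEGIN gph
private theorem gph_sq (v z : E) (hn : ‖v‖ ≠ 0) :
    ‖z - inner ℝ (‖v‖⁻¹ • v) z • ‖v‖⁻¹ • v‖ ^ 2 = ‖z‖ ^ 2 - (inner ℝ v z) ^ 2 / ‖v‖ ^ 2 := by
  have h1 : inner ℝ (‖v‖⁻¹ • v) z = ‖v‖⁻¹ * inner ℝ v z := by
    rw [inner_smul_left]
    rfl
  rw [h1, smul_smul, norm_sub_sq_real, inner_smul_right, norm_smul, mul_pow, real_inner_comm, Real.norm_eq_abs,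
    sq_abs]
  field_simp
  ring

private theorem gph_one (a v e : E) (hn : ‖v‖ ≠ 0) :
    sqd a v e + sqd a v (-e) - 2 * sqd a v 0 = 2 * ‖e‖ ^ 2 - 2 * ((inner ℝ v e) ^ 2 / ‖v‖ ^ 2) := by
  have h1 : ∀ p : E, sqd a v p = ‖p - a‖ ^ 2 - (inner ℝ v (p - a)) ^ 2 / ‖v‖ ^ 2 := by
    intro p
    unfold sqd
    rw [Vrd.infDist_dv]
    exact gph_sq v (p - a) hn
  rw [h1, h1, h1, inner_sub_right, inner_sub_right, inner_sub_right, inner_neg_right, inner_zero_right,
    norm_sub_sq_real, norm_sub_sq_real, norm_sub_sq_real, norm_neg, inner_neg_left, inner_zero_left, norm_zero]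
  ring

/-- `Vrd.infDist_dv`, `‖z - ⟪w, z⟫ w‖ ^ 2 = ‖z‖ ^ 2 - ⟪w, z⟫ ^ 2` for the unit vector `w = v / ‖v‖`, at `z = ± e k - a` and `z = - a`: the second difference is `2 - 2 (w k) ^ 2`; sum `6 - 2 ‖w‖ ^ 2 = 4`. -/
theorem gph (a : E) {v : E} (hv : v ≠ 0) : phi (sqd a v) = 1 := by
  have hn : ‖v‖ ≠ 0 := norm_ne_zero_iff.2 hv
  unfold phi
  rw [Finset.sum_congr rfl fun k _ => gph_one a v (EuclideanSpace.single k 1) hn]
  have h2 : ∀ k : Fin 3, 2 * ‖(EuclideanSpace.single k (1 : ℝ) : E)‖ ^ 2 -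
      2 * ((inner ℝ v (EuclideanSpace.single k (1 : ℝ) : E)) ^ 2 / ‖v‖ ^ 2) = 2 - 2 * (v k ^ 2 / ‖v‖ ^ 2) := by
    intro k
    rw [PiLp.norm_single, EuclideanSpace.inner_single_right]
    simp
  rw [Finset.sum_congr rfl fun k _ => h2 k, Finset.sum_sub_distrib, ← Finset.mul_sum, ← Finset.sum_div]
  have h3 : ∑ k : Fin 3, v k ^ 2 = ‖v‖ ^ 2 := (EuclideanSpace.real_norm_sq_eq v).symm
  rw [h3, div_self (pow_ne_zero 2 hn)]
  simp
  norm_num
-- END gph

-- BEGIN gre
/-- `V` = the span, a finite dimensional space (`FiniteDimensional` from the finite generating set); a basis `B` of `V` indexed by `Fin r`, `r = finrank V ≤ 5` (`Module.finBasis`). `u i k = B.repr ⟨f i, _⟩ ⟨k, _⟩` for `k < r`, `0` for the other `k : Fin 5`; `c p k = (B ⟨k, _⟩ : E → ℝ) p` or `0`;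
`d k = φ (B ⟨k, _⟩)` or `0`, where `φ` is a linear functional with value `1` on all the `f i`. (Sums over `Fin 5` with a condition `k < r`: `Fin.castLE`, `Finset.sum_dite`, or reindex: first the statement for functions on `Fin r`, then an injection `Fin r → Fin 5`, `Fintype.sum_extend`/`Function.Injective.sum_..`.) -/
theorem gre {n : ℕ} (f : Fin n → E → ℝ) (φ : (E → ℝ) →ₗ[ℝ] ℝ) (hφ : ∀ i, φ (f i) = 1)
    (h : Module.finrank ℝ (Submodule.span ℝ (Set.range f)) ≤ 5) :
    ∃ (u : Fin n → Vcp5.W) (d : Vcp5.W) (c : E → Vcp5.W), (∀ i, inner ℝ (u i) d = 1) ∧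
      ∀ i p, f i p = inner ℝ (u i) (c p) := by
  have hfin : FiniteDimensional ℝ (Submodule.span ℝ (Set.range f)) :=
    FiniteDimensional.span_of_finite ℝ (Set.finite_range f)
  have h5 : Module.finrank ℝ (Submodule.span ℝ (Set.range f)) ≤ Module.finrank ℝ Vcp5.W := by
    rw [finrank_euclideanSpace_fin]
    exact h
  obtain ⟨L, hL⟩ := finrank_le_iff_exists_linearMap.1 h5
  obtain ⟨P, hP⟩ := L.exists_leftInverse_of_injective (LinearMap.ker_eq_bot.2 hL)
  have key : ∀ ψ : Submodule.span ℝ (Set.range f) →ₗ[ℝ] ℝ, ∃ w : Vcp5.W, ∀ x, ψ x = inner ℝ (L x) w := by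
    intro ψ
    refine ⟨(InnerProductSpace.toDual ℝ Vcp5.W).symm (LinearMap.toContinuousLinearMap (ψ.comp P)), fun x => ?_⟩
    rw [real_inner_comm, InnerProductSpace.toDual_symm_apply]
    show ψ x = ψ (P (L x))
    have h6 : P (L x) = x := LinearMap.congr_fun hP x
    rw [h6]
  obtain ⟨d, hd⟩ := key (φ.comp (Submodule.subtype _))
  choose c hc using fun p : E => key ((LinearMap.proj p).comp (Submodule.subtype _))
  refine ⟨fun i => L ⟨f i, Submodule.subset_span ⟨i, rfl⟩⟩, d, c, fun i => ?_, fun i p => ?_⟩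
  · rw [← hd]
    exact hφ i
  · rw [← hc]
    rfl
-- END gre

-- BEGIN gen
/-- `gph` (with `phi` as a linear map), `gre`, `gfa` -/
theorem gen {n : ℕ} (hn : 0 < n) (v a : Fin n → E) (hv : ∀ i, v i ≠ 0)
    (h : Module.finrank ℝ (Submodule.span ℝ (Set.range fun i => sqd (a i) (v i))) ≤ 5) :
    (Faces v a).encard ≤ ((10 ^ 18 * n ^ 2 : ℕ) : ℕ∞) := by
  let φ : (E → ℝ) →ₗ[ℝ] ℝ :=
    { toFun := phi
      map_add' := fun f g => by
        unfold phi
        rw [← mul_add, ← Finset.sum_add_distrib]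
        congr 1
        refine Finset.sum_congr rfl fun k _ => ?_
        simp only [Pi.add_apply]
        ring
      map_smul' := fun r f => by
        unfold phi
        simp only [Fin.sum_univ_three, Pi.smul_apply, smul_eq_mul, RingHom.id_apply]
        ring }
  obtain ⟨u, d, c, h1, h2⟩ := gre (fun i => sqd (a i) (v i)) φ (fun i => gph (a i) (hv i)) h
  exact gfa hn v a u d c h1 (fun i p => h2 i p)
-- END gen

-- BEGIN gfi
/-- If every `f i` is a linear combination of five functions then the span has dimension at most five: it is contained in the span of `Set.range g`, `finrank_range_le_card` / `finrank_span_le_card`, `Submodule.finrank_mono`. -/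
theorem gfi {n : ℕ} (f : Fin n → E → ℝ) (g : Fin 5 → E → ℝ) (μ : Fin n → Fin 5 → ℝ)
    (h : ∀ i p, f i p = ∑ k, μ i k * g k p) :
    Module.finrank ℝ (Submodule.span ℝ (Set.range f)) ≤ 5 := by
  have hfin : FiniteDimensional ℝ (Submodule.span ℝ (Set.range g)) :=
    FiniteDimensional.span_of_finite ℝ (Set.finite_range g)
  have h1 : Submodule.span ℝ (Set.range f) ≤ Submodule.span ℝ (Set.range g) := by
    rw [Submodule.span_le]
    rintro _ ⟨i, rfl⟩
    have h2 : f i = ∑ k, μ i k • g k := by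
      funext p
      rw [h, Finset.sum_apply]
      rfl
    rw [SetLike.mem_coe, h2]
    exact Submodule.sum_mem _ fun k _ => Submodule.smul_mem _ _ (Submodule.subset_span ⟨k, rfl⟩)
  have h2 := Submodule.finrank_mono h1
  have h3 : Module.finrank ℝ (Submodule.span ℝ (Set.range g)) ≤ Fintype.card (Fin 5) := finrank_range_le_card g
  rw [Fintype.card_fin] at h3
  exact h2.trans h3
-- END gfi

end Pool.Agent.Vcp
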