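import Mathlib

/-!
# The faces of a polyhedron in a five-dimensional space (arbitrary position)

A polyhedron with `N` inequalities in a five-dimensional space has at most `64 (N + 5) ^ 2` faces
(counted by their sets of active inequalities). No general position is assumed.
-/

set_option autoImplicit false

namespace Pool.Agent.Vcp5

/-- five-dimensional Euclidean space -/
abbrev W := EuclideanSpace ℝ (Fin 5)

/-- `Z` satisfies all the inequalities -/
def Feas {ι : Type} (R : ι → W) (c : ι → ℝ) (Z : W) : Prop := ∀ i, 0 ≤ inner ℝ (R i) Z + c i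

/-- the active inequalities -/
def Act {ι : Type} (R : ι → W) (c : ι → ℝ) (Z : W) : Set ι := {i | inner ℝ (R i) Z + c i = 0}

/-- the active sets of the points of the polyhedron -/
def Labs {ι : Type} (R : ι → W) (c : ι → ℝ) : Set (Set ι) := {S | ∃ Z, Feas R c Z ∧ Act R c Z = S}

/-- the generic systems: the active vectors are always linearly independent -/
def Gen {ι : Type} (R : ι → W) (c : ι → ℝ) : Prop :=
  ∀ Z, Feas R c Z → LinearIndependent ℝ (fun i : Act R c Z => R i)

-- BEGIN hit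
/-- Move from `Z` in direction `d` until the first inequality becomes active: `τ` = minimum of `(inner (R i) Z + c i) / (- inner (R i) d)` over the
`i` with `inner (R i) d < 0` (for these `inner (R i) Z + c i > 0`, as the active ones have `inner (R i) d = 0`), `Z' = Z + τ d`. -/
theorem hit {ι : Type} [Fintype ι] {R : ι → W} {c : ι → ℝ} {Z : W} (hZ : Feas R c Z) (d : W)
    (h0 : ∀ i ∈ Act R c Z, inner ℝ (R i) d = 0) (j : ι) (hj : inner ℝ (R j) d < 0) :
    ∃ Z', Feas R c Z' ∧ Act R c Z ⊂ Act R c Z' := by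
  classical
  set J : Finset ι := Finset.univ.filter (fun i => inner ℝ (R i) d < 0) with hJ
  obtain ⟨i0, hi0, hmin⟩ := Finset.exists_min_image J
    (fun i => (inner ℝ (R i) Z + c i) / (-inner ℝ (R i) d)) ⟨j, by rw [hJ]; simpa using hj⟩
  have hd0 : inner ℝ (R i0) d < 0 := (Finset.mem_filter.1 hi0).2
  set τ : ℝ := (inner ℝ (R i0) Z + c i0) / (-inner ℝ (R i0) d) with hτ
  have hna : i0 ∉ Act R c Z := fun h => by
    have := h0 i0 h
    rw [this] at hd0
    exact lt_irrefl _ hd0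
  have hτ0 : 0 ≤ τ := div_nonneg (hZ i0) (by linarith)
  have hval : ∀ i, inner ℝ (R i) (Z + τ • d) + c i = (inner ℝ (R i) Z + c i) + τ * inner ℝ (R i) d := by
    intro i
    rw [inner_add_right, inner_smul_right]
    ring
  have hact : inner ℝ (R i0) (Z + τ • d) + c i0 = 0 := by
    rw [hval]
    have h1 : τ * (-inner ℝ (R i0) d) = inner ℝ (R i0) Z + c i0 := by
      rw [hτ]
      exact div_mul_cancel₀ _ (by linarith)
    linarith
  refine ⟨Z + τ • d, ?_, ?_⟩
  · intro i
    rw [hval]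
    rcases lt_or_ge (inner ℝ (R i) d) 0 with h | h
    · have h1 := hmin i (by rw [hJ]; simpa using h)
      have h2 : 0 < -inner ℝ (R i) d := by linarith
      rw [le_div_iff₀ h2] at h1
      linarith
    · have h1 := hZ i
      have h2 : 0 ≤ τ * inner ℝ (R i) d := mul_nonneg hτ0 h
      linarith
  · refine ⟨fun i hi => ?_, fun h => hna (h hact)⟩
    show inner ℝ (R i) (Z + τ • d) + c i = 0
    rw [hval, h0 i hi, mul_zero, add_zero]
    exact hi
-- END hit

-- BEGIN ext
/-- Among the feasible `Z'` with `Act R c Z ⊆ Act R c Z'` take one with the largest number of active inequalities. If some `R j` is not in the span `U` of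
`R '' Act R c Z'`, let `d` be `R j` minus its orthogonal projection to `U`: orthogonal to `U`, `inner (R j) d ≠ 0`; `hit` with `d` or `-d`: contradiction. -/
theorem ext {ι : Type} [Fintype ι] {R : ι → W} {c : ι → ℝ} {Z : W} (hZ : Feas R c Z) :
    ∃ Z', Feas R c Z' ∧ Act R c Z ⊆ Act R c Z' ∧ ∀ j, R j ∈ Submodule.span ℝ (R '' Act R c Z') := by
  obtain ⟨S, hS⟩ := (Set.toFinite {S : Set ι | ∃ Z', Feas R c Z' ∧ Act R c Z' = S ∧ Act R c Z ⊆ S}).exists_maximal
    ⟨Act R c Z, Z, hZ, rfl, subset_rfl⟩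
  obtain ⟨Z', hZ', hS', hsub⟩ := hS.prop
  subst hS'
  refine ⟨Z', hZ', hsub, fun j => ?_⟩
  by_contra hj
  obtain ⟨y, hy, d, hd, hjd⟩ := Submodule.exists_add_mem_mem_orthogonal
    (K := Submodule.span ℝ (R '' Act R c Z')) (R j)
  have hd0 : d ≠ 0 := by
    rintro rfl
    apply hj
    rw [hjd, add_zero]
    exact hy
  have hin : inner ℝ (R j) (-d) < (0 : ℝ) := by
    rw [inner_neg_right, hjd, inner_add_left, Submodule.inner_right_of_mem_orthogonal hy hd,
      real_inner_self_eq_norm_sq, zero_add]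
    have : 0 < ‖d‖ := norm_pos_iff.2 hd0
    nlinarith
  have h0 : ∀ i ∈ Act R c Z', inner ℝ (R i) (-d) = 0 := by
    intro i hi
    have hi' : R i ∈ Submodule.span ℝ (R '' Act R c Z') := Submodule.subset_span ⟨i, hi, rfl⟩
    rw [inner_neg_right, Submodule.inner_right_of_mem_orthogonal hi' hd, neg_zero]
  obtain ⟨Z'', h1, h2⟩ := hit hZ' (-d) h0 j hin
  exact h2.2 (hS.le_of_ge ⟨Z'', h1, rfl, hsub.trans h2.1⟩ h2.1)
-- END ext

-- BEGIN tht
/-- For every `T : Finset ι` with linearly dependent `R i`, `i ∈ T`, choose `l T : ι → ℝ`, not zero, zero outside `T`, with `∑ i, l T i • R i = 0`. With an injection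
`e : ι → ℕ` (`Fintype.equivFin`) the polynomials `∑ i, l T i * s ^ e i` are not zero, finitely many: there is `s > 0` with `∑ i, l T i * s ^ e i ≠ 0` for all `T`; `θ i = s ^ e i`.
If the active `R i` at `Z` for `c + ε θ` are dependent (`T` = the active set), then `0 = ∑ l T i * (inner (R i) Z + c i + ε θ i) = ∑ l T i c i + ε ∑ l T i θ i`, so `ε` is one of finitely
many numbers `- ∑ l T i c i / ∑ l T i θ i`; `ε₀` = smaller than all the positive ones. -/
theorem tht {ι : Type} [Fintype ι] (R : ι → W) : ∃ θ : ι → ℝ, (∀ i, 0 < θ i) ∧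
    ∀ c : ι → ℝ, ∃ ε₀ : ℝ, 0 < ε₀ ∧ ∀ ε, 0 < ε → ε < ε₀ → Gen R (fun i => c i + ε * θ i) := by
  classical
  have hdep : ∀ T : Set ι, ¬ LinearIndependent ℝ (fun i : T => R i) →
      ∃ l : ι → ℝ, (∃ i, l i ≠ 0) ∧ (∀ i, i ∉ T → l i = 0) ∧ ∑ i, l i • R i = 0 := by
    intro T hT
    obtain ⟨g, hg, i0, hi0⟩ := Fintype.not_linearIndependent_iff.1 hT
    refine ⟨fun i => if h : i ∈ T then g ⟨i, h⟩ else 0, ⟨i0, ?_⟩, ?_, ?_⟩
    · show (if h : (i0 : ι) ∈ T then g ⟨i0, h⟩ else 0) ≠ 0
      rw [dif_pos i0.2]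
      exact hi0
    · intro i hi
      exact dif_neg hi
    · have h1 : ∑ i : ι, (if h : i ∈ T then g ⟨i, h⟩ else 0) • R i =
          ∑ i ∈ Finset.univ.filter (fun i => i ∈ T), (if h : i ∈ T then g ⟨i, h⟩ else 0) • R i := by
        rw [Finset.sum_filter]
        refine Finset.sum_congr rfl fun i _ => ?_
        by_cases h : i ∈ T
        · rw [if_pos h]
        · rw [if_neg h, dif_neg h, zero_smul]
      rw [h1, ← hg, Finset.sum_subtype (p := fun i => i ∈ T) (Finset.univ.filter (fun i => i ∈ T)) (by simp)]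
      refine Finset.sum_congr rfl fun i _ => ?_
      rw [dif_pos i.2]
  choose! l hl0 hl1 hl2 using hdep
  set e := Fintype.equivFin ι with he
  set Pp : Set ι → Polynomial ℝ := fun T => ∑ i, Polynomial.C (l T i) * Polynomial.X ^ (e i : ℕ) with hPp
  have hP0 : ∀ T : Set ι, ¬ LinearIndependent ℝ (fun i : T => R i) → Pp T ≠ 0 := by
    intro T hT h0
    obtain ⟨i0, hi0⟩ := hl0 T hT
    apply hi0
    have h1 : (Pp T).coeff (e i0 : ℕ) = l T i0 := by
      rw [hPp]
      simp only [Polynomial.finsetSum_coeff, Polynomial.coeff_C_mul, Polynomial.coeff_X_pow]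
      rw [Finset.sum_eq_single i0]
      · simp
      · intro b _ hb
        rw [if_neg, mul_zero]
        intro h
        exact hb (e.injective (Fin.ext h)).symm
      · intro h
        exact absurd (Finset.mem_univ _) h
    rw [← h1, h0, Polynomial.coeff_zero]
  have : Fintype (Set ι) := Fintype.ofFinite _
  set Q : Polynomial ℝ := ∏ T : Set ι, if Pp T = 0 then 1 else Pp T with hQ
  have hQ0 : Q ≠ 0 := by
    rw [hQ, Finset.prod_ne_zero_iff]
    intro T _
    split_ifs with h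
    · exact one_ne_zero
    · exact h
  obtain ⟨s, hs, hsQ⟩ := (Set.Ioi_infinite (0 : ℝ)).exists_notMem_finset Q.roots.toFinset
  have hs0 : (0 : ℝ) < s := hs
  have hsQ' : Q.eval s ≠ 0 := by
    intro h
    apply hsQ
    rw [Multiset.mem_toFinset, Polynomial.mem_roots hQ0]
    exact h
  have hL : ∀ T : Set ι, ¬ LinearIndependent ℝ (fun i : T => R i) → ∑ i, l T i * s ^ (e i : ℕ) ≠ 0 := by
    intro T hT h
    apply hsQ'
    rw [hQ, Polynomial.eval_prod]
    refine Finset.prod_eq_zero (Finset.mem_univ T) ?_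
    rw [if_neg (hP0 T hT), hPp]
    simp only [Polynomial.eval_finsetSum, Polynomial.eval_mul, Polynomial.eval_C, Polynomial.eval_pow,
      Polynomial.eval_X]
    exact h
  refine ⟨fun i => s ^ (e i : ℕ), fun i => pow_pos hs0 _, fun c => ?_⟩
  have hev : ∀ᶠ ε in nhdsWithin (0 : ℝ) (Set.Ioi 0), ∀ T : Set ι,
      ε ≠ -(∑ i, l T i * c i) / (∑ i, l T i * s ^ (e i : ℕ)) := by
    rw [Filter.eventually_all]
    intro T
    rcases lt_or_ge 0 (-(∑ i, l T i * c i) / (∑ i, l T i * s ^ (e i : ℕ))) with h | h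
    · filter_upwards [Ioo_mem_nhdsGT h] with ε hε
      exact hε.2.ne
    · filter_upwards [self_mem_nhdsWithin] with ε hε
      exact (lt_of_le_of_lt h hε).ne'
  obtain ⟨ε₀, hε₀, hsub⟩ := (mem_nhdsGT_iff_exists_Ioo_subset).1 hev
  refine ⟨ε₀, hε₀, fun ε h1 h2 Z hZ => ?_⟩
  by_contra hT
  have h3 := hsub ⟨h1, h2⟩ (Act R (fun i => c i + ε * s ^ (e i : ℕ)) Z)
  apply h3
  rw [eq_div_iff (hL _ hT)]
  have h4 := hl2 _ hT
  have h5 : ∑ i, l (Act R (fun i => c i + ε * s ^ (e i : ℕ)) Z) i * inner ℝ (R i) Z = 0 := by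
    have h6 : inner ℝ (∑ i, l (Act R (fun i => c i + ε * s ^ (e i : ℕ)) Z) i • R i) Z = 0 := by
      rw [h4, inner_zero_left]
    rw [sum_inner] at h6
    rw [← h6]
    exact Finset.sum_congr rfl fun i _ => by rw [real_inner_smul_left]
  have h7 : ∑ i, l (Act R (fun i => c i + ε * s ^ (e i : ℕ)) Z) i *
      (inner ℝ (R i) Z + (c i + ε * s ^ (e i : ℕ))) = 0 := by
    refine Finset.sum_eq_zero fun i _ => ?_
    by_cases hi : i ∈ Act R (fun i => c i + ε * s ^ (e i : ℕ)) Z
    · have : inner ℝ (R i) Z + (c i + ε * s ^ (e i : ℕ)) = 0 := hi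
      rw [this, mul_zero]
    · rw [hl1 _ hT i hi, zero_mul]
  simp only [mul_add, Finset.sum_add_distrib] at h7
  rw [h5] at h7
  have h8 : ∑ i, l (Act R (fun i => c i + ε * s ^ (e i : ℕ)) Z) i * (ε * s ^ (e i : ℕ)) =
      ε * ∑ i, l (Act R (fun i => c i + ε * s ^ (e i : ℕ)) Z) i * s ^ (e i : ℕ) := by
    rw [Finset.mul_sum]
    exact Finset.sum_congr rfl fun i _ => by ring
  rw [h8] at h7
  linarith
-- END tht

-- BEGIN loc
/-- `S = Act R c Z0`. Apply `ext` to the subtype `S` with the functions `R`, `θ` and the point `0` (feasible as `θ > 0`): a point `Y` with `inner (R s) Y + θ s ≥ 0` for all `s ∈ S`, and every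
`R s`, `s ∈ S`, is in the span of `R '' T`, `T = {s ∈ S | inner (R s) Y + θ s = 0}`. Then for small `ε > 0` the point `Z0 + ε Y` is feasible for `c + ε θ` and has the active set `T`: for `s ∈ S` the value is
`ε (inner (R s) Y + θ s)`, for `k ∉ S` it is `(inner (R k) Z0 + c k) + ε (..)`, positive for small `ε` (finitely many `k`). -/
theorem loc {ι : Type} [Fintype ι] {R : ι → W} {c θ : ι → ℝ} (hθ : ∀ i, 0 < θ i) {S : Set ι} (hS : S ∈ Labs R c) :
    ∃ T ⊆ S, (∀ s ∈ S, R s ∈ Submodule.span ℝ (R '' T)) ∧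
      ∃ ε₁ : ℝ, 0 < ε₁ ∧ ∀ ε, 0 < ε → ε < ε₁ → T ∈ Labs R (fun i => c i + ε * θ i) := by
  classical
  obtain ⟨Z0, hZ0, rfl⟩ := hS
  obtain ⟨Y, hY, _, hsp⟩ := ext (ι := Act R c Z0) (R := fun s => R s) (c := fun s => θ s) (Z := 0)
    (fun s => by rw [inner_zero_right, zero_add]; exact (hθ s).le)
  refine ⟨Subtype.val '' Act (fun s : Act R c Z0 => R s) (fun s => θ s) Y, ?_, ?_, ?_⟩
  · rintro _ ⟨s, _, rfl⟩
    exact s.2
  · intro s hs
    have h1 := hsp ⟨s, hs⟩
    rw [Set.image_image]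
    exact h1
  · have hev : ∀ᶠ ε in nhdsWithin (0 : ℝ) (Set.Ioi 0), ∀ k : ι, k ∉ Act R c Z0 →
        0 < (inner ℝ (R k) Z0 + c k) + ε * (inner ℝ (R k) Y + θ k) := by
      rw [Filter.eventually_all]
      intro k
      by_cases hk : k ∈ Act R c Z0
      · exact Filter.Eventually.of_forall fun ε h => absurd hk h
      · have h1 : 0 < inner ℝ (R k) Z0 + c k := lt_of_le_of_ne (hZ0 k) (fun h => hk h.symm)
        have h2 : Filter.Tendsto (fun ε : ℝ => (inner ℝ (R k) Z0 + c k) + ε * (inner ℝ (R k) Y + θ k)) (nhds 0)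
            (nhds ((inner ℝ (R k) Z0 + c k) + 0 * (inner ℝ (R k) Y + θ k))) := by
          apply Continuous.tendsto
          fun_prop
        rw [zero_mul, add_zero] at h2
        have h3 := (h2.eventually (lt_mem_nhds h1)).filter_mono (nhdsWithin_le_nhds (s := Set.Ioi 0))
        filter_upwards [h3] with ε hε _
        exact hε
    obtain ⟨ε₁, hε₁, hsub⟩ := (mem_nhdsGT_iff_exists_Ioo_subset).1 hev
    refine ⟨ε₁, hε₁, fun ε h1 h2 => ?_⟩
    have hpos := hsub ⟨h1, h2⟩
    have hval : ∀ i, inner ℝ (R i) (Z0 + ε • Y) + (c i + ε * θ i) =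
        (inner ℝ (R i) Z0 + c i) + ε * (inner ℝ (R i) Y + θ i) := by
      intro i
      rw [inner_add_right, inner_smul_right]
      ring
    refine ⟨Z0 + ε • Y, ?_, ?_⟩
    · intro i
      show 0 ≤ inner ℝ (R i) (Z0 + ε • Y) + (c i + ε * θ i)
      rw [hval]
      by_cases hi : i ∈ Act R c Z0
      · have h3 : inner ℝ (R i) Z0 + c i = 0 := hi
        rw [h3, zero_add]
        exact mul_nonneg h1.le (hY ⟨i, hi⟩)
      · exact (hpos i hi).le
    · ext i
      show inner ℝ (R i) (Z0 + ε • Y) + (c i + ε * θ i) = 0 ↔ _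
      rw [hval]
      constructor
      · intro h
        by_cases hi : i ∈ Act R c Z0
        · have h3 : inner ℝ (R i) Z0 + c i = 0 := hi
          rw [h3, zero_add] at h
          refine ⟨⟨i, hi⟩, ?_, rfl⟩
          exact (mul_eq_zero.1 h).resolve_left h1.ne'
        · exact absurd h (hpos i hi).ne'
      · rintro ⟨s, hs, rfl⟩
        have h3 : inner ℝ (R (s : ι)) Z0 + c s = 0 := s.2
        have h4 : inner ℝ (R (s : ι)) Y + θ s = 0 := hs
        rw [h3, h4, mul_zero, add_zero]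
-- END loc

-- BEGIN inj
private theorem inj_aux {ι : Type} {R : ι → W} {c : ι → ℝ} {Z Z' : W} {T : Set ι} (hT : T ⊆ Act R c Z)
    (hT' : T ⊆ Act R c Z') {r : W} (hr : r ∈ Submodule.span ℝ (R '' T)) : inner ℝ r Z = inner ℝ r Z' := by
  induction hr using Submodule.span_induction with
  | mem x hx =>
    obtain ⟨t, ht, rfl⟩ := hx
    have h1 : inner ℝ (R t) Z + c t = 0 := hT ht
    have h2 : inner ℝ (R t) Z' + c t = 0 := hT' ht
    linarith
  | zero => simp
  | add x y _ _ hx hy => rw [inner_add_left, inner_add_left, hx, hy]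
  | smul a x _ hx => rw [real_inner_smul_left, real_inner_smul_left, hx]

/-- For `s ∈ S` write `R s = ∑ t, μ t • R t` (`Submodule.mem_span_image_iff...`, a `Finsupp` on `T`). At the point `Z` of `S` the values of `s` and all `t ∈ T` are zero: `c s = ∑ μ t * c t`. So at the point `Z'` of `S'` the value
of `s` is zero as well: `s ∈ S'`. Symmetric. (Or with `Submodule.span_induction`: the set of pairs `(r, a)` with `inner r Z + a = 0 ↔ ...`: show that `inner r Z + a = inner r Z' + a'`... any proof.) -/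
theorem inj {ι : Type} {R : ι → W} {c : ι → ℝ} {S S' T : Set ι} (hS : S ∈ Labs R c) (hS' : S' ∈ Labs R c)
    (hT : T ⊆ S) (hT' : T ⊆ S') (h : ∀ s ∈ S, R s ∈ Submodule.span ℝ (R '' T))
    (h' : ∀ s ∈ S', R s ∈ Submodule.span ℝ (R '' T)) : S = S' := by
  obtain ⟨Z, hZ, rfl⟩ := hS
  obtain ⟨Z', hZ', rfl⟩ := hS'
  ext s
  constructor
  · intro hs
    have h1 : inner ℝ (R s) Z + c s = 0 := hs
    have h2 := inj_aux hT hT' (h s hs)
    show inner ℝ (R s) Z' + c s = 0
    rw [← h2]
    exact h1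
  · intro hs
    have h1 : inner ℝ (R s) Z' + c s = 0 := hs
    have h2 := inj_aux hT hT' (h' s hs)
    show inner ℝ (R s) Z + c s = 0
    rw [h2]
    exact h1
-- END inj

-- BEGIN red
/-- `θ` from `tht`, for every `S ∈ Labs R c` the set `T S` and `ε₁ S` from `loc`; `ε` = half of the minimum of `ε₀` and the finitely many `ε₁ S` (`Set ι` is finite). `S ↦ T S` maps `Labs R c` into
`Labs R (c + ε θ)` and is injective by `inj`. -/
theorem red {ι : Type} [Fintype ι] (R : ι → W) (c : ι → ℝ) :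
    ∃ c' : ι → ℝ, Gen R c' ∧ (Labs R c).ncard ≤ (Labs R c').ncard := by
  classical
  obtain ⟨θ, hθ, h⟩ := tht R
  obtain ⟨ε₀, hε₀, hgen⟩ := h c
  have hloc : ∀ S : Labs R c, ∃ T ⊆ (S : Set ι), (∀ s ∈ (S : Set ι), R s ∈ Submodule.span ℝ (R '' T)) ∧
      ∃ ε₁ : ℝ, 0 < ε₁ ∧ ∀ ε, 0 < ε → ε < ε₁ → T ∈ Labs R (fun i => c i + ε * θ i) :=
    fun S => loc hθ S.2
  choose T hTS hspan ε₁ hε₁ hT using hloc
  have hfin : Finite (Labs R c) := Subtype.finite
  have hfin' : (Set.range ε₁).Finite := Set.finite_range ε₁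
  have hmin : ∃ ε : ℝ, 0 < ε ∧ ε < ε₀ ∧ ∀ S, ε < ε₁ S := by
    obtain ⟨δ, hδ, hδ'⟩ : ∃ δ : ℝ, 0 < δ ∧ ∀ S, δ ≤ ε₁ S := by
      rcases isEmpty_or_nonempty (Labs R c) with he | he
      · exact ⟨1, one_pos, fun S => (he.false S).elim⟩
      · obtain ⟨S₀, hS₀⟩ := Finite.exists_min ε₁
        exact ⟨ε₁ S₀, hε₁ S₀, hS₀⟩
    refine ⟨min ε₀ δ / 2, by positivity, ?_, fun S => ?_⟩
    · have h1 := min_le_left ε₀ δ
      linarith
    · have h1 := min_le_right ε₀ δ
      have h2 := hδ' S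
      linarith
  obtain ⟨ε, hε, hεε₀, hεε₁⟩ := hmin
  refine ⟨fun i => c i + ε * θ i, hgen ε hε hεε₀, ?_⟩
  rw [← Nat.card_coe_set_eq, ← Nat.card_coe_set_eq]
  have hfin2 : Finite (Labs R (fun i => c i + ε * θ i)) := Subtype.finite
  refine Nat.card_le_card_of_injective
    (fun S => (⟨T S, hT S ε hε (hεε₁ S)⟩ : Labs R (fun i => c i + ε * θ i))) ?_
  intro S S' hSS'
  have h1 : T S = T S' := congrArg (fun z : Labs R (fun i => c i + ε * θ i) => (z : Set ι)) hSS'
  refine Subtype.ext (inj S.2 S'.2 (hTS S) (h1 ▸ hTS S') (hspan S) ?_)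
  rw [h1]
  exact hspan S'
-- END red

-- BEGIN hyp
/-- a vector `h` which is not orthogonal to any of finitely many nonzero vectors (for instance `h = ∑ k, s ^ k • e k` for a number `s` which is not a root of finitely many nonzero
polynomials, or a finite union of proper subspaces of a real vector space is not everything: `Subspace.biUnion_ne_univ_of_top_notMem` or similar). -/
theorem hyp (D : Finset W) (hD : ∀ d ∈ D, d ≠ 0) : ∃ h : W, ∀ d ∈ D, inner ℝ h d ≠ 0 := by
  obtain ⟨h, hh⟩ := Module.Dual.exists_forall_ne_zero_of_forall_exists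
    (fun d : D => (innerₛₗ ℝ (d : W) : Module.Dual ℝ W)) (fun d => ⟨(d : W), by
      rw [innerₛₗ_apply_apply]
      exact inner_self_ne_zero.2 (hD d d.2)⟩)
  refine ⟨h, fun d hd h0 => hh ⟨d, hd⟩ ?_⟩
  rw [innerₛₗ_apply_apply, real_inner_comm]
  exact h0
-- END hyp

-- BEGIN dua
/-- Five linearly independent vectors are a basis; the dual basis. (`basisOfLinearIndependentOfCardEqFinrank`, `Basis.coord` and the Riesz vector `InnerProductSpace.toDual`, or the
inverse of the linear equivalence `Z ↦ (inner (r k) Z)_k` to `Fin 5 → ℝ`.) Then `∑ k, inner (r k) D • d k` and `D` have the same inner products with all `r k`, so they are equal. -/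
theorem dua (r : Fin 5 → W) (hr : LinearIndependent ℝ r) : ∃ d : Fin 5 → W,
    (∀ k l, inner ℝ (r k) (d l) = if k = l then 1 else 0) ∧ ∀ D : W, D = ∑ k, (inner ℝ (r k) D) • d k := by
  classical
  have hc : Fintype.card (Fin 5) = Module.finrank ℝ W := by simp
  let b := basisOfLinearIndependentOfCardEqFinrank hr hc
  have hb : ∀ k, b k = r k := fun k => by
    simp [b]
  let d : Fin 5 → W := fun l =>
    (InnerProductSpace.toDual ℝ W).symm (LinearMap.toContinuousLinearMap (b.coord l))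
  have hd : ∀ k l, inner ℝ (r k) (d l) = if k = l then (1 : ℝ) else 0 := by
    intro k l
    rw [real_inner_comm]
    have h1 : inner ℝ (d l) (r k) = (LinearMap.toContinuousLinearMap (b.coord l)) (r k) :=
      InnerProductSpace.toDual_symm_apply
    rw [h1, ← hb k]
    rw [LinearMap.coe_toContinuousLinearMap', Module.Basis.coord_apply, Module.Basis.repr_self,
      Finsupp.single_apply]
  refine ⟨d, hd, fun D => ?_⟩
  refine InnerProductSpace.ext_inner_left_basis b fun i => ?_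
  rw [hb i, inner_sum]
  simp [inner_smul_right, hd]
-- END dua

-- BEGIN sei
private theorem sei_pig (s : Fin 5 → Prop) : ∃ k₁ k₂ k₀ k₃ k₄ : Fin 5, (s k₁ ↔ s k₂) ∧ (s k₁ ↔ s k₀) ∧
    ∀ k, k = k₁ ∨ k = k₂ ∨ k = k₀ ∨ k = k₃ ∨ k = k₄ := by
  classical
  have key : ∀ T : Finset (Fin 5), 3 ≤ T.card → ∃ k₁ k₂ k₀ k₃ k₄ : Fin 5, k₁ ∈ T ∧ k₂ ∈ T ∧ k₀ ∈ T ∧
      ∀ k, k = k₁ ∨ k = k₂ ∨ k = k₀ ∨ k = k₃ ∨ k = k₄ := by
    intro T hT
    obtain ⟨U, hU, hU3⟩ := Finset.exists_subset_card_eq hT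
    obtain ⟨a, b, c, -, -, -, hUe⟩ := Finset.card_eq_three.1 hU3
    have hc : Uᶜ.card = 2 := by
      rw [Finset.card_compl, hU3, Fintype.card_fin]
    obtain ⟨d, e, -, hce⟩ := Finset.card_eq_two.1 hc
    refine ⟨a, b, c, d, e, hU (by simp [hUe]), hU (by simp [hUe]), hU (by simp [hUe]), fun k => ?_⟩
    by_cases hk : k ∈ U
    · rw [hUe] at hk
      simp only [Finset.mem_insert, Finset.mem_singleton] at hk
      tauto
    · have hk' : k ∈ Uᶜ := Finset.mem_compl.2 hk
      rw [hce] at hk'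
      simp only [Finset.mem_insert, Finset.mem_singleton] at hk'
      tauto
  have hsum : (Finset.univ.filter fun k => s k).card + (Finset.univ.filter fun k => ¬ s k).card = 5 := by
    rw [Finset.card_filter_add_card_filter_not, Finset.card_univ, Fintype.card_fin]
  rcases (by omega : 3 ≤ (Finset.univ.filter fun k => s k).card ∨
      3 ≤ (Finset.univ.filter fun k => ¬ s k).card) with h | h
  · obtain ⟨a, b, c, d, e, ha, hb, hc, hall⟩ := key _ h
    have ha' := (Finset.mem_filter.1 ha).2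
    have hb' := (Finset.mem_filter.1 hb).2
    have hc' := (Finset.mem_filter.1 hc).2
    exact ⟨a, b, c, d, e, iff_of_true ha' hb', iff_of_true ha' hc', hall⟩
  · obtain ⟨a, b, c, d, e, ha, hb, hc, hall⟩ := key _ h
    have ha' := (Finset.mem_filter.1 ha).2
    have hb' := (Finset.mem_filter.1 hb).2
    have hc' := (Finset.mem_filter.1 hc).2
    exact ⟨a, b, c, d, e, iff_of_false ha' hb', iff_of_false ha' hc', hall⟩

/-- SEIDEL'S ARGUMENT for one vertex. `V = Act R c Z`, five elements `e 0, .., e 4`, `dua` for `r k = R (e k)`; `h` is not orthogonal to any `d k`. Three of the five numbers `inner h (d k)` have the same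
sign (pigeonhole), let the other two elements of `V` be `i ≠ j`; `σ` = this sign (`1` or `-1`). For every feasible `Z'` with `i, j` active: `D = Z' - Z = ∑ k, inner (r k) D • d k`, the coefficients of `i`, `j` are `0`, the other three are
`≥ 0` (`inner (R s) Z' + c s ≥ 0 = inner (R s) Z + c s`), so `0 ≤ σ * inner h D`, with equality only if they are all `0`, i.e. `Z' = Z`. (Statement: the dual vectors `d` are given.) -/
theorem sei {ι : Type} {R : ι → W} {c : ι → ℝ} {Z : W} (e : Fin 5 → ι) (he : Function.Injective e)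
    (hV : Act R c Z = Set.range e) (d : Fin 5 → W) (hD : ∀ D : W, D = ∑ k, (inner ℝ (R (e k)) D) • d k)
    (h : W) (hh : ∀ k, inner ℝ h (d k) ≠ 0) :
    ∃ i j : ι, ∃ b : Bool, i ∈ Act R c Z ∧ j ∈ Act R c Z ∧ ∀ Z', Feas R c Z' → i ∈ Act R c Z' → j ∈ Act R c Z' →
      Z' ≠ Z → 0 < (if b then (1 : ℝ) else -1) * inner ℝ h (Z' - Z) := by
  classical
  obtain ⟨k₁, k₂, k₀, k₃, k₄, hs, hs0, hall⟩ := sei_pig (fun k => 0 < inner ℝ h (d k))
  have hmem : ∀ k, e k ∈ Act R c Z := fun k => by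
    rw [hV]
    exact ⟨k, rfl⟩
  refine ⟨e k₃, e k₄, decide (0 < inner ℝ h (d k₁)), hmem k₃, hmem k₄, ?_⟩
  intro Z' hZ' h3 h4 hne
  have hx : ∀ k, inner ℝ (R (e k)) (Z' - Z) = inner ℝ (R (e k)) Z' + c (e k) := by
    intro k
    have h1 : inner ℝ (R (e k)) Z + c (e k) = 0 := hmem k
    rw [inner_sub_right]
    linarith
  have hx0 : ∀ k, 0 ≤ inner ℝ (R (e k)) (Z' - Z) := fun k => by
    rw [hx]
    exact hZ' (e k)
  have hx3 : inner ℝ (R (e k₃)) (Z' - Z) = 0 := by
    rw [hx]
    exact h3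
  have hx4 : inner ℝ (R (e k₄)) (Z' - Z) = 0 := by
    rw [hx]
    exact h4
  have hsum : (if decide (0 < inner ℝ h (d k₁)) = true then (1 : ℝ) else -1) * inner ℝ h (Z' - Z) =
      ∑ k, inner ℝ (R (e k)) (Z' - Z) * ((if decide (0 < inner ℝ h (d k₁)) = true then (1 : ℝ) else -1) * inner ℝ h (d k)) := by
    conv_lhs => rw [hD (Z' - Z)]
    rw [inner_sum, Finset.mul_sum]
    refine Finset.sum_congr rfl fun k _ => ?_
    rw [inner_smul_right]
    ring
  have hsg : ∀ k, (k = k₁ ∨ k = k₂ ∨ k = k₀) → 0 < (if decide (0 < inner ℝ h (d k₁)) = true then (1 : ℝ) else -1) * inner ℝ h (d k) := by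
    intro k hk
    have hk' : (0 < inner ℝ h (d k₁) ↔ 0 < inner ℝ h (d k)) := by
      rcases hk with rfl | rfl | rfl
      · exact Iff.rfl
      · exact hs
      · exact hs0
    by_cases hp : 0 < inner ℝ h (d k₁)
    · rw [if_pos (decide_eq_true hp), one_mul]
      exact hk'.1 hp
    · rw [if_neg (by rw [decide_eq_true_eq]; exact hp), neg_one_mul]
      have h5 : ¬ 0 < inner ℝ h (d k) := fun h6 => hp (hk'.2 h6)
      have h6 : inner ℝ h (d k) < 0 := lt_of_le_of_ne (not_lt.1 h5) (hh k)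
      linarith
  have hterm : ∀ k, 0 ≤ inner ℝ (R (e k)) (Z' - Z) * ((if decide (0 < inner ℝ h (d k₁)) = true then (1 : ℝ) else -1) * inner ℝ h (d k)) := by
    intro k
    rcases hall k with hk | hk | hk | hk | hk
    · exact mul_nonneg (hx0 k) (hsg k (Or.inl hk)).le
    · exact mul_nonneg (hx0 k) (hsg k (Or.inr (Or.inl hk))).le
    · exact mul_nonneg (hx0 k) (hsg k (Or.inr (Or.inr hk))).le
    · rw [hk, hx3, zero_mul]
    · rw [hk, hx4, zero_mul]
  have hex : ∃ k, inner ℝ (R (e k)) (Z' - Z) ≠ 0 := by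
    by_contra hc
    have hc' : ∀ k, inner ℝ (R (e k)) (Z' - Z) = 0 := fun k => by
      by_contra h5
      exact hc ⟨k, h5⟩
    apply hne
    have h5 := hD (Z' - Z)
    rw [Finset.sum_congr rfl fun k _ => by rw [hc' k, zero_smul], Finset.sum_const_zero] at h5
    exact sub_eq_zero.1 h5
  obtain ⟨k, hk⟩ := hex
  rw [hsum]
  refine Finset.sum_pos' (fun k _ => hterm k) ⟨k, Finset.mem_univ k, ?_⟩
  have hkpos : 0 < inner ℝ (R (e k)) (Z' - Z) := lt_of_le_of_ne (hx0 k) (Ne.symm hk)
  rcases hall k with hk' | hk' | hk' | hk' | hk'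
  · exact mul_pos hkpos (hsg k (Or.inl hk'))
  · exact mul_pos hkpos (hsg k (Or.inr (Or.inl hk')))
  · exact mul_pos hkpos (hsg k (Or.inr (Or.inr hk')))
  · rw [hk'] at hk
    exact absurd hx3 hk
  · rw [hk'] at hk
    exact absurd hx4 hk
-- END sei

-- BEGIN vtx
/-- For every `V ∈ Labs R c` with five elements choose a feasible `Z V`, an injection `e V : Fin 5 → ι` with range `V` and the dual vectors (`dua`, `Gen`); `hyp` for all these finitely many dual vectors (they are not zero as `inner (r k) (d k) = 1`): `h`; then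
`sei` gives `(i, j, b)`. The map `V ↦ (i, j, b)` to `ι × ι × Bool` is injective: for `V ≠ V'` with the same `(i, j, b)` one has `Z V ≠ Z V'` and both `0 < σ * inner h (Z V' - Z V)` and `0 < σ * inner h (Z V - Z V')`. So at most `2 N ^ 2`. -/
theorem vtx {ι : Type} [Fintype ι] {R : ι → W} {c : ι → ℝ} (hg : Gen R c) :
    {V | V ∈ Labs R c ∧ V.ncard = 5}.ncard ≤ 2 * Fintype.card ι ^ 2 := by
  classical
  have key : ∀ V : {V | V ∈ Labs R c ∧ V.ncard = 5}, ∃ Z, Feas R c Z ∧ Act R c Z = V.1 ∧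
      ∃ d : Fin 5 → W, (∀ k, d k ≠ 0) ∧ ∀ h : W, (∀ k, inner ℝ h (d k) ≠ 0) →
        ∃ i j : ι, ∃ b : Bool, i ∈ Act R c Z ∧ j ∈ Act R c Z ∧
          ∀ Z', Feas R c Z' → i ∈ Act R c Z' → j ∈ Act R c Z' →
            Z' ≠ Z → 0 < (if b then (1 : ℝ) else -1) * inner ℝ h (Z' - Z) := by
    rintro ⟨V, ⟨Z, hZ, hA⟩, hV⟩
    refine ⟨Z, hZ, hA, ?_⟩
    have hcard : Nat.card (Act R c Z) = 5 := by
      rw [hA]; exact hV
    let E : Act R c Z ≃ Fin 5 := Finite.equivFinOfCardEq hcard
    have hli : LinearIndependent ℝ (fun k : Fin 5 => R ((E.symm k : Act R c Z) : ι)) :=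
      (hg Z hZ).comp (fun k => E.symm k) E.symm.injective
    obtain ⟨d, hd1, hd2⟩ := dua (fun k => R ((E.symm k : Act R c Z) : ι)) hli
    refine ⟨d, ?_, ?_⟩
    · intro k h0
      have := hd1 k k
      rw [h0] at this
      simp at this
    · intro h hh
      exact sei (fun k => ((E.symm k : Act R c Z) : ι))
        (fun a b hab => E.symm.injective (Subtype.ext hab))
        (by
          ext x
          constructor
          · intro hx
            exact ⟨E ⟨x, hx⟩, by simp⟩
          · rintro ⟨k, rfl⟩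
            exact (E.symm k).2) d hd2 h hh
  choose Z hZ hA d hd hs using key
  have : Fintype {V | V ∈ Labs R c ∧ V.ncard = 5} := Fintype.ofFinite _
  obtain ⟨h, hh⟩ := hyp (Finset.univ.image
    (fun p : {V | V ∈ Labs R c ∧ V.ncard = 5} × Fin 5 => d p.1 p.2)) (by
      intro x hx
      obtain ⟨p, -, rfl⟩ := Finset.mem_image.1 hx
      exact hd _ _)
  have hk : ∀ V : {V | V ∈ Labs R c ∧ V.ncard = 5}, ∀ k, inner ℝ h (d V k) ≠ 0 := fun V k =>
    hh _ (Finset.mem_image.2 ⟨(V, k), Finset.mem_univ _, rfl⟩)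
  choose i j b hi hj hp using fun V => hs V h (hk V)
  have hinj : Function.Injective
      (fun V : {V | V ∈ Labs R c ∧ V.ncard = 5} => (i V, j V, b V)) := by
    intro V V' hVV
    simp only [Prod.mk.injEq] at hVV
    obtain ⟨h1, h2, h3⟩ := hVV
    by_contra hne
    have hZZ : Z V' ≠ Z V := by
      intro h0
      apply hne
      apply Subtype.ext
      rw [← hA V, ← hA V', h0]
    have e1 := hp V (Z V') (hZ V') (h1 ▸ hi V') (h2 ▸ hj V') hZZ
    have e2 := hp V' (Z V) (hZ V) (h1 ▸ hi V) (h2 ▸ hj V) hZZ.symm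
    rw [← h3] at e2
    have e3 : inner ℝ h (Z V - Z V') = - inner ℝ h (Z V' - Z V) := by
      rw [← inner_neg_right, neg_sub]
    rw [e3] at e2
    linarith
  have hc := Nat.card_le_card_of_injective _ hinj
  rw [Nat.card_prod, Nat.card_prod, Nat.card_eq_fintype_card (α := ι), Nat.card_eq_fintype_card (α := Bool),
    Fintype.card_bool] at hc
  calc {V | V ∈ Labs R c ∧ V.ncard = 5}.ncard ≤ Fintype.card ι * (Fintype.card ι * 2) := hc
    _ = 2 * Fintype.card ι ^ 2 := by ring
-- END vtx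

-- BEGIN cnt
/-- By `ext` every `T ∈ Labs R c` is contained in a `V ∈ Labs R c` with `span (R '' V) = ⊤` (`hs`), and `R` is linearly independent on `V` (`Gen`), so `V` has five elements (`finrank W = 5`). Every `V` has at most `2 ^ 5` subsets: `vtx`. -/
theorem cnt {ι : Type} [Fintype ι] {R : ι → W} {c : ι → ℝ} (hg : Gen R c) (hs : Submodule.span ℝ (Set.range R) = ⊤) :
    (Labs R c).ncard ≤ 64 * Fintype.card ι ^ 2 := by
  classical
  have h4 : ∀ T ∈ Labs R c, ∃ V, (V ∈ Labs R c ∧ V.ncard = 5) ∧ T ⊆ V := by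
    rintro T ⟨Z, hZ, rfl⟩
    obtain ⟨Z', hZ', hsub, hall⟩ := ext hZ
    refine ⟨Act R c Z', ⟨⟨Z', hZ', rfl⟩, ?_⟩, hsub⟩
    have hsp : ⊤ ≤ Submodule.span ℝ (Set.range fun i : Act R c Z' => R i) := by
      rw [← hs, Submodule.span_le]
      rintro _ ⟨j, rfl⟩
      have h1 := hall j
      have h2 : R '' Act R c Z' = Set.range fun i : Act R c Z' => R i := by
        ext x
        constructor
        · rintro ⟨i, hi, rfl⟩
          exact ⟨⟨i, hi⟩, rfl⟩
        · rintro ⟨⟨i, hi⟩, rfl⟩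
          exact ⟨i, hi, rfl⟩
      rw [h2] at h1
      exact h1
    have hb := Module.Basis.mk (hg Z' hZ') hsp
    have h5 := Module.finrank_eq_nat_card_basis hb
    rw [finrank_euclideanSpace, Fintype.card_fin] at h5
    exact h5.symm
  set 𝒱 : Set (Set ι) := {V | V ∈ Labs R c ∧ V.ncard = 5} with h𝒱
  have hfin : 𝒱.Finite := Set.toFinite _
  have hsub : Labs R c ⊆ ((hfin.toFinset.biUnion fun V => (Set.toFinite (𝒫 V)).toFinset : Finset (Set ι)) : Set (Set ι)) := by
    intro T hT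
    obtain ⟨V, hV, hTV⟩ := h4 T hT
    rw [Finset.mem_coe, Finset.mem_biUnion]
    refine ⟨V, hfin.mem_toFinset.2 hV, ?_⟩
    rw [Set.Finite.mem_toFinset]
    exact hTV
  have h6 := Set.ncard_le_ncard hsub (Finset.finite_toSet _)
  rw [Set.ncard_coe_finset] at h6
  have h7 : (hfin.toFinset.biUnion fun V => (Set.toFinite (𝒫 V)).toFinset).card ≤ hfin.toFinset.card * 32 := by
    apply Finset.card_biUnion_le_card_mul
    intro V hV
    rw [Set.Finite.mem_toFinset] at hV
    rw [← Set.ncard_eq_toFinset_card, Set.ncard_powerset V (Set.toFinite V), hV.2]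
    norm_num
  have h8 := vtx hg
  rw [← h𝒱, Set.ncard_eq_toFinset_card 𝒱 hfin] at h8
  calc (Labs R c).ncard ≤ hfin.toFinset.card * 32 := h6.trans h7
    _ ≤ 2 * Fintype.card ι ^ 2 * 32 := Nat.mul_le_mul_right _ h8
    _ = 64 * Fintype.card ι ^ 2 := by ring
-- END cnt

-- BEGIN pol
/-- `R' = Sum.elim R (fun k => EuclideanSpace.single k 1)` on `ι ⊕ Fin 5` (it spans) and `c' = Sum.elim c (fun _ => M)`, where `M` is larger than `- inner (single k 1) (Z S)` for the finitely many witness points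
`Z S` of the `S ∈ Labs R c`: then `Sum.inl '' S ∈ Labs R' c'`, an injection. Then `red` (the span does not depend on `c`) and `cnt`. -/
theorem pol {ι : Type} [Fintype ι] (R : ι → W) (c : ι → ℝ) :
    (Labs R c).ncard ≤ 64 * (Fintype.card ι + 5) ^ 2 := by
  classical
  choose Zf hZf using fun S : Labs R c => S.2
  obtain ⟨M, hM⟩ : ∃ M : ℝ, ∀ (S : Labs R c) (k : Fin 5),
      0 < inner ℝ (EuclideanSpace.single k (1 : ℝ) : W) (Zf S) + M := by
    obtain ⟨M, hM⟩ := (Set.finite_range (fun p : Labs R c × Fin 5 =>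
      - inner ℝ (EuclideanSpace.single p.2 (1 : ℝ) : W) (Zf p.1))).bddAbove
    refine ⟨M + 1, fun S k => ?_⟩
    have h := hM ⟨(S, k), rfl⟩
    simp only at h
    linarith
  have hmap : ∀ S ∈ Labs R c, (Sum.inl '' S : Set (ι ⊕ Fin 5)) ∈
      Labs (Sum.elim R (fun k => (EuclideanSpace.single k (1 : ℝ) : W))) (Sum.elim c (fun _ => M)) := by
    intro S hS
    obtain ⟨hF, hA⟩ := hZf ⟨S, hS⟩
    refine ⟨Zf ⟨S, hS⟩, ?_, ?_⟩
    · rintro (i | k)
      · exact hF i
      · exact (hM ⟨S, hS⟩ k).le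
    · have hA' : Act R c (Zf ⟨S, hS⟩) = S := hA
      ext x
      rcases x with i | k
      · constructor
        · intro h
          refine ⟨i, ?_, rfl⟩
          rw [← hA']
          exact h
        · rintro ⟨i', hi', h⟩
          cases h
          rw [← hA'] at hi'
          exact hi'
      · constructor
        · intro h
          exact absurd h (hM ⟨S, hS⟩ k).ne'
        · rintro ⟨i, _, hi⟩
          cases hi
  have h1 := Set.ncard_le_ncard_of_injOn (fun S : Set ι => (Sum.inl '' S : Set (ι ⊕ Fin 5))) hmap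
    (Set.image_injective.2 Sum.inl_injective).injOn (Set.toFinite _)
  have hs : Submodule.span ℝ (Set.range
      (Sum.elim R (fun k : Fin 5 => (EuclideanSpace.single k (1 : ℝ) : W)))) = ⊤ := by
    rw [eq_top_iff, ← (EuclideanSpace.basisFun (Fin 5) ℝ).toBasis.span_eq]
    apply Submodule.span_mono
    rintro _ ⟨k, rfl⟩
    exact ⟨Sum.inr k, by simp⟩
  obtain ⟨c'', hg, h2⟩ := red (Sum.elim R (fun k : Fin 5 => (EuclideanSpace.single k (1 : ℝ) : W)))
    (Sum.elim c (fun _ => M))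
  have h3 := cnt hg hs
  rw [Fintype.card_sum, Fintype.card_fin] at h3
  exact h1.trans (h2.trans h3)
-- END pol

end Pool.Agent.Vcp5
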